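import Mathlib
import Pool.Agent.TeamU.F1
import Pool.Agent.TeamU.F2c
import Pool.Agent.TeamU.F3b

/-! The base field `ℚ(√m)`, `m = 17 * 41 * ⋯ * 241` (ten primes), following TEAM-U.
Adapted by helper718 from `Pool/Agent/TeamU/F1.lean`, `F2c.lean`, `F3b.lean`. -/

set_option autoImplicit false

open NumberField IsDedekindDomain Module

namespace Pool.Agent.H718R3.NT

open Pool.Agent.TeamU

/-- ten primes which are `1` modulo `8` -/
def qt : List ℕ := [17, 41, 73, 89, 97, 113, 137, 193, 233, 241]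

theorem qt_prod_eq : qt.prod = 73696465989759775177 := by
  simp [qt]

theorem qt_prod_not_sq (n : ℕ) : n ^ 2 ≠ qt.prod := by
  rw [qt_prod_eq]
  intro h
  rcases Nat.lt_or_ge n 8584664583 with h1 | h1
  · have h2 : n ^ 2 ≤ 8584664582 ^ 2 := Nat.pow_le_pow_left (by omega) 2
    rw [h] at h2
    norm_num at h2
  · have h2 : 8584664583 ^ 2 ≤ n ^ 2 := Nat.pow_le_pow_left h1 2
    rw [h] at h2
    norm_num at h2

theorem qt_prod_not_sq_rat (r : ℚ) : r ^ 2 ≠ ((qt.prod : ℕ) : ℚ) := by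
  intro h
  have h1 : IsSquare ((qt.prod : ℕ) : ℚ) := ⟨r, by rw [← h, sq]⟩
  rw [Rat.isSquare_natCast_iff] at h1
  obtain ⟨n, hn⟩ := h1
  exact qt_prod_not_sq n (by rw [hn, sq])

theorem locSq_qt_prod (v : HeightOneSpectrum (𝓞 ℚ)) (hv : (2 : 𝓞 ℚ) ∈ v.asIdeal) :
    LocSq v ((qt.prod : ℕ) : ℚ) := by
  refine ⟨1, ((qt.prod : ℕ) : ℚ), by ring, one_ne_zero, Or.inr ?_⟩
  have h1 : (((qt.prod : ℕ) : ℚ) - 1) = 2 ^ 3 * algebraMap (𝓞 ℚ) ℚ (9212058248719971897 : ℕ) := by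
    rw [qt_prod_eq, map_natCast]
    norm_num
  rw [h1, map_mul, map_pow, B7.val_two v twoSplit_rat hv]
  calc _ ≤ WithZero.exp (-1 : ℤ) ^ 3 * 1 := by
        gcongr
        exact v.valuation_le_one _
    _ = WithZero.exp (-3 : ℤ) := by
        rw [mul_one, ← WithZero.exp_nsmul]
        norm_num

instance factQ : Fact (∀ r : ℚ, r ^ 2 ≠ ((qt.prod : ℕ) : ℚ) + 0 * r) :=
  ⟨fun r => by rw [zero_mul, add_zero]; exact qt_prod_not_sq_rat r⟩

/-- (F1) -/
theorem exists_base : ∃ (k : Type) (_ : Field k) (_ : NumberField k), finrank ℚ k = 2 ∧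
    IsTotallyReal k ∧ TwoSplit k ∧ ∃ s : k, s ^ 2 = ((qt.prod : ℕ) : k) := by
  have h2 := KI.finrank_QE ((qt.prod : ℕ) : ℚ)
  refine ⟨KI.QE ((qt.prod : ℕ) : ℚ), inferInstance, inferInstance, ?_, ?_, ?_, ?_⟩
  · convert h2
  · apply KI.totallyReal_QE
    intro φ
    rw [map_natCast, qt_prod_eq]
    norm_num
  · refine twoSplit_of_splits h2 twoSplit_rat fun v hv => ?_
    refine splits_of_locSq h2 v (twoSplit_rat v hv).2 ((qt.prod : ℕ) : ℚ) ?_
      QuadraticAlgebra.omega (KI.omega_sq _) (KI.omega_notin _) (locSq_qt_prod v hv)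
    rw [qt_prod_eq]
    norm_num
  · refine ⟨QuadraticAlgebra.omega, ?_⟩
    rw [KI.omega_sq, map_natCast]

end Pool.Agent.H718R3.NT
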