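import Mathlib
import Pool.Agent.H718R3.Base1

/-! Adjoining the square roots of the ten primes.  Adapted by helper718 from
`Pool/Agent/TeamU/F2c.lean`. -/

set_option autoImplicit false

open NumberField IsDedekindDomain Module

namespace Pool.Agent.H718R3.NT

open Pool.Agent.TeamU

variable {L : Type} [Field L] [NumberField L]

theorem even_q (s : L) (hs : s ^ 2 = ((qt.prod : ℕ) : L)) (q : ℕ) (hq : q ∈ qt)
    (P : HeightOneSpectrum (𝓞 L)) : ∃ y : L, P.valuation L (q : L) = P.valuation L y ^ 2 := by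
  by_cases h : P.valuation L (q : L) = 1
  · exact ⟨1, by rw [h]; simp⟩
  · have hlt : P.valuation L (q : L) < 1 := lt_of_le_of_ne (F2c.val_nat_le P q) h
    refine ⟨s, ?_⟩
    rw [← map_pow, hs]
    have hprod : ∃ b : ℕ, Nat.Coprime q b ∧ qt.prod = q * b := by
      refine ⟨qt.prod / q, ?_, ?_⟩
      · have h : ∀ q ∈ qt, Nat.Coprime q (qt.prod / q) := by decide +kernel
        exact h q hq
      · rw [Nat.mul_div_cancel' (List.dvd_prod hq)]
    obtain ⟨b, hb, hm⟩ := hprod
    rw [hm, Nat.cast_mul, map_mul, F2c.val_coprime P hb hlt, mul_one]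

theorem even1_q (h2 : TwoSplit L) (s : L)
    (hs : s ^ 2 = ((qt.prod : ℕ) : L)) (q : ℕ) (hq : q ∈ qt) : Even1 L (q : L) := by
  have hq0 : q ≠ 0 := by
    have h : ∀ q ∈ qt, q ≠ 0 := by decide
    exact h q hq
  refine ⟨by exact_mod_cast hq0, even_q s hs q hq, ?_, ?_⟩
  · intro P hP
    refine ⟨1, (q : L), by ring, one_ne_zero, Or.inr ?_⟩
    have h8 : ∃ c : ℕ, q = 1 + 2 ^ 3 * c := by
      have h : ∀ q ∈ qt, q % 8 = 1 := by decide
      have := h q hq
      exact ⟨q / 8, by omega⟩
    obtain ⟨c, hc⟩ := h8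
    have h1 : ((q : L) - 1) = 2 ^ 3 * (c : L) := by
      rw [hc]; push_cast; ring
    rw [h1, map_mul, map_pow, B7.val_two P h2 hP]
    calc _ ≤ WithZero.exp (-1 : ℤ) ^ 3 * 1 := by
          gcongr
          exact F2c.val_nat_le P c
      _ = WithZero.exp (-3 : ℤ) := by
          rw [mul_one, ← WithZero.exp_nsmul]
          norm_num
  · intro φ
    rw [map_natCast]
    exact_mod_cast Nat.pos_of_ne_zero hq0

theorem exists_L (k : Type) [Field k] [NumberField k]
    (hr : IsTotallyReal k) (h2 : TwoSplit k) (s : k) (hs : s ^ 2 = ((qt.prod : ℕ) : k))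
    (l : List ℕ) (hl : ∀ q ∈ l, q ∈ qt) :
    ∃ (L : Type) (_ : Field L) (_ : NumberField L) (_ : Algebra k L), Good k L ∧
      ∀ q ∈ l, ∃ z : L, z ^ 2 = (q : L) := by
  induction l with
  | nil => exact ⟨k, inferInstance, inferInstance, inferInstance, F2c.good_self k hr h2, by simp⟩
  | cons q l ih =>
    obtain ⟨L, i1, i2, i3, hgood, hroot⟩ := ih (fun q hq => hl q (List.mem_cons_of_mem _ hq))
    by_cases hsq : IsSquare (q : L)
    · refine ⟨L, i1, i2, i3, hgood, ?_⟩
      intro q' hq'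
      rcases List.mem_cons.mp hq' with rfl | h
      · obtain ⟨z, hz⟩ := hsq
        exact ⟨z, by rw [hz, sq]⟩
      · exact hroot q' h
    · have he : Even1 L (q : L) := even1_q hgood.split2 (algebraMap k L s)
        (by rw [← map_pow, hs, map_natCast]) q (hl q List.mem_cons_self)
      have hi : InvSq k (q : L) := fun σ => ⟨1, by rw [map_natCast]; ring⟩
      obtain ⟨L', j1, j2, j3, j4, hst, hgood', -, z, hz⟩ := kummer_step k L hgood (q : L) hsq he hi
      refine ⟨L', j1, j2, j3, hgood', ?_⟩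
      intro q' hq'
      rcases List.mem_cons.mp hq' with rfl | h
      · exact ⟨z, by rw [hz, map_natCast]⟩
      · obtain ⟨y, hy⟩ := hroot q' h
        exact ⟨algebraMap L L' y, by rw [← map_pow, hy, map_natCast]⟩


/-- (F2) -/
theorem exists_L0t (k : Type) [Field k] [NumberField k]
    (hr : IsTotallyReal k) (h2 : TwoSplit k) (s : k) (hs : s ^ 2 = ((qt.prod : ℕ) : k)) :
    ∃ (L : Type) (_ : Field L) (_ : NumberField L) (_ : Algebra k L), Good k L ∧
      ∀ q ∈ qt, ∃ z : L, z ^ 2 = (q : L) :=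
  exists_L k hr h2 s hs qt (fun _ h => h)

end Pool.Agent.H718R3.NT
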