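import Mathlib
import Pool.Agent.H718R3.Base2

/-! Independence of the ten primes.  Adapted by helper718 from `Pool/Agent/TeamU/F3b.lean`. -/

set_option autoImplicit false

open NumberField IsDedekindDomain Module

namespace Pool.Agent.H718R3.NT

open Pool.Agent.TeamU

/-- the primes as a function -/
def qf : Fin 10 → ℕ := ![17, 41, 73, 89, 97, 113, 137, 193, 233, 241]

theorem qf_mem (i : Fin 10) : qf i ∈ qt := by
  fin_cases i <;> simp [qf, qt]

theorem qf_prime (i : Fin 10) : (qf i).Prime := by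
  fin_cases i <;> simp [qf] <;> norm_num

theorem qf_inj : Function.Injective qf := by
  intro i j h
  revert i j
  decide

theorem prod_qf : ∏ i, qf i = qt.prod := by
  simp [Fin.prod_univ_succ, qf, qt]

/-- a nonempty product of distinct primes is not a rational square -/
theorem not_sq (T : Finset (Fin 10)) (hT : T.Nonempty) (r : ℚ) :
    r ^ 2 ≠ ((∏ i ∈ T, qf i : ℕ) : ℚ) := by
  intro h
  have h1 : IsSquare ((∏ i ∈ T, qf i : ℕ) : ℚ) := ⟨r, by rw [← h, sq]⟩
  rw [Rat.isSquare_natCast_iff] at h1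
  obtain ⟨n, hn⟩ := h1
  obtain ⟨i, hi⟩ := hT
  have hp := qf_prime i
  have h2 : qf i ∣ n := by
    have : qf i ∣ n * n := by
      rw [← hn]
      exact Finset.dvd_prod_of_mem qf hi
    exact (hp.dvd_mul.mp this).elim id id
  obtain ⟨c, rfl⟩ := h2
  rw [← Finset.mul_prod_erase T qf hi] at hn
  have h3 : ∏ j ∈ T.erase i, qf j = qf i * (c * c) := by
    apply Nat.eq_of_mul_eq_mul_left hp.pos
    rw [hn]; ring
  have h4 : qf i ∣ ∏ j ∈ T.erase i, qf j := ⟨_, h3⟩
  rw [Prime.dvd_finset_prod_iff hp.prime] at h4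
  obtain ⟨j, hj, hij⟩ := h4
  rw [Nat.prime_dvd_prime_iff_eq hp (qf_prime j)] at hij
  exact (Finset.mem_erase.mp hj).1 (qf_inj hij.symm)

theorem key (k : Type) [Field k] [NumberField k] (hk : finrank ℚ k = 2)
    (s : k) (hs : s ^ 2 = ((qt.prod : ℕ) : k)) (S : Finset (Fin 9)) (hS : S.Nonempty) (y : k) :
    y ^ 2 ≠ ((∏ i ∈ S, qf i.castSucc : ℕ) : k) := by
  classical
  intro hy
  let T : Finset (Fin 10) := S.map Fin.castSuccEmb
  have hT : T.Nonempty := by simpa [T] using hS
  have hTc : Tᶜ.Nonempty := by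
    refine ⟨Fin.last 9, ?_⟩
    rw [Finset.mem_compl, Finset.mem_map]
    rintro ⟨i, -, hi⟩
    exact (Fin.castSucc_lt_last i).ne hi
  have hprod : ∏ i ∈ S, qf i.castSucc = ∏ i ∈ T, qf i := by
    rw [Finset.prod_map]
    rfl
  have hm : qt.prod = (∏ i ∈ T, qf i) * ∏ i ∈ Tᶜ, qf i := by
    rw [Finset.prod_mul_prod_compl, prod_qf]
  set c := ∏ i ∈ T, qf i with hc
  set c' := ∏ i ∈ Tᶜ, qf i with hc'
  have hc0 : (c : ℚ) ≠ 0 := by
    intro h
    have : c = 0 := by exact_mod_cast h
    rw [hc, Finset.prod_eq_zero_iff] at this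
    obtain ⟨i, -, hi⟩ := this
    exact (qf_prime i).ne_zero hi
  have hsr : s ∉ (algebraMap ℚ k).range := by
    rintro ⟨r, rfl⟩
    apply not_sq Finset.univ Finset.univ_nonempty r
    rw [prod_qf]
    apply (algebraMap ℚ k).injective
    rw [map_pow, hs, map_natCast]
  obtain ⟨a, b, rfl⟩ := F3.exists_coord k hk s hsr y
  rw [hprod] at hy
  have hy' : algebraMap ℚ k (a ^ 2 + b ^ 2 * (qt.prod : ℕ) - c) +
      algebraMap ℚ k (2 * a * b) * s = 0 := by
    simp only [map_add, map_sub, map_mul, map_pow, map_natCast, map_ofNat]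
    linear_combination hy - algebraMap ℚ k b ^ 2 * hs
  have hab : 2 * a * b = 0 := by
    by_contra hne
    apply hsr
    refine ⟨-(a ^ 2 + b ^ 2 * (qt.prod : ℕ) - c) / (2 * a * b), ?_⟩
    have hne' : algebraMap ℚ k (2 * a * b) ≠ 0 := by simpa using hne
    rw [map_div₀, map_neg, div_eq_iff hne']
    linear_combination -hy'
  rw [hab, map_zero, zero_mul, add_zero, map_eq_zero] at hy'
  rcases mul_eq_zero.mp hab with h | h
  · have ha : a = 0 := by simpa using h
    rw [ha, hm] at hy'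
    push_cast at hy'
    have h1 : b ^ 2 * (c' : ℚ) = 1 := by
      apply mul_left_cancel₀ hc0
      linear_combination hy'
    have hb0 : b ≠ 0 := by rintro rfl; norm_num at h1
    apply not_sq Tᶜ hTc (1 / b)
    rw [← hc']
    field_simp
    linear_combination -h1
  · rw [h] at hy'
    apply not_sq T hT a
    rw [← hc]
    linear_combination hy'


end Pool.Agent.H718R3.NT
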