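import Mathlib

/-!
# Locally constant functions on a profinite group and the augmentation filtration

Written by helper718.  `LC G` is the space of functions `G → F_2` invariant under translation by
some open normal subgroup, `W n` the functions killed by all products of `n` differences.
-/

set_option autoImplicit false

namespace Pool.Agent.H718R3

variable {G : Type*} [Group G]

/-- invariance under right translation by `V` -/
def Inv (V : Subgroup G) (f : G → ZMod 2) : Prop := ∀ g, ∀ v ∈ V, f (g * v) = f g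

theorem Inv.mono {V V' : Subgroup G} {f : G → ZMod 2} (h : Inv V f) (hle : V' ≤ V) : Inv V' f :=
  fun g v hv => h g v (hle hv)

theorem Inv.left {V : Subgroup G} (hV : V.Normal) {f : G → ZMod 2} (h : Inv V f) (v : G)
    (hv : v ∈ V) (g : G) : f (v * g) = f g := by
  have h1 : v * g = g * (g⁻¹ * v * g) := by group
  rw [h1]
  apply h
  have := hV.conj_mem v hv g⁻¹
  simpa using this

/-- right translation -/
def R (g : G) : (G → ZMod 2) →ₗ[ZMod 2] (G → ZMod 2) where
  toFun f := fun y => f (y * g)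
  map_add' _ _ := rfl
  map_smul' _ _ := rfl

/-- left translation (a right action) -/
def Lt (h : G) : (G → ZMod 2) →ₗ[ZMod 2] (G → ZMod 2) where
  toFun f := fun y => f (h * y)
  map_add' _ _ := rfl
  map_smul' _ _ := rfl

@[simp] theorem R_apply (g : G) (f : G → ZMod 2) (y : G) : R g f y = f (y * g) := rfl
@[simp] theorem Lt_apply (h : G) (f : G → ZMod 2) (y : G) : Lt h f y = f (h * y) := rfl

theorem R_mul (g h : G) (f : G → ZMod 2) : R (g * h) f = R g (R h f) := by
  ext y; simp [mul_assoc]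

theorem Lt_mul (g h : G) (f : G → ZMod 2) : Lt (g * h) f = Lt h (Lt g f) := by
  ext y; simp [mul_assoc]

theorem R_Lt (g h : G) (f : G → ZMod 2) : R g (Lt h f) = Lt h (R g f) := by
  ext y; simp [mul_assoc]

theorem R_one (f : G → ZMod 2) : R (1 : G) f = f := by ext y; simp
theorem Lt_one (f : G → ZMod 2) : Lt (1 : G) f = f := by ext y; simp

theorem Inv.R {V : Subgroup G} (hV : V.Normal) {f : G → ZMod 2} (h : Inv V f) (g : G) :
    Inv V (R g f) := by
  intro y v hv
  rw [R_apply, R_apply]
  have h1 : y * v * g = y * g * (g⁻¹ * v * g) := by group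
  rw [h1]
  apply h
  have := hV.conj_mem v hv g⁻¹
  simpa using this

theorem Inv.Lt {V : Subgroup G} {f : G → ZMod 2} (h : Inv V f) (g : G) :
    Inv V (Lt g f) := by
  intro y v hv
  rw [Lt_apply, Lt_apply, ← mul_assoc]
  exact h _ v hv

theorem Inv.sub {V : Subgroup G} {f f' : G → ZMod 2} (h : Inv V f) (h' : Inv V f') :
    Inv V (f - f') := by
  intro y v hv
  rw [Pi.sub_apply, Pi.sub_apply, h y v hv, h' y v hv]

variable [TopologicalSpace G]

/-- `V` is an open normal subgroup. -/
def ON (V : Subgroup G) : Prop := V.Normal ∧ IsOpen (V : Set G)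

theorem ON.inf {V V' : Subgroup G} (h : ON V) (h' : ON V') : ON (V ⊓ V') := by
  obtain ⟨h1, h2⟩ := h
  obtain ⟨h3, h4⟩ := h'
  exact ⟨inferInstance, by rw [Subgroup.coe_inf]; exact h2.inter h4⟩

theorem ON.top : ON (⊤ : Subgroup G) := ⟨inferInstance, by simp⟩

variable (G) in
/-- Locally constant functions. -/
def LC : Submodule (ZMod 2) (G → ZMod 2) where
  carrier := {f | ∃ V : Subgroup G, ON V ∧ Inv V f}
  add_mem' := by
    rintro a b ⟨V, hV, ha⟩ ⟨V', hV', hb⟩
    refine ⟨V ⊓ V', hV.inf hV', fun g v hv => ?_⟩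
    rw [Pi.add_apply, Pi.add_apply, ha g v hv.1, hb g v hv.2]
  zero_mem' := ⟨⊤, ON.top, fun _ _ _ => rfl⟩
  smul_mem' := by
    rintro c f ⟨V, hV, hf⟩
    exact ⟨V, hV, fun g v hv => by rw [Pi.smul_apply, Pi.smul_apply, hf g v hv]⟩

theorem mem_LC {f : G → ZMod 2} : f ∈ LC G ↔ ∃ V : Subgroup G, ON V ∧ Inv V f := Iff.rfl

theorem R_LC {f : G → ZMod 2} (h : f ∈ LC G) (g : G) : R g f ∈ LC G := by
  obtain ⟨V, hV, hf⟩ := h
  exact ⟨V, hV, hf.R hV.1 g⟩

theorem Lt_LC {f : G → ZMod 2} (h : f ∈ LC G) (g : G) : Lt g f ∈ LC G := by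
  obtain ⟨V, hV, hf⟩ := h
  exact ⟨V, hV, hf.Lt g⟩

variable (G) in
/-- The augmentation filtration. -/
def W : ℕ → Submodule (ZMod 2) (G → ZMod 2)
  | 0 => ⊥
  | n + 1 => LC G ⊓ ⨅ g : G, (W n).comap (R g - LinearMap.id)

theorem mem_W_succ {n : ℕ} {f : G → ZMod 2} :
    f ∈ W G (n + 1) ↔ f ∈ LC G ∧ ∀ g, R g f - f ∈ W G n := by
  simp only [W, Submodule.mem_inf, Submodule.mem_iInf, Submodule.mem_comap, LinearMap.sub_apply,
    LinearMap.id_apply]

theorem mem_W_zero {f : G → ZMod 2} : f ∈ W G 0 ↔ f = 0 := by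
  simp [W]

theorem W_le_succ (n : ℕ) : W G n ≤ W G (n + 1) := by
  induction n with
  | zero => intro f hf; rw [mem_W_zero] at hf; subst hf; exact zero_mem _
  | succ n ih =>
    intro f hf
    rw [mem_W_succ] at hf ⊢
    exact ⟨hf.1, fun g => ih (hf.2 g)⟩

theorem W_mono : Monotone (W G) := monotone_nat_of_le_succ W_le_succ

theorem W_le_LC (n : ℕ) : W G n ≤ LC G := by
  cases n with
  | zero => intro f hf; rw [mem_W_zero] at hf; subst hf; exact zero_mem _
  | succ n => intro f hf; exact (mem_W_succ.mp hf).1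

theorem const_mem_LC (c : ZMod 2) : (fun _ => c : G → ZMod 2) ∈ LC G :=
  ⟨⊤, ON.top, fun _ _ _ => rfl⟩

theorem mem_W_one {f : G → ZMod 2} : f ∈ W G 1 ↔ ∃ c : ZMod 2, f = fun _ => c := by
  rw [mem_W_succ]
  constructor
  · rintro ⟨-, h⟩
    refine ⟨f 1, ?_⟩
    funext y
    have := h y
    rw [mem_W_zero] at this
    have h2 := congrFun this 1
    simp only [Pi.sub_apply, R_apply, one_mul, Pi.zero_apply] at h2
    exact sub_eq_zero.mp h2
  · rintro ⟨c, rfl⟩
    refine ⟨const_mem_LC c, fun g => ?_⟩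
    rw [mem_W_zero]
    ext y
    simp

theorem R_mem_W {n : ℕ} {f : G → ZMod 2} (h : f ∈ W G n) (g : G) : R g f ∈ W G n := by
  cases n with
  | zero => rw [mem_W_zero] at h ⊢; rw [h, map_zero]
  | succ n =>
    have h1 := (mem_W_succ.mp h).2 g
    have h2 : R g f = f + (R g f - f) := by abel
    rw [h2]
    exact add_mem h (W_le_succ n h1)

/-- left differences lower the filtration -/
theorem left_diff {n : ℕ} {f : G → ZMod 2} (h : f ∈ W G (n + 1)) (z : G) :
    Lt z f - f ∈ W G n := by
  induction n generalizing f with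
  | zero =>
    obtain ⟨c, rfl⟩ := mem_W_one.mp h
    rw [mem_W_zero]
    ext y
    simp
  | succ n ih =>
    rw [mem_W_succ] at h ⊢
    refine ⟨sub_mem (Lt_LC h.1 z) h.1, fun g => ?_⟩
    have h1 := ih (h.2 g)
    have h2 : R g (Lt z f - f) - (Lt z f - f) = Lt z (R g f - f) - (R g f - f) := by
      rw [map_sub, map_sub, R_Lt]; abel
    rw [h2]
    exact h1

/-- left characterisation of the filtration -/
theorem mem_W_of_left {n : ℕ} {f : G → ZMod 2} (h : f ∈ LC G) (hz : ∀ z, Lt z f - f ∈ W G n) :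
    f ∈ W G (n + 1) := by
  induction n generalizing f with
  | zero =>
    rw [mem_W_one]
    refine ⟨f 1, ?_⟩
    funext y
    have := hz y
    rw [mem_W_zero] at this
    have h2 := congrFun this 1
    simp only [Pi.sub_apply, Lt_apply, mul_one, Pi.zero_apply] at h2
    exact sub_eq_zero.mp h2
  | succ n ih =>
    rw [mem_W_succ]
    refine ⟨h, fun g => ?_⟩
    apply ih (sub_mem (R_LC h g) h)
    intro z
    have h2 : Lt z (R g f - f) - (R g f - f) = R g (Lt z f - f) - (Lt z f - f) := by
      rw [map_sub, map_sub, R_Lt]; abel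
    rw [h2]
    exact (mem_W_succ.mp (hz z)).2 g

theorem Lt_mem_W {n : ℕ} {f : G → ZMod 2} (h : f ∈ W G n) (g : G) : Lt g f ∈ W G n := by
  cases n with
  | zero => rw [mem_W_zero] at h ⊢; rw [h, map_zero]
  | succ n =>
    have h1 := left_diff h g
    have h2 : Lt g f = f + (Lt g f - f) := by abel
    rw [h2]
    exact add_mem h (W_le_succ n h1)

/-- an element acting trivially on `W e` lowers the filtration by `e` -/
theorem depth {e : ℕ} {x : G} (hx : ∀ f ∈ W G e, R x f = f) {n : ℕ} {f : G → ZMod 2}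
    (h : f ∈ W G n) : R x f - f ∈ W G (n - e) := by
  induction n generalizing f with
  | zero =>
    rw [mem_W_zero] at h
    subst h
    simp
  | succ n ih =>
    rcases Nat.lt_or_ge n e with hne | hne
    · have : R x f = f := hx f (W_mono (by omega) h)
      rw [this, sub_self]
      exact zero_mem _
    · have h3 : n + 1 - e = (n - e) + 1 := by omega
      rw [h3]
      have hf := W_le_LC _ h
      apply mem_W_of_left (sub_mem (R_LC hf x) hf)
      intro z
      have h2 : Lt z (R x f - f) - (R x f - f) = R x (Lt z f - f) - (Lt z f - f) := by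
        rw [map_sub, map_sub, R_Lt]; abel
      rw [h2]
      exact ih (left_diff h z)

end Pool.Agent.H718R3
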