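import Mathlib

/-! Homomorphisms to `ℚ` on normal subgroups of finite index.

Written by helper718. -/

set_option autoImplicit false

open Subgroup MonoidHom commutatorElement

namespace Pool.Agent.H718R3.CZ

section transfer

variable {F : Type*} [Group F] (N : Subgroup F) [hN : N.Normal] [hf : N.FiniteIndex]
  {A : Type*} [CommGroup A] (φ : N →* A)

theorem conj_mem' (g : F) (x : N) : g⁻¹ * (x : F) * g ∈ N := by
  have := hN.conj_mem x x.2 g⁻¹
  simpa using this

theorem transfer_inv (hinv : ∀ (g : F) (x : N), φ ⟨g⁻¹ * x * g, conj_mem' N g x⟩ = φ x) (n : N) :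
    transfer φ (n : F) = φ n ^ N.index := by
  rw [transfer_def φ (default : N.LeftTransversal)]
  unfold Subgroup.leftTransversals.diff
  simp only [smul_apply_eq_smul_apply_inv_smul]
  let _ := N.fintypeQuotientOfFiniteIndex
  have hq : ∀ q : F ⧸ N, (n : F)⁻¹ • q = q := by
    intro q
    induction q using QuotientGroup.induction_on with | H g => ?_
    change (((n : F)⁻¹ * g : F) : F ⧸ N) = (g : F ⧸ N)
    rw [QuotientGroup.eq]
    have h1 : ((n : F)⁻¹ * g)⁻¹ * g = g⁻¹ * n * g := by group
    rw [h1]
    exact conj_mem' N g n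
  trans ∏ q : F ⧸ N, φ n
  · apply Fintype.prod_congr
    intro q
    rw [← hinv ((default : N.LeftTransversal).2.leftQuotientEquiv q) n]
    congr 1
    apply Subtype.ext
    change _ * ((n : F) * _) = _
    rw [hq q]
    group
  · rw [Finset.prod_const, Finset.card_univ, Subgroup.index_eq_card, Nat.card_eq_fintype_card]

end transfer

section unip

variable {F : Type*} [Group F] (N : Subgroup F) [hN : N.Normal] [hf : N.FiniteIndex]

/-- homomorphisms to `ℚ`, as functions -/
def HQ (H : Type*) [Group H] : Submodule ℚ (H → ℚ) where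
  carrier := {f | ∀ a b, f (a * b) = f a + f b}
  add_mem' := by
    intro f f' h h' a b
    simp only [Pi.add_apply, h a b, h' a b]
    ring
  zero_mem' := by intro a b; simp
  smul_mem' := by
    intro c f h a b
    simp only [Pi.smul_apply, h a b, smul_eq_mul]
    ring

theorem HQ.one {H : Type*} [Group H] {f : H → ℚ} (h : f ∈ HQ H) : f 1 = 0 := by
  have := h 1 1
  rw [mul_one] at this
  linarith

theorem HQ.inv {H : Type*} [Group H] {f : H → ℚ} (h : f ∈ HQ H) (a : H) : f a⁻¹ = - f a := by
  have := h a a⁻¹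
  rw [mul_inv_cancel, HQ.one h] at this
  linarith

theorem HQ.pow {H : Type*} [Group H] {f : H → ℚ} (h : f ∈ HQ H) (a : H) (n : ℕ) :
    f (a ^ n) = n * f a := by
  induction n with
  | zero => simp [HQ.one h]
  | succ n ih => rw [pow_succ, h, ih]; push_cast; ring

/-- conjugate of a homomorphism -/
def cj (g : F) (f : N → ℚ) : N → ℚ := fun x => f ⟨g⁻¹ * x * g, conj_mem' N g x⟩

theorem cj_mem (g : F) {f : N → ℚ} (h : f ∈ HQ N) : cj N g f ∈ HQ N := by
  intro a b
  unfold cj
  rw [← h]
  congr 1
  apply Subtype.ext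
  change g⁻¹ * (a * b) * g = (g⁻¹ * a * g) * (g⁻¹ * b * g)
  group

/-- a homomorphism vanishing on a term of the lower central series is invariant -/
theorem inv_of_vanish (n : ℕ) : ∀ f : N → ℚ, f ∈ HQ N →
    (∀ x : N, (x : F) ∈ (⊤ : Subgroup F).lowerCentralSeries n → f x = 0) →
    ∀ g, cj N g f = f := by
  induction n with
  | zero =>
    intro f hf hv g
    funext x
    rw [hv x (by simp)]
    exact hv _ (by simp)
  | succ n ih =>
    intro f hf hv g
    have h1 : ∀ g : F, cj N g f - f ∈ HQ N := fun g => sub_mem (cj_mem N g hf) hf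
    have h2 : ∀ (g : F) (x : N), (x : F) ∈ (⊤ : Subgroup F).lowerCentralSeries n →
        (cj N g f - f) x = 0 := by
      intro g x hx
      have h3 : (x : F)⁻¹ * (g⁻¹ * x * g) ∈ (⊤ : Subgroup F).lowerCentralSeries (n + 1) := by
        rw [Subgroup.lowerCentralSeries_succ]
        have h4 : (x : F)⁻¹ * (g⁻¹ * x * g) = ⁅(x : F)⁻¹, g⁻¹⁆ := by
          rw [commutatorElement_def]; group
        rw [h4]
        exact Subgroup.commutator_mem_commutator (inv_mem hx) (Subgroup.mem_top _)
      have h5 := hv (x⁻¹ * ⟨g⁻¹ * x * g, conj_mem' N g x⟩) h3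
      rw [hf, HQ.inv hf] at h5
      rw [Pi.sub_apply]
      change f ⟨g⁻¹ * x * g, conj_mem' N g x⟩ - f x = 0
      linarith
    have h3 : ∀ g h : F, cj N h (cj N g f - f) = cj N g f - f := fun g h =>
      ih _ (h1 g) (h2 g) h
    -- arithmetic progression
    have hcj : ∀ (a b : F) (x : N), cj N a (cj N b f) x = cj N (a * b) f x := by
      intro a b x
      change f ⟨b⁻¹ * (a⁻¹ * x * a) * b, _⟩ = f ⟨(a * b)⁻¹ * x * (a * b), _⟩
      congr 1
      apply Subtype.ext
      change b⁻¹ * (a⁻¹ * x * a) * b = (a * b)⁻¹ * x * (a * b)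
      group
    funext x
    have h4 : ∀ k : ℕ, cj N (g ^ k) f x = f x + k * (cj N g f - f) x := by
      intro k
      induction k with
      | zero =>
        simp only [pow_zero, Nat.cast_zero, zero_mul, add_zero]
        change f ⟨1⁻¹ * x * 1, _⟩ = f x
        congr 1
        apply Subtype.ext
        simp
      | succ k ihk =>
        have h5 := congrFun (h3 g (g ^ k)) x
        change cj N (g ^ k) (cj N g f) x - cj N (g ^ k) f x = (cj N g f - f) x at h5
        rw [hcj, ← pow_succ] at h5
        push_cast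
        linarith
    have h5 : g ^ N.index ∈ N := N.pow_index_mem g
    have h6 : cj N (g ^ N.index) f x = f x := by
      change f ⟨(g ^ N.index)⁻¹ * x * g ^ N.index, _⟩ = f x
      have h7 : (⟨(g ^ N.index)⁻¹ * x * g ^ N.index, conj_mem' N _ x⟩ : N) =
          (⟨g ^ N.index, h5⟩ : N)⁻¹ * x * ⟨g ^ N.index, h5⟩ := rfl
      rw [h7, hf, hf, HQ.inv hf]
      ring
    have h7 := h4 N.index
    rw [h6] at h7
    have h8 : (N.index : ℚ) ≠ 0 := by
      exact_mod_cast Subgroup.FiniteIndex.index_ne_zero (H := N)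
    have h9 : (cj N g f - f) x = 0 := by
      have : (N.index : ℚ) * (cj N g f - f) x = 0 := by linarith
      exact (mul_eq_zero.mp this).resolve_left h8
    rw [Pi.sub_apply] at h9
    linarith

end unip

end Pool.Agent.H718R3.CZ
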