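import Mathlib
import Pool.Agent.H718R3.CZ1

/-! Choosing few relators deep in the lower central series.

Written by helper718. -/

set_option autoImplicit false

open Subgroup MonoidHom Module

namespace Pool.Agent.H718R3.CZ

/-- homomorphisms on a finitely generated group -/
theorem HQ.finite {H : Type*} [Group H] [hH : Group.FG H] : Module.Finite ℚ (HQ H) := by
  obtain ⟨T, hT⟩ := hH.out
  let Φ : HQ H →ₗ[ℚ] (T → ℚ) :=
    { toFun := fun f t => f.1 t
      map_add' := fun _ _ => rfl
      map_smul' := fun _ _ => rfl }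
  apply Module.Finite.of_injective Φ
  intro f f' hff
  apply Subtype.ext
  funext x
  have hx : x ∈ Subgroup.closure (T : Set H) := by rw [hT]; trivial
  induction hx using Subgroup.closure_induction with
  | mem y hy => exact congrFun hff ⟨y, hy⟩
  | one => rw [HQ.one f.2, HQ.one f'.2]
  | mul a b _ _ ha hb => rw [f.2, f'.2, ha, hb]
  | inv a _ ha => rw [HQ.inv f.2, HQ.inv f'.2, ha]

theorem exists_finset {H : Type*} [Group H] [Group.FG H] (A : Set H) :
    ∃ S : Finset H, (S : Set H) ⊆ A ∧ S.card ≤ finrank ℚ (HQ H) ∧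
      ∀ f ∈ HQ H, (∀ x ∈ S, f x = 0) → ∀ x ∈ A, f x = 0 := by
  classical
  have hfin : Module.Finite ℚ (HQ H) := HQ.finite
  let ev : H → Module.Dual ℚ (HQ H) := fun x =>
    { toFun := fun f => f.1 x
      map_add' := fun _ _ => rfl
      map_smul' := fun _ _ => rfl }
  obtain ⟨b, hb1, hb2, hb3⟩ := exists_linearIndependent ℚ (ev '' A)
  have hbf : b.Finite := hb3.setFinite
  have : Fintype b := hbf.fintype
  have hcard : Fintype.card b ≤ finrank ℚ (HQ H) := by
    have h1 := hb3.fintype_card_le_finrank
    rwa [Subspace.dual_finrank_eq] at h1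
  choose g hg using fun y : b => hb1 y.2
  refine ⟨Finset.univ.image g, ?_, ?_, ?_⟩
  · intro x hx
    simp only [Finset.coe_image, Finset.coe_univ, Set.image_univ, Set.mem_range] at hx
    obtain ⟨y, rfl⟩ := hx
    exact (hg y).1
  · exact Finset.card_image_le.trans hcard
  · intro f hf hS x hx
    have h1 : ev x ∈ Submodule.span ℚ b := by
      rw [hb2]
      exact Submodule.subset_span ⟨x, hx, rfl⟩
    have h2 : ∀ y ∈ Submodule.span ℚ b, y ⟨f, hf⟩ = 0 := by
      intro y hy
      induction hy using Submodule.span_induction with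
      | mem y hy =>
        have h3 : ev (g ⟨y, hy⟩) = y := (hg ⟨y, hy⟩).2
        have h4 := hS (g ⟨y, hy⟩) (by simp)
        change y ⟨f, hf⟩ = 0
        rw [← h3]
        exact h4
      | zero => rfl
      | add a c _ _ ha hc => rw [LinearMap.add_apply, ha, hc, add_zero]
      | smul r a _ ha => rw [LinearMap.smul_apply, ha, smul_zero]
    exact h2 _ h1

end Pool.Agent.H718R3.CZ
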