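import Mathlib
import Pool.Agent.H718R3.CZ2

/-! The relators and the finite index subgroups.

Written by helper718. -/

set_option autoImplicit false

open Subgroup MonoidHom Module

namespace Pool.Agent.H718R3.CZ

/-- an invariant homomorphism vanishing on the powers of the generators vanishes -/
theorem eq_zero_of_inv {X : Type*} (N : Subgroup (FreeGroup X)) [N.Normal] [N.FiniteIndex]
    (f : N → ℚ) (hf : f ∈ HQ N) (hinv : ∀ g, cj N g f = f)
    (h0 : ∀ x : X, f ⟨FreeGroup.of x ^ N.index, N.pow_index_mem _⟩ = 0) : f = 0 := by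
  let φ : N →* Multiplicative ℚ :=
    { toFun := fun n => Multiplicative.ofAdd (f n)
      map_one' := by rw [HQ.one hf]; rfl
      map_mul' := fun a b => by rw [hf]; rfl }
  have hφ : ∀ (g : FreeGroup X) (x : N), φ ⟨g⁻¹ * x * g, conj_mem' N g x⟩ = φ x := fun g x =>
    congrArg Multiplicative.ofAdd (congrFun (hinv g) x)
  have htr := transfer_inv N φ hφ
  have hne : (N.index : ℚ) ≠ 0 := by
    exact_mod_cast Subgroup.FiniteIndex.index_ne_zero (H := N)
  have hpow : ∀ z : Multiplicative ℚ, z ^ N.index = 1 → z = 1 := by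
    intro z hz
    have h1 : (N.index : ℚ) * Multiplicative.toAdd z = 0 := by
      have h2 := congrArg Multiplicative.toAdd hz
      rw [toAdd_pow, toAdd_one, nsmul_eq_mul] at h2
      exact h2
    have h3 := (mul_eq_zero.mp h1).resolve_left hne
    exact h3
  have hψ : transfer φ = 1 := by
    apply FreeGroup.ext_hom
    intro x
    apply hpow
    rw [← map_pow, htr ⟨_, N.pow_index_mem _⟩]
    have : φ ⟨FreeGroup.of x ^ N.index, N.pow_index_mem _⟩ = 1 := by
      change Multiplicative.ofAdd (f _) = 1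
      rw [h0]
      rfl
    rw [this, one_pow]
  funext n
  have h1 : φ n = 1 := by
    apply hpow
    rw [← htr n, hψ]
    rfl
  exact h1

/-- data attached to a finite set -/
theorem exists_data {F : Type*} [Group F] [Group.FG F] (τ : ℝ) (h0 : 0 < τ) (h1 : τ < 1) (ε : ℝ)
    (hε : 0 < ε) (N : Subgroup F) :
    ∃ (n : ℕ) (S : Finset N), (∀ x ∈ S, (x : F) ∈ (⊤ : Subgroup F).lowerCentralSeries n) ∧
      (S.card : ℝ) * τ ^ (n + 1) ≤ ε ∧ (N.FiniteIndex → ∀ f ∈ HQ N, (∀ x ∈ S, f x = 0) →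
        ∀ x : N, (x : F) ∈ (⊤ : Subgroup F).lowerCentralSeries n → f x = 0) := by
  by_cases hN : N.FiniteIndex
  · have hw : 0 < (finrank ℚ (HQ N) : ℝ) + 1 := by positivity
    obtain ⟨n, hn⟩ := exists_pow_lt_of_lt_one (div_pos hε hw) h1
    obtain ⟨S, hS1, hS2, hS3⟩ := exists_finset
      {x : N | (x : F) ∈ (⊤ : Subgroup F).lowerCentralSeries n}
    refine ⟨n, S, fun x hx => hS1 hx, ?_, fun _ f hf hfS x hx => hS3 f hf hfS x hx⟩
    have h2 : (S.card : ℝ) ≤ finrank ℚ (HQ N) := by exact_mod_cast hS2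
    have h3 : τ ^ (n + 1) ≤ τ ^ n := pow_le_pow_of_le_one h0.le h1.le (Nat.le_succ n)
    have h4 : 0 ≤ τ ^ (n + 1) := by positivity
    calc (S.card : ℝ) * τ ^ (n + 1) ≤ (finrank ℚ (HQ N) + 1) * τ ^ n := by
          apply mul_le_mul (by linarith) h3 h4 hw.le
      _ ≤ (finrank ℚ (HQ N) + 1) * (ε / (finrank ℚ (HQ N) + 1)) := by
          apply mul_le_mul_of_nonneg_left hn.le hw.le
      _ = ε := by field_simp
  · exact ⟨0, ∅, by simp, by simp [hε.le], fun h => absurd h hN⟩

theorem countable_free (X : Type) [Countable X] : Countable (FreeGroup X) := by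
  classical
  exact FreeGroup.toWord_injective.countable

/-- The relators. -/
theorem exists_relators {X : Type} [Finite X] (τ : ℝ) (h0 : 0 < τ) (h1 : τ < 1) (δ : ℝ)
    (hδ : 0 < δ) (wt : FreeGroup X → ℝ) (hwt0 : ∀ x, 0 ≤ wt x)
    (hwt : ∀ n, ∀ x ∈ (⊤ : Subgroup (FreeGroup X)).lowerCentralSeries n, wt x ≤ τ ^ (n + 1)) :
    ∃ R : Set (FreeGroup X), (∀ u : Finset R, ∑ r ∈ u, wt r ≤ δ) ∧
      ∀ (N : Subgroup (FreeGroup X)) (_ : N.Normal) (_ : N.FiniteIndex), R ⊆ N → ∀ f ∈ HQ N,
        (∀ x : N, (x : FreeGroup X) ∈ R → f x = 0) →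
        (∀ x : X, f ⟨FreeGroup.of x ^ N.index, N.pow_index_mem _⟩ = 0) → f = 0 := by
  classical
  have hc : Countable (FreeGroup X) := countable_free X
  have henc : Encodable (Finset (FreeGroup X)) := Encodable.ofCountable _
  obtain ⟨ε, hε, c, hεc, hcδ⟩ := posSumOfEncodable hδ (Finset (FreeGroup X))
  choose n S hS1 hS2 hS3 using fun T : Finset (FreeGroup X) =>
    exists_data τ h0 h1 (ε T) (hε T) (Subgroup.closure (T : Set (FreeGroup X)))
  let R : Set (FreeGroup X) := ⋃ T, {x | ∃ y ∈ S T, (y : FreeGroup X) = x}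
  refine ⟨R, ?_, ?_⟩
  · intro u
    have hR : ∀ r : R, ∃ T, ∃ y ∈ S T, (y : FreeGroup X) = r := fun r => Set.mem_iUnion.mp r.2
    choose t y hy hyr using hR
    have h2 : ∑ r ∈ u, wt r = ∑ T ∈ u.image t, ∑ r ∈ u with t r = T, wt r :=
      (Finset.sum_fiberwise_of_maps_to (fun r hr => Finset.mem_image_of_mem t hr) _).symm
    have h3 : ∀ T, ∑ r ∈ u with t r = T, wt r ≤ ε T := by
      intro T
      refine le_trans ?_ (hS2 T)
      have h4 : ∀ r ∈ u.filter (fun r => t r = T), wt r ≤ τ ^ (n T + 1) := by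
        intro r hr
        obtain ⟨-, hr⟩ := Finset.mem_filter.mp hr
        apply hwt
        rw [← hyr r, ← hr]
        exact hS1 (t r) _ (hy r)
      refine (Finset.sum_le_card_nsmul _ _ _ h4).trans ?_
      rw [nsmul_eq_mul]
      apply mul_le_mul_of_nonneg_right _ (by positivity)
      norm_cast
      have h5 : (u.filter (fun r => t r = T)).image (fun r : R => (r : FreeGroup X)) ⊆
          (S T).image (fun z : Subgroup.closure (T : Set (FreeGroup X)) => (z : FreeGroup X)) := by
        intro z hz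
        rw [Finset.mem_image] at hz ⊢
        obtain ⟨r, hr, rfl⟩ := hz
        obtain ⟨-, hr⟩ := Finset.mem_filter.mp hr
        subst hr
        exact ⟨y r, hy r, hyr r⟩
      have h6 := Finset.card_le_card h5
      rw [Finset.card_image_of_injective _ Subtype.val_injective] at h6
      exact h6.trans Finset.card_image_le
    rw [h2]
    calc _ ≤ ∑ T ∈ u.image t, ε T := Finset.sum_le_sum fun T _ => h3 T
      _ ≤ c := sum_le_hasSum _ (fun T _ => (hε T).le) hεc
      _ ≤ δ := hcδ
  · intro N hN hNf hRN f hf hfR hfx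
    have hfg : Group.FG N := inferInstance
    obtain ⟨T, hT⟩ := (Group.fg_iff_subgroup_fg N).mp hfg
    subst hT
    apply eq_zero_of_inv _ f hf _ hfx
    apply inv_of_vanish _ (n T) f hf
    apply hS3 T hNf f hf
    intro x hx
    apply hfR
    exact Set.mem_iUnion.mpr ⟨T, x, hx, rfl⟩

end Pool.Agent.H718R3.CZ
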