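import Mathlib
import Pool.Agent.H718R3.Basic

/-!
# Pro-2 groups: the filtration is exhaustive

Written by helper718.
-/

set_option autoImplicit false

namespace Pool.Agent.H718R3

/-- every open normal subgroup has index a power of two (and finite index) -/
def Pro2 (G : Type*) [Group G] [TopologicalSpace G] : Prop :=
  ∀ V : Subgroup G, ON V → ∃ k : ℕ, Nat.card (G ⧸ V) = 2 ^ k

/-- a proper translation invariant space of functions on a finite 2-group has an element outside
it all of whose differences lie in it -/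
theorem exists_fixed {Q : Type*} [Group Q] [Finite Q] (hQ : ∃ k, Nat.card Q = 2 ^ k)
    (A : Submodule (ZMod 2) (Q → ZMod 2)) (hA : A ≠ ⊤) (hst : ∀ q, ∀ f ∈ A, R q f ∈ A) :
    ∃ f, f ∉ A ∧ ∀ q, R q f - f ∈ A := by
  classical
  have : Fintype Q := Fintype.ofFinite Q
  let S := (Q → ZMod 2) ⧸ A
  have hfin : Finite S := Quotient.finite _
  have hP : IsPGroup 2 Q := by
    obtain ⟨k, hk⟩ := hQ
    exact IsPGroup.of_card hk
  let act : Q →* Function.End S :=
    { toFun := fun q => (A.mapQ A (R q) (fun f hf => hst q f hf) : S → S)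
      map_one' := by
        funext x
        induction x using Submodule.Quotient.induction_on with
        | H f =>
          change Submodule.Quotient.mk (R (1 : Q) f) = Submodule.Quotient.mk f
          rw [R_one]
      map_mul' := by
        intro a b
        funext x
        induction x using Submodule.Quotient.induction_on with
        | H f =>
          change Submodule.Quotient.mk (R (a * b) f) = Submodule.Quotient.mk (R a (R b f))
          rw [R_mul] }
  let _ : MulAction Q S := MulAction.compHom S act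
  have hsmul : ∀ (q : Q) (f : Q → ZMod 2), q • (Submodule.Quotient.mk f : S) =
      Submodule.Quotient.mk (R q f) := fun _ _ => rfl
  have hne : Nontrivial S := Submodule.Quotient.nontrivial_iff.mpr hA
  have hcard : 2 ∣ Nat.card S := by
    have h1 := Module.natCard_eq_pow_finrank (K := ZMod 2) (V := S)
    rw [h1]
    have h2 : 0 < Module.finrank (ZMod 2) S := Module.finrank_pos
    simp only [Nat.card_zmod]
    exact dvd_pow_self 2 h2.ne'
  have h0 : (0 : S) ∈ MulAction.fixedPoints Q S := by
    intro q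
    have : (0 : S) = Submodule.Quotient.mk (0 : Q → ZMod 2) := rfl
    rw [this, hsmul, map_zero]
  obtain ⟨b, hb, hb0⟩ := hP.exists_fixed_point_of_prime_dvd_card_of_fixed_point S hcard h0
  obtain ⟨f, rfl⟩ := Submodule.Quotient.mk_surjective A b
  refine ⟨f, ?_, ?_⟩
  · intro hf
    apply hb0
    exact ((Submodule.Quotient.mk_eq_zero A).mpr hf).symm
  · intro q
    have h1 := hb q
    rw [hsmul] at h1
    exact (Submodule.Quotient.eq A).mp h1

variable {G : Type*} [Group G] [TopologicalSpace G]

theorem exists_W (hG : Pro2 G) {f : G → ZMod 2} (hf : f ∈ LC G) : ∃ n, f ∈ W G n := by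
  classical
  obtain ⟨V, hV, hfV⟩ := hf
  have hVn : V.Normal := hV.1
  obtain ⟨k, hk⟩ := hG V hV
  have hfin : Finite (G ⧸ V) := Nat.finite_of_card_ne_zero (by rw [hk]; positivity)
  let pb : ((G ⧸ V) → ZMod 2) →ₗ[ZMod 2] (G → ZMod 2) :=
    { toFun := fun φ g => φ (QuotientGroup.mk g)
      map_add' := fun _ _ => rfl
      map_smul' := fun _ _ => rfl }
  have hpbLC : ∀ φ, pb φ ∈ LC G := by
    intro φ
    refine ⟨V, hV, fun g v hv => ?_⟩
    change φ (QuotientGroup.mk (g * v)) = φ (QuotientGroup.mk g)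
    congr 1
    rw [QuotientGroup.eq]
    have : (g * v)⁻¹ * g = v⁻¹ := by group
    rw [this]
    exact V.inv_mem hv
  have hpbR : ∀ (g : G) φ, R g (pb φ) = pb (R (QuotientGroup.mk g : G ⧸ V) φ) := by
    intro g φ
    rfl
  let A : Submodule (ZMod 2) ((G ⧸ V) → ZMod 2) :=
    { carrier := {φ | ∃ n, pb φ ∈ W G n}
      add_mem' := by
        rintro a b ⟨n, hn⟩ ⟨m, hm⟩
        refine ⟨max n m, ?_⟩
        rw [map_add]
        exact add_mem (W_mono (le_max_left _ _) hn) (W_mono (le_max_right _ _) hm)
      zero_mem' := ⟨0, by rw [map_zero]; exact zero_mem _⟩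
      smul_mem' := by
        rintro c a ⟨n, hn⟩
        exact ⟨n, by rw [map_smul]; exact Submodule.smul_mem _ _ hn⟩ }
  have hAtop : A = ⊤ := by
    by_contra hA
    obtain ⟨φ, hφ, hφ2⟩ := exists_fixed (Q := G ⧸ V) ⟨k, hk⟩ A hA (by
      rintro q φ ⟨n, hn⟩
      obtain ⟨g, rfl⟩ := QuotientGroup.mk_surjective q
      exact ⟨n, by rw [← hpbR]; exact R_mem_W hn g⟩)
    apply hφ
    choose n hn using hφ2
    have : Fintype (G ⧸ V) := Fintype.ofFinite _
    let N := Finset.univ.sup n
    refine ⟨N + 1, ?_⟩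
    rw [mem_W_succ]
    refine ⟨hpbLC φ, fun g => ?_⟩
    have h1 := hn (QuotientGroup.mk g)
    rw [map_sub, ← hpbR] at h1
    exact W_mono (Finset.le_sup (Finset.mem_univ _)) h1
  let φ : (G ⧸ V) → ZMod 2 := fun q => f q.out
  have hφ : pb φ = f := by
    funext g
    change f (QuotientGroup.mk g : G ⧸ V).out = f g
    obtain ⟨v, hv⟩ := QuotientGroup.mk_out_eq_mul V g
    rw [hv]
    exact hfV g v v.2
  have h2 : φ ∈ A := by rw [hAtop]; trivial
  obtain ⟨n, hn⟩ := h2
  exact ⟨n, by rw [← hφ]; exact hn⟩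

/-! ### Generators -/

variable (G) in
/-- Locally constant homomorphisms to `F_2`. -/
def Hm : Submodule (ZMod 2) (G → ZMod 2) where
  carrier := {f | f ∈ LC G ∧ ∀ g h, f (g * h) = f g + f h}
  add_mem' := by
    rintro a b ⟨ha, ha'⟩ ⟨hb, hb'⟩
    refine ⟨add_mem ha hb, fun g h => ?_⟩
    simp only [Pi.add_apply, ha', hb']; ring
  zero_mem' := ⟨zero_mem _, fun _ _ => by simp⟩
  smul_mem' := by
    rintro c a ⟨ha, ha'⟩
    refine ⟨Submodule.smul_mem _ _ ha, fun g h => ?_⟩
    simp only [Pi.smul_apply, smul_eq_mul, ha']; ring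

theorem mem_Hm {f : G → ZMod 2} : f ∈ Hm G ↔ f ∈ LC G ∧ ∀ g h, f (g * h) = f g + f h := Iff.rfl

theorem Hm_one {f : G → ZMod 2} (h : f ∈ Hm G) : f 1 = 0 := by
  have := h.2 1 1
  rw [mul_one] at this
  have h2 : f 1 + f 1 = f 1 + 0 := by rw [← this, add_zero]
  exact add_left_cancel h2

/-- the elements of `W 2` are the affine functions -/
theorem mem_W_two {f : G → ZMod 2} (h : f ∈ W G 2) : (fun y => f y - f 1) ∈ Hm G := by
  have hLC := W_le_LC _ h
  refine ⟨sub_mem hLC (const_mem_LC (f 1)), fun g k => ?_⟩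
  have h1 := (mem_W_succ.mp h).2 k
  obtain ⟨c, hc⟩ := mem_W_one.mp h1
  have e1 := congrFun hc g
  have e2 := congrFun hc 1
  simp only [Pi.sub_apply, R_apply, one_mul] at e1 e2
  linear_combination e1 - e2

/-- `g : Fin d → G` separates the homomorphisms to `F_2`. -/
def Sep {d : ℕ} (g : Fin d → G) : Prop := ∀ f ∈ Hm G, (∀ i, f (g i) = 0) → f = 0

/-- (i) functions invariant under right translation by the `g i` are constant. -/
theorem const_of_R {d : ℕ} {g : Fin d → G} (hG : Pro2 G) (hg : Sep g) {f : G → ZMod 2}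
    (hf : f ∈ LC G) (h : ∀ i, R (g i) f = f) : ∃ c : ZMod 2, f = fun _ => c := by
  obtain ⟨n, hn⟩ := exists_W hG hf
  rw [← mem_W_one]
  clear hf
  induction n generalizing f with
  | zero => exact W_mono (by omega) hn
  | succ n ih =>
    rcases Nat.eq_zero_or_pos n with rfl | hn0
    · exact hn
    -- all left differences are in `W 1`
    have h1 : f ∈ W G 2 := by
      apply mem_W_of_left (W_le_LC _ hn)
      intro z
      apply ih _ (left_diff hn z)
      intro i
      rw [map_sub, R_Lt, h i]
    have h2 := mem_W_two h1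
    have h3 := hg _ h2 (by
      intro i
      have := congrFun (h i) 1
      simp only [R_apply, one_mul] at this
      simp [this])
    rw [mem_W_one]
    refine ⟨f 1, ?_⟩
    funext y
    have := congrFun h3 y
    simp only [Pi.zero_apply] at this
    exact sub_eq_zero.mp this

/-- an open subgroup containing the `g i` is everything (given that open subgroups contain open
normal subgroups) -/
theorem eq_top_of_open {d : ℕ} {g : Fin d → G} (hG : Pro2 G) (hg : Sep g) (H V : Subgroup G)
    (hV : ON V) (hVH : V ≤ H) (h : ∀ i, g i ∈ H) : H = ⊤ := by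
  classical
  let f : G → ZMod 2 := fun y => if y ∈ H then 1 else 0
  have hmul : ∀ y, ∀ u ∈ H, (y * u ∈ H ↔ y ∈ H) := fun y u hu => Subgroup.mul_mem_cancel_right H hu
  have hf : f ∈ LC G := by
    refine ⟨V, hV, fun y v hv => ?_⟩
    simp only [f, hmul y v (hVH hv)]
  obtain ⟨c, hc⟩ := const_of_R hG hg hf (by
    intro i
    funext y
    simp only [f, R_apply, hmul y _ (h i)])
  rw [eq_top_iff]
  intro y _
  by_contra hy
  have h1 := congrFun hc y
  have h2 := congrFun hc 1
  simp only [f, hy, if_false, H.one_mem, if_true] at h1 h2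
  rw [← h1] at h2
  exact one_ne_zero h2

/-- existence of separating elements -/
theorem exists_sep (hfin : Module.Finite (ZMod 2) (Hm G)) :
    ∃ (g : Fin (Module.finrank (ZMod 2) (Hm G)) → G)
      (χ : Fin (Module.finrank (ZMod 2) (Hm G)) → G → ZMod 2),
      Sep g ∧ (∀ i, χ i ∈ Hm G) ∧ ∀ i j, χ i (g j) = if i = j then 1 else 0 := by
  classical
  set d := Module.finrank (ZMod 2) (Hm G) with hd
  let b : Module.Basis (Fin d) (ZMod 2) (Hm G) := Module.finBasis (ZMod 2) (Hm G)
  let S : Submodule (ZMod 2) (Fin d → ZMod 2) :=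
    { carrier := {v | ∃ g : G, ∀ i, v i = (b i : G → ZMod 2) g}
      add_mem' := by
        rintro v w ⟨g, hg⟩ ⟨h, hh⟩
        refine ⟨g * h, fun i => ?_⟩
        rw [Pi.add_apply, hg, hh, (b i).2.2]
      zero_mem' := ⟨1, fun i => by rw [Hm_one (b i).2]; rfl⟩
      smul_mem' := by
        rintro c v ⟨g, hg⟩
        have hc : c = 0 ∨ c = 1 := by revert c; decide
        rcases hc with rfl | rfl
        · exact ⟨1, fun i => by rw [Hm_one (b i).2]; simp⟩
        · exact ⟨g, fun i => by rw [one_smul]; exact hg i⟩ }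
  have hS : S = ⊤ := by
    by_contra hne
    obtain ⟨φ, hφ0, hφ⟩ := Submodule.exists_le_ker_of_lt_top S (lt_top_iff_ne_top.mpr hne)
    -- `φ v = ∑ a_i v_i`
    have hsingle : ∀ i : Fin d, (Pi.single i (1 : ZMod 2) : Fin d → ZMod 2) =
        fun j => if i = j then 1 else 0 := by
      intro i
      funext j
      simp [Pi.single_apply, eq_comm]
    have h1 : ∀ g : G, ∑ i, φ (Pi.single i 1) * (b i : G → ZMod 2) g = 0 := by
      intro g
      have h2 : φ (fun i => (b i : G → ZMod 2) g) = 0 := hφ ⟨g, fun i => rfl⟩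
      rw [LinearMap.pi_apply_eq_sum_univ] at h2
      simp only [hsingle]
      simpa [mul_comm] using h2
    have h3 : ∑ i, φ (Pi.single i 1) • b i = 0 := by
      apply Subtype.ext
      funext g
      have := h1 g
      simpa [Finset.sum_apply] using this
    have h4 := Fintype.linearIndependent_iff.mp b.linearIndependent _ h3
    apply hφ0
    ext i
    simpa using h4 i
  have hex : ∀ j : Fin d, ∃ g : G, ∀ i, (b i : G → ZMod 2) g = if i = j then 1 else 0 := by
    intro j
    have : (fun i => if i = j then (1 : ZMod 2) else 0) ∈ S := by rw [hS]; trivial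
    obtain ⟨g, hg⟩ := this
    exact ⟨g, fun i => (hg i).symm⟩
  choose g hg using hex
  refine ⟨g, fun i => (b i : G → ZMod 2), ?_, fun i => (b i).2, fun i j => hg j i⟩
  intro f hf h0
  have h1 := b.sum_repr ⟨f, hf⟩
  have h2 : ∀ j, b.repr ⟨f, hf⟩ j = 0 := by
    intro j
    have h3 := congrFun (congrArg Subtype.val h1) (g j)
    simp only [Submodule.coe_sum, Submodule.coe_smul, Finset.sum_apply, Pi.smul_apply,
      smul_eq_mul, hg, mul_ite, mul_one, mul_zero, Finset.sum_ite_eq', Finset.mem_univ,
      if_true] at h3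
    rw [h3, h0]
  have h4 : (⟨f, hf⟩ : Hm G) = 0 := by
    rw [← h1]
    exact Finset.sum_eq_zero fun i _ => by rw [h2, zero_smul]
  exact congrArg Subtype.val h4

end Pool.Agent.H718R3
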