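import Mathlib
import Pool.Agent.H718R3.ProTwo

/-!
# Relations from the second cohomology group

Written by helper718.  `exists_mu`: a linear map `μ` from tuples of functions to `H²(G, F_2)` which
detects the tuples of differences.
-/

set_option autoImplicit false

namespace Pool.Agent.H718R3

variable {G : Type*} [Group G] [TopologicalSpace G]

variable (G) in
/-- Locally constant 2-cocycles with values in `F_2`. -/
def Z2f : Submodule (ZMod 2) (G → G → ZMod 2) where
  carrier := {c | (∃ V : Subgroup G, ON V ∧ ∀ g h, ∀ v ∈ V, ∀ w ∈ V, c (g * v) (h * w) = c g h) ∧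
    ∀ g h l, c g h + c (g * h) l = c h l + c g (h * l)}
  add_mem' := by
    rintro a b ⟨⟨V, hV, ha⟩, ha'⟩ ⟨⟨V', hV', hb⟩, hb'⟩
    refine ⟨⟨V ⊓ V', hV.inf hV', fun g h v hv w hw => ?_⟩, fun g h l => ?_⟩
    · simp only [Pi.add_apply, ha g h v hv.1 w hw.1, hb g h v hv.2 w hw.2]
    · simp only [Pi.add_apply]
      linear_combination ha' g h l + hb' g h l
  zero_mem' := ⟨⟨⊤, ON.top, fun _ _ _ _ _ _ => rfl⟩, fun _ _ _ => by simp⟩
  smul_mem' := by
    rintro c a ⟨⟨V, hV, ha⟩, ha'⟩
    refine ⟨⟨V, hV, fun g h v hv w hw => ?_⟩, fun g h l => ?_⟩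
    · simp only [Pi.smul_apply, ha g h v hv w hw]
    · simp only [Pi.smul_apply, smul_eq_mul]
      linear_combination c * ha' g h l

variable (G) in
/-- Coboundaries of locally constant functions. -/
def B2f : Submodule (ZMod 2) (G → G → ZMod 2) where
  carrier := {c | ∃ u ∈ LC G, ∀ g h, c g h = u g + u h - u (g * h)}
  add_mem' := by
    rintro a b ⟨u, hu, hu'⟩ ⟨v, hv, hv'⟩
    refine ⟨u + v, add_mem hu hv, fun g h => ?_⟩
    simp only [Pi.add_apply, hu', hv']; ring
  zero_mem' := ⟨0, zero_mem _, fun g h => by simp⟩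
  smul_mem' := by
    rintro c a ⟨u, hu, hu'⟩
    refine ⟨c • u, Submodule.smul_mem _ _ hu, fun g h => ?_⟩
    simp only [Pi.smul_apply, smul_eq_mul, hu']; ring

variable (G) in
/-- `H²(G, F_2)` -/
abbrev H2f : Type _ := Z2f G ⧸ (B2f G).submoduleOf (Z2f G)

theorem ON_iInf {ι : Type*} [Finite ι] (V : ι → Subgroup G) (h : ∀ i, ON (V i)) :
    ON (⨅ i, V i) := by
  refine ⟨?_, ?_⟩
  · refine ⟨fun n hn g => ?_⟩
    rw [Subgroup.mem_iInf] at hn ⊢
    exact fun i => (h i).1.conj_mem n (hn i) g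
  · rw [Subgroup.coe_iInf]
    exact isOpen_iInter_of_finite fun i => (h i).2

section

variable {d : ℕ} (g : Fin d → G)

/-- tuples of differences -/
def InT (v : Fin d → G → ZMod 2) : Prop := ∃ f ∈ LC G, ∀ i, R (g i) f - f = v i

/-- tuples which are invariant modulo tuples of differences -/
def Y : Submodule (ZMod 2) (Fin d → G → ZMod 2) where
  carrier := {v | (∀ i, v i ∈ LC G) ∧ ∀ z, InT g (fun i => Lt z (v i) - v i)}
  add_mem' := by
    rintro a b ⟨ha, ha'⟩ ⟨hb, hb'⟩
    refine ⟨fun i => add_mem (ha i) (hb i), fun z => ?_⟩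
    obtain ⟨f, hf, hf'⟩ := ha' z
    obtain ⟨k, hk, hk'⟩ := hb' z
    refine ⟨f + k, add_mem hf hk, fun i => ?_⟩
    have e1 := hf' i
    have e2 := hk' i
    simp only [Pi.add_apply, map_add]
    rw [add_sub_add_comm, e1, e2, add_sub_add_comm]
  zero_mem' := ⟨fun i => zero_mem _, fun z => ⟨0, zero_mem _, fun i => by simp⟩⟩
  smul_mem' := by
    rintro c a ⟨ha, ha'⟩
    refine ⟨fun i => Submodule.smul_mem _ _ (ha i), fun z => ?_⟩
    obtain ⟨f, hf, hf'⟩ := ha' z
    refine ⟨c • f, Submodule.smul_mem _ _ hf, fun i => ?_⟩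
    have e1 := hf' i
    simp only [Pi.smul_apply, map_smul]
    rw [← smul_sub, e1, smul_sub]

variable {g}

theorem prim_unique (hG : Pro2 G) (hg : Sep g) {f f' : G → ZMod 2} (hf : f ∈ LC G)
    (hf' : f' ∈ LC G) (h1 : f 1 = 0) (h1' : f' 1 = 0)
    (h : ∀ i, R (g i) f - f = R (g i) f' - f') : f = f' := by
  obtain ⟨c, hc⟩ := const_of_R hG hg (sub_mem hf hf') (by
    intro i
    have := h i
    rw [map_sub]
    rw [sub_eq_sub_iff_add_eq_add] at this ⊢
    rw [this, add_comm])
  have h2 := congrFun hc 1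
  rw [Pi.sub_apply, h1, h1', sub_self] at h2
  subst h2
  exact sub_eq_zero.mp hc

theorem exists_prim {v : Fin d → G → ZMod 2} (hv : v ∈ Y g) (z : G) :
    ∃ f ∈ LC G, f 1 = 0 ∧ ∀ i, R (g i) f - f = Lt z (v i) - v i := by
  obtain ⟨f, hf, hf'⟩ := hv.2 z
  refine ⟨f - fun _ => f 1, sub_mem hf (const_mem_LC _), by simp, fun i => ?_⟩
  refine Eq.trans ?_ (hf' i)
  funext y
  simp

/-- the 2-cocycle of `v ∈ Y`. -/
noncomputable def cc (v : Y g) (z : G) : G → ZMod 2 := (exists_prim v.2 z).choose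

theorem cc_LC (v : Y g) (z : G) : cc v z ∈ LC G := (exists_prim v.2 z).choose_spec.1
theorem cc_one (v : Y g) (z : G) : cc v z 1 = 0 := (exists_prim v.2 z).choose_spec.2.1
theorem cc_spec (v : Y g) (z : G) (i : Fin d) :
    R (g i) (cc v z) - cc v z = Lt z (v.1 i) - v.1 i :=
  (exists_prim v.2 z).choose_spec.2.2 i

theorem cc_eq (hG : Pro2 G) (hg : Sep g) (v : Y g) (z : G) {f : G → ZMod 2} (hf : f ∈ LC G)
    (h1 : f 1 = 0) (h : ∀ i, R (g i) f - f = Lt z (v.1 i) - v.1 i) : cc v z = f :=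
  prim_unique hG hg (cc_LC v z) hf (cc_one v z) h1 fun i => by rw [cc_spec, h i]

theorem cc_mul (hG : Pro2 G) (hg : Sep g) (v : Y g) (z z' y : G) :
    cc v (z * z') y = cc v z (z' * y) + cc v z' y - cc v z z' := by
  have : cc v (z * z') = fun y => cc v z (z' * y) + cc v z' y - cc v z z' := by
    apply cc_eq hG hg
    · exact sub_mem (add_mem (Lt_LC (cc_LC v z) z') (cc_LC v z')) (const_mem_LC _)
    · simp [cc_one]
    · intro i
      have e1 := cc_spec v z i
      have e2 := cc_spec v z' i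
      funext y
      have f1 := congrFun e1 (z' * y)
      have f2 := congrFun e2 y
      simp only [Pi.sub_apply, R_apply, Lt_apply] at f1 f2 ⊢
      rw [mul_assoc] at f1
      rw [mul_assoc z z' y]
      linear_combination f1 + f2
  exact congrFun this y

theorem cc_mem (hG : Pro2 G) (hg : Sep g) (v : Y g) : cc v ∈ Z2f G := by
  classical
  refine ⟨?_, fun z z' y => ?_⟩
  · choose Vi hVi hVi' using v.2.1
    let V : Subgroup G := ⨅ i, Vi i
    have hV : ON V := ON_iInf Vi hVi
    have hinv : ∀ z, ∀ u ∈ V, cc v (z * u) = cc v z := by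
      intro z u hu
      apply cc_eq hG hg v (z * u) (cc_LC v z) (cc_one v z)
      intro i
      rw [cc_spec]
      congr 1
      funext y
      rw [Lt_apply, Lt_apply]
      have h1 : z * u * y = z * y * (y⁻¹ * u * y) := by group
      rw [h1]
      symm
      apply hVi' i
      have := (hVi i).1.conj_mem u (Subgroup.mem_iInf.mp hu i) y⁻¹
      simpa using this
    obtain ⟨k, hk⟩ := hG V hV
    have hfin : Finite (G ⧸ V) := Nat.finite_of_card_ne_zero (by rw [hk]; positivity)
    choose Vq hVq hVq' using fun q : G ⧸ V => cc_LC v q.out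
    refine ⟨V ⊓ ⨅ q, Vq q, hV.inf (ON_iInf Vq hVq), fun z y u hu w hw => ?_⟩
    rw [hinv z u hu.1]
    obtain ⟨v', hv'⟩ := QuotientGroup.mk_out_eq_mul V z
    have h1 : cc v z = cc v (QuotientGroup.mk z : G ⧸ V).out := by
      rw [hv', hinv z v' v'.2]
    rw [h1]
    exact hVq' _ y w (Subgroup.mem_iInf.mp hw.2 _)
  · rw [cc_mul hG hg]
    ring

/-- `v ↦ cc v` as a linear map. -/
noncomputable def ccLin (hG : Pro2 G) (hg : Sep g) : Y g →ₗ[ZMod 2] Z2f G where
  toFun v := ⟨cc v, cc_mem hG hg v⟩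
  map_add' v w := by
    apply Subtype.ext
    funext z
    apply cc_eq hG hg
    · exact add_mem (cc_LC v z) (cc_LC w z)
    · simp [cc_one]
    · intro i
      have e1 := cc_spec v z i
      have e2 := cc_spec w z i
      change R (g i) (cc v z + cc w z) - (cc v z + cc w z) = _
      rw [map_add, add_sub_add_comm, e1, e2]
      simp only [Submodule.coe_add, Pi.add_apply, map_add]
      abel
  map_smul' c v := by
    apply Subtype.ext
    funext z
    apply cc_eq hG hg
    · exact Submodule.smul_mem _ c (cc_LC v z)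
    · change c • cc v z 1 = 0
      rw [cc_one, smul_zero]
    · intro i
      have e1 := cc_spec v z i
      change R (g i) (c • cc v z) - c • cc v z = _
      rw [map_smul, ← smul_sub, e1]
      simp only [Submodule.coe_smul, Pi.smul_apply, map_smul, smul_sub]

theorem inT_of_coboundary {χ : Fin d → G → ZMod 2}
    (hχ : ∀ i, χ i ∈ Hm G) (hχg : ∀ i j, χ i (g j) = if i = j then 1 else 0) (v : Y g)
    (h : cc v ∈ B2f G) : InT g v.1 := by
  classical
  obtain ⟨u, hu, hcu⟩ := h
  -- `p i = v i + (R (g i) u - u)` is constant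
  have hp : ∀ i z, v.1 i z + (u (z * g i) - u z) = v.1 i 1 + (u (g i) - u 1) := by
    intro i z
    have e1 := congrFun (cc_spec v z i) 1
    simp only [Pi.sub_apply, R_apply, one_mul, Lt_apply, mul_one] at e1
    rw [hcu, hcu, mul_one] at e1
    linear_combination -e1
  let κ : Fin d → ZMod 2 := fun i => v.1 i 1 + (u (g i) - u 1)
  refine ⟨(∑ j, κ j • χ j) - u, sub_mem (sum_mem fun j _ => Submodule.smul_mem _ _ (hχ j).1) hu,
    fun i => ?_⟩
  funext y
  have h1 : ∀ j, χ j (y * g i) - χ j y = if j = i then 1 else 0 := by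
    intro j
    rw [(hχ j).2, hχg]; ring
  have h2 := hp i y
  simp only [Pi.sub_apply, R_apply, Finset.sum_apply, Pi.smul_apply, smul_eq_mul]
  have h3 : ∑ j, κ j * χ j (y * g i) - ∑ j, κ j * χ j y = κ i := by
    rw [← Finset.sum_sub_distrib]
    simp only [← mul_sub, h1, mul_ite, mul_one, mul_zero, Finset.sum_ite_eq', Finset.mem_univ,
      if_true]
  simp only [κ] at h3 ⊢
  linear_combination h3 - h2

/-- The functional detecting tuples of differences. -/
theorem exists_mu (hG : Pro2 G) (hg : Sep g) {χ : Fin d → G → ZMod 2}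
    (hχ : ∀ i, χ i ∈ Hm G) (hχg : ∀ i j, χ i (g j) = if i = j then 1 else 0) :
    ∃ μ : (Fin d → G → ZMod 2) →ₗ[ZMod 2] H2f G,
      (∀ a : Fin d → ZMod 2, μ (fun i _ => a i) = 0) ∧ ∀ v ∈ Y g, μ v = 0 → InT g v := by
  let κ : Y g →ₗ[ZMod 2] H2f G := ((B2f G).submoduleOf (Z2f G)).mkQ.comp (ccLin hG hg)
  obtain ⟨μ, hμ⟩ := LinearMap.exists_extend κ
  have hμ' : ∀ v : Y g, μ v.1 = κ v := fun v => LinearMap.congr_fun hμ v
  refine ⟨μ, fun a => ?_, fun v hv h0 => ?_⟩
  · have hY : (fun i _ => a i : Fin d → G → ZMod 2) ∈ Y g := by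
      refine ⟨fun i => const_mem_LC _, fun z => ⟨0, zero_mem _, fun i => ?_⟩⟩
      funext y
      simp
    have h1 := hμ' ⟨_, hY⟩
    rw [h1]
    change Submodule.Quotient.mk (ccLin hG hg ⟨_, hY⟩) = 0
    have h2 : ccLin hG hg ⟨_, hY⟩ = 0 := by
      apply Subtype.ext
      funext z
      change cc ⟨_, hY⟩ z = 0
      apply cc_eq hG hg _ _ (zero_mem _) rfl
      intro i
      funext y
      simp
    rw [h2]
    rfl
  · have h1 := hμ' ⟨v, hv⟩
    rw [h0] at h1
    have h2 : Submodule.Quotient.mk (p := (B2f G).submoduleOf (Z2f G)) (ccLin hG hg ⟨v, hv⟩) = 0 :=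
      h1.symm
    rw [Submodule.Quotient.mk_eq_zero] at h2
    exact inT_of_coboundary hχ hχg ⟨v, hv⟩ h2

/-- A tuple all of whose left translates are killed by `μ` is a tuple of differences. -/
theorem inT_of_mu (hG : Pro2 G) {μ : (Fin d → G → ZMod 2) →ₗ[ZMod 2] H2f G}
    (hμ : ∀ v ∈ Y g, μ v = 0 → InT g v) {v : Fin d → G → ZMod 2} (hv : ∀ i, v i ∈ LC G)
    (h : ∀ z, μ (fun i => Lt z (v i)) = 0) : InT g v := by
  choose n hn using fun i => exists_W hG (hv i)
  let N := Finset.univ.sup n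
  have hN : ∀ i, v i ∈ W G N := fun i => W_mono (Finset.le_sup (Finset.mem_univ i)) (hn i)
  clear_value N
  clear hn
  clear n
  induction N generalizing v with
  | zero =>
    refine ⟨0, zero_mem _, fun i => ?_⟩
    have := hN i
    rw [mem_W_zero] at this
    rw [this]
    simp
  | succ N ih =>
    apply hμ v
    · refine ⟨hv, fun z => ?_⟩
      apply ih
      · exact fun i => sub_mem (Lt_LC (hv i) z) (hv i)
      · intro y
        have h1 : (fun i => Lt y (Lt z (v i) - v i)) =
            (fun i => Lt (z * y) (v i)) - fun i => Lt y (v i) := by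
          funext i
          rw [Pi.sub_apply, map_sub, Lt_mul]
        rw [h1, map_sub, h, h, sub_zero]
      · exact fun i => left_diff (hN i) z
    · have := h 1
      simp only [Lt_one] at this
      exact this

end

end Pool.Agent.H718R3
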