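import Mathlib
import Pool.Agent.H718R3.Mu

/-!
# The Golod-Shafarevich recursion with deep relations

Written by helper718.
-/

set_option autoImplicit false

namespace Pool.Agent.H718R3

open Module

variable {G : Type*} [Group G] [TopologicalSpace G]

theorem finite_W (hG : Pro2 G) {d : ℕ} {g : Fin d → G} (hg : Sep g) (n : ℕ) :
    Finite (W G n) := by
  induction n with
  | zero =>
    have : W G 0 = ⊥ := rfl
    rw [this]
    infer_instance
  | succ n ih =>
    let F : W G (n + 1) → ZMod 2 × (Fin d → W G n) := fun f =>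
      (f.1 1, fun i => ⟨R (g i) f.1 - f.1, (mem_W_succ.mp f.2).2 _⟩)
    refine Finite.of_injective F ?_
    intro f f' h
    have h1 : f.1 1 = f'.1 1 := congrArg Prod.fst h
    have h2 : ∀ i, R (g i) f.1 - f.1 = R (g i) f'.1 - f'.1 := fun i =>
      congrArg Subtype.val (congrFun (congrArg Prod.snd h) i)
    obtain ⟨c, hc⟩ := const_of_R hG hg (sub_mem (W_le_LC _ f.2) (W_le_LC _ f'.2)) (by
      intro i
      have := h2 i
      rw [map_sub]
      rw [sub_eq_sub_iff_add_eq_add] at this ⊢
      rw [this, add_comm])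
    have h3 := congrFun hc 1
    rw [Pi.sub_apply, h1, sub_self] at h3
    subst h3
    exact Subtype.ext (sub_eq_zero.mp hc)

theorem fin_W (hG : Pro2 G) {d : ℕ} {g : Fin d → G} (hg : Sep g) (n : ℕ) :
    Module.Finite (ZMod 2) (W G n) := by
  have := finite_W hG hg n
  infer_instance

/-- functions invariant under `N` -/
def IN (N : Subgroup G) : Submodule (ZMod 2) (G → ZMod 2) where
  carrier := {f | ∀ x ∈ N, R x f = f}
  add_mem' := by
    intro a b ha hb x hx
    rw [map_add, ha x hx, hb x hx]
  zero_mem' := fun x _ => map_zero _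
  smul_mem' := by
    intro c a ha x hx
    rw [map_smul, ha x hx]

/-- the `N`-invariant part of the filtration -/
def A (N : Subgroup G) (n : ℕ) : Submodule (ZMod 2) (G → ZMod 2) := W G n ⊓ IN N

omit [TopologicalSpace G] in
theorem R_mem_IN {N : Subgroup G} (hN : N.Normal) {f : G → ZMod 2} (hf : f ∈ IN N) (y : G) :
    R y f ∈ IN N := by
  intro x hx
  rw [← R_mul]
  have h1 : x * y = y * (y⁻¹ * x * y) := by group
  rw [h1, R_mul]
  congr 1
  apply hf
  have := hN.conj_mem x hx y⁻¹
  simpa using this

theorem R_mem_A {N : Subgroup G} (hN : N.Normal) {n : ℕ} {f : G → ZMod 2} (hf : f ∈ A N n)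
    (y : G) : R y f ∈ A N n :=
  ⟨R_mem_W hf.1 y, R_mem_IN hN hf.2 y⟩

/-- functions all of whose differences are in `A N n` -/
def E (N : Subgroup G) (n : ℕ) : Submodule (ZMod 2) (G → ZMod 2) :=
  LC G ⊓ ⨅ y : G, (A N n).comap (R y - LinearMap.id)

theorem mem_E {N : Subgroup G} {n : ℕ} {f : G → ZMod 2} :
    f ∈ E N n ↔ f ∈ LC G ∧ ∀ y, R y f - f ∈ A N n := by
  simp only [E, Submodule.mem_inf, Submodule.mem_iInf, Submodule.mem_comap, LinearMap.sub_apply,
    LinearMap.id_apply]

theorem E_le_W {N : Subgroup G} {n : ℕ} : E N n ≤ W G (n + 1) := by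
  intro f hf
  rw [mem_E] at hf
  rw [mem_W_succ]
  exact ⟨hf.1, fun y => (hf.2 y).1⟩

section

variable {d : ℕ} {g : Fin d → G}

/-- differences along generators in `A N n` imply membership in `E N n` -/
theorem mem_E_of_gen (hG : Pro2 G) (hg : Sep g) {N : Subgroup G} (hN : N.Normal) {n : ℕ}
    {f : G → ZMod 2} (hf : f ∈ LC G) (h : ∀ i, R (g i) f - f ∈ A N n) : f ∈ E N n := by
  rw [mem_E]
  refine ⟨hf, ?_⟩
  let H : Subgroup G :=
    { carrier := {y | R y f - f ∈ A N n}
      mul_mem' := by
        intro a b ha hb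
        have h1 : R (a * b) f - f = R a (R b f - f) + (R a f - f) := by
          rw [R_mul, map_sub]; abel
        change R (a * b) f - f ∈ A N n
        rw [h1]
        exact add_mem (R_mem_A hN hb a) ha
      one_mem' := by
        change R 1 f - f ∈ A N n
        rw [R_one, sub_self]
        exact zero_mem _
      inv_mem' := by
        intro a ha
        have h1 : R a⁻¹ f - f = - R a⁻¹ (R a f - f) := by
          rw [map_sub, ← R_mul, inv_mul_cancel, R_one]; abel
        change R a⁻¹ f - f ∈ A N n
        rw [h1]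
        exact neg_mem (R_mem_A hN ha _) }
  obtain ⟨V, hV, hfV⟩ := hf
  have hH : H = ⊤ := eq_top_of_open hG hg H V hV (by
    intro v hv
    change R v f - f ∈ A N n
    have : R v f = f := by funext y; exact hfV y v hv
    rw [this, sub_self]
    exact zero_mem _) h
  intro y
  have : y ∈ H := by rw [hH]; trivial
  exact this

/-- The cohomological part of the recursion. -/
theorem finrank_E (hG : Pro2 G) (hg : Sep g) {χ : Fin d → G → ZMod 2}
    (hχ : ∀ i, χ i ∈ Hm G) (hχg : ∀ i j, χ i (g j) = if i = j then 1 else 0)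
    (hH : Module.Finite (ZMod 2) (H2f G)) {N : Subgroup G} (hN : N.Normal) (m : ℕ) :
    1 + d * finrank (ZMod 2) (A N (m + 1)) ≤
      finrank (ZMod 2) (E N (m + 1)) +
        finrank (ZMod 2) (A N m) * finrank (ZMod 2) (H2f G) := by
  classical
  obtain ⟨μ, hμc, hμ⟩ := exists_mu hG hg hχ hχg
  have hfinW := fun n => fin_W hG hg n
  have hfinA : ∀ n, Module.Finite (ZMod 2) (A N n) := fun n =>
    Submodule.finiteDimensional_of_le (inf_le_left : A N n ≤ W G n)
  have hfinE : ∀ n, Module.Finite (ZMod 2) (E N n) := fun n =>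
    Submodule.finiteDimensional_of_le (E_le_W (N := N) (n := n))
  set k := finrank (ZMod 2) (A N m) with hk
  let b : Basis (Fin k) (ZMod 2) (A N m) := finBasis (ZMod 2) (A N m)
  -- the maps
  let Φ : (Fin d → A N (m + 1)) →ₗ[ZMod 2] (G → H2f G) :=
    { toFun := fun w z => μ (fun i => Lt z (w i).1)
      map_add' := by
        intro w w'
        funext z
        rw [Pi.add_apply, ← map_add]
        congr 1
      map_smul' := by
        intro c w
        funext z
        rw [Pi.smul_apply, RingHom.id_apply, ← map_smul]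
        congr 1 }
  let Ω : (Fin k → H2f G) →ₗ[ZMod 2] (G → H2f G) :=
    { toFun := fun η z => ∑ j, (b j).1 z • η j
      map_add' := by
        intro η η'
        funext z
        simp only [Pi.add_apply, smul_add, Finset.sum_add_distrib]
      map_smul' := by
        intro c η
        funext z
        simp only [Pi.smul_apply, RingHom.id_apply, Finset.smul_sum]
        exact Finset.sum_congr rfl fun j _ => smul_comm _ _ _ }
  have hrange : LinearMap.range Φ ≤ LinearMap.range Ω := by
    rintro _ ⟨w, rfl⟩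
    have hdiff : ∀ i y, R y (w i).1 - (w i).1 ∈ A N m := fun i y =>
      ⟨(mem_W_succ.mp (w i).2.1).2 y, sub_mem (R_mem_IN hN (w i).2.2 y) (w i).2.2⟩
    let β : Fin k → Fin d → G → ZMod 2 := fun j i y => b.repr ⟨_, hdiff i y⟩ j
    refine ⟨fun j => μ (β j), ?_⟩
    funext z
    change ∑ j, (b j).1 z • μ (β j) = μ (fun i => Lt z (w i).1)
    have h1 : (fun i => Lt z (w i).1) = (fun i _ => (w i).1 z) + ∑ j, (b j).1 z • β j := by
      funext i y
      have h2 := b.sum_repr ⟨_, hdiff i y⟩
      have h3 := congrFun (congrArg Subtype.val h2) z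
      simp only [Submodule.coe_sum, Submodule.coe_smul, Finset.sum_apply, Pi.smul_apply,
        smul_eq_mul, Pi.sub_apply, R_apply] at h3
      simp only [Lt_apply, Pi.add_apply, Finset.sum_apply, Pi.smul_apply, smul_eq_mul]
      have h4 : ∑ j, (b j).1 z * β j i y = ∑ j, b.repr ⟨_, hdiff i y⟩ j * (b j).1 z :=
        Finset.sum_congr rfl fun j _ => mul_comm _ _
      rw [h4, h3]
      ring
    rw [h1, map_add, hμc, zero_add, map_sum]
    simp only [map_smul]
  have hfree : Module.Free (ZMod 2) (H2f G) := Module.Free.of_divisionRing _ _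
  have hr1 : finrank (ZMod 2) (LinearMap.range Φ) ≤ k * finrank (ZMod 2) (H2f G) := by
    calc finrank (ZMod 2) (LinearMap.range Φ) ≤ finrank (ZMod 2) (LinearMap.range Ω) :=
          Submodule.finrank_mono hrange
      _ ≤ finrank (ZMod 2) (Fin k → H2f G) := LinearMap.finrank_range_le Ω
      _ = k * finrank (ZMod 2) (H2f G) := by
        rw [finrank_pi_fintype]; simp
  have hr2 := LinearMap.finrank_range_add_finrank_ker Φ
  have hr3 : finrank (ZMod 2) (Fin d → A N (m + 1)) = d * finrank (ZMod 2) (A N (m + 1)) := by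
    rw [finrank_pi_fintype]; simp
  -- the difference map on `E`
  let θ : E N (m + 1) →ₗ[ZMod 2] (Fin d → A N (m + 1)) :=
    { toFun := fun f i => ⟨R (g i) f.1 - f.1, (mem_E.mp f.2).2 _⟩
      map_add' := by
        intro f f'
        funext i
        apply Subtype.ext
        simp only [Submodule.coe_add, map_add, Pi.add_apply]
        abel
      map_smul' := by
        intro c f
        funext i
        apply Subtype.ext
        simp only [Submodule.coe_smul, map_smul, Pi.smul_apply, RingHom.id_apply, smul_sub] }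
  have hker : LinearMap.ker Φ ≤ LinearMap.range θ := by
    intro w hw
    rw [LinearMap.mem_ker] at hw
    obtain ⟨f, hf, hf'⟩ := inT_of_mu hG hμ (v := fun i => (w i).1)
      (fun i => W_le_LC _ (w i).2.1) (fun z => congrFun hw z)
    refine ⟨⟨f, mem_E_of_gen hG hg hN hf (fun i => ?_)⟩, ?_⟩
    · have := hf' i
      rw [this]
      exact (w i).2
    · funext i
      apply Subtype.ext
      exact hf' i
  have hr4 : finrank (ZMod 2) (LinearMap.ker Φ) ≤ finrank (ZMod 2) (LinearMap.range θ) :=
    Submodule.finrank_mono hker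
  have hr5 := LinearMap.finrank_range_add_finrank_ker θ
  have hr6 : 1 ≤ finrank (ZMod 2) (LinearMap.ker θ) := by
    have hmem : (fun _ => 1 : G → ZMod 2) ∈ E N (m + 1) := by
      rw [mem_E]
      refine ⟨const_mem_LC 1, fun y => ?_⟩
      have : R y (fun _ => 1 : G → ZMod 2) - (fun _ => 1) = 0 := by
        funext z; simp
      rw [this]
      exact zero_mem _
    have hk2 : (⟨_, hmem⟩ : E N (m + 1)) ∈ LinearMap.ker θ := by
      rw [LinearMap.mem_ker]
      funext i
      apply Subtype.ext
      funext z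
      change (1 : ZMod 2) - 1 = 0
      simp
    have : Nontrivial (LinearMap.ker θ) := by
      refine ⟨⟨⟨_, hk2⟩, 0, ?_⟩⟩
      intro h0
      have h1 := congrArg (fun t : LinearMap.ker θ => (t.1.1 : G → ZMod 2) 1) h0
      exact one_ne_zero h1
    exact finrank_pos
  nlinarith

end

section

variable [IsTopologicalGroup G]

/-- the closed normal subgroup generated by a sequence -/
def NC (x : ℕ → G) : Subgroup G := (Subgroup.normalClosure (Set.range x)).topologicalClosure

theorem NC_normal (x : ℕ → G) : (NC x).Normal :=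
  Subgroup.is_normal_topologicalClosure _

theorem mem_NC (x : ℕ → G) (i : ℕ) : x i ∈ NC x :=
  Subgroup.le_topologicalClosure _ (Subgroup.subset_normalClosure ⟨i, rfl⟩)

/-- The recursion. -/
theorem recursion (hG : Pro2 G) {d : ℕ} {g : Fin d → G} (hg : Sep g) {χ : Fin d → G → ZMod 2}
    (hχ : ∀ i, χ i ∈ Hm G) (hχg : ∀ i j, χ i (g j) = if i = j then 1 else 0)
    (hH : Module.Finite (ZMod 2) (H2f G)) (x : ℕ → G)
    (hx : ∀ i, ∀ f ∈ W G (i + 3), R (x i) f = f) (n : ℕ) :
    1 + d * finrank (ZMod 2) (A (NC x) (n + 1)) ≤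
      finrank (ZMod 2) (A (NC x) (n + 2)) +
        finrank (ZMod 2) (A (NC x) n) * finrank (ZMod 2) (H2f G) +
        ∑ j ∈ Finset.range n, finrank (ZMod 2) (A (NC x) j) := by
  classical
  set N := NC x with hNdef
  have hN : N.Normal := NC_normal x
  have hfinW := fun n => fin_W hG hg n
  have hfinA : ∀ n, Module.Finite (ZMod 2) (A N n) := fun n =>
    Submodule.finiteDimensional_of_le (inf_le_left : A N n ≤ W G n)
  have hfinE : ∀ n, Module.Finite (ZMod 2) (E N n) := fun n =>
    Submodule.finiteDimensional_of_le (E_le_W (N := N) (n := n))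
  have h1 := finrank_E hG hg hχ hχg hH hN n
  have hmem : ∀ (f : E N (n + 1)) (i : ℕ), R (x i) f.1 - f.1 ∈ A N (n + 2 - (i + 3)) := by
    intro f i
    exact ⟨depth (hx i) (E_le_W f.2), ((mem_E.mp f.2).2 _).2⟩
  let Ψ : E N (n + 1) →ₗ[ZMod 2] (∀ i : Fin n, A N (n - 1 - i)) :=
    { toFun := fun f i => ⟨R (x i) f.1 - f.1, by
        have := hmem f i
        have e : n + 2 - ((i : ℕ) + 3) = n - 1 - i := by omega
        rwa [e] at this⟩
      map_add' := by
        intro f f'
        funext i
        apply Subtype.ext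
        simp only [Submodule.coe_add, map_add, Pi.add_apply]
        abel
      map_smul' := by
        intro c f
        funext i
        apply Subtype.ext
        simp only [Submodule.coe_smul, map_smul, Pi.smul_apply, RingHom.id_apply, smul_sub] }
  have hr1 := LinearMap.finrank_range_add_finrank_ker Ψ
  have hr2 : finrank (ZMod 2) (LinearMap.range Ψ) ≤
      ∑ j ∈ Finset.range n, finrank (ZMod 2) (A N j) := by
    refine (Submodule.finrank_le _).trans ?_
    rw [finrank_pi_fintype]
    rw [← Finset.sum_range_reflect, Finset.sum_range]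
  have hker : ∀ f : LinearMap.ker Ψ, f.1.1 ∈ A N (n + 2) := by
    intro f
    have hfE := mem_E.mp f.1.2
    refine ⟨E_le_W f.1.2, ?_⟩
    have hxi : ∀ i, R (x i) f.1.1 = f.1.1 := by
      intro i
      rcases Nat.lt_or_ge i n with hi | hi
      · have h2 := congrFun (LinearMap.mem_ker.mp f.2) ⟨i, hi⟩
        have h3 := congrArg Subtype.val h2
        exact sub_eq_zero.mp h3
      · have h2 : R (x i) f.1.1 - f.1.1 ∈ W G (n + 2 - (i + 3)) := (hmem f.1 i).1
        have e : n + 2 - (i + 3) = 0 := by omega
        rw [e, mem_W_zero] at h2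
        exact sub_eq_zero.mp h2
    let S : Subgroup G :=
      { carrier := {y | R y f.1.1 = f.1.1}
        mul_mem' := by
          intro a b ha hb
          change R (a * b) f.1.1 = f.1.1
          rw [R_mul, hb, ha]
        one_mem' := R_one _
        inv_mem' := by
          intro a ha
          change R a⁻¹ f.1.1 = f.1.1
          have ha' : R a f.1.1 = f.1.1 := ha
          conv_lhs => rw [← ha']
          rw [← R_mul, inv_mul_cancel, R_one] }
    have hSconj : Subgroup.normalClosure (Set.range x) ≤ S := by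
      rw [Subgroup.normalClosure, Subgroup.closure_le]
      intro y hy
      rw [Group.mem_conjugatesOfSet_iff] at hy
      obtain ⟨_, ⟨i, rfl⟩, hc⟩ := hy
      rw [isConj_iff] at hc
      obtain ⟨c, rfl⟩ := hc
      change R (c * x i * c⁻¹) f.1.1 = f.1.1
      have h2 := (hfE.2 c⁻¹).2 (x i) (mem_NC x i)
      rw [map_sub, hxi i] at h2
      have h3 : R (x i) (R c⁻¹ f.1.1) = R c⁻¹ f.1.1 := sub_left_injective h2
      rw [R_mul, R_mul, h3, ← R_mul, mul_inv_cancel, R_one]
    have hSopen : IsOpen (S : Set G) := by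
      obtain ⟨V, hV, hfV⟩ := hfE.1
      refine Subgroup.isOpen_mono (H₁ := V) ?_ hV.2
      intro v hv
      change R v f.1.1 = f.1.1
      funext y
      exact hfV y v hv
    have hSclosed : IsClosed (S : Set G) := Subgroup.isClosed_of_isOpen S hSopen
    have hle : N ≤ S := Subgroup.topologicalClosure_minimal _ hSconj hSclosed
    intro y hy
    exact hle hy
  have hr3 : finrank (ZMod 2) (LinearMap.ker Ψ) ≤ finrank (ZMod 2) (A N (n + 2)) := by
    let ι : LinearMap.ker Ψ →ₗ[ZMod 2] A N (n + 2) :=
      LinearMap.codRestrict _ ((E N (n + 1)).subtype.comp (LinearMap.ker Ψ).subtype) hker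
    refine LinearMap.finrank_le_finrank_of_injective (f := ι) ?_
    intro a b hab
    apply Subtype.ext
    apply Subtype.ext
    exact congrArg (fun t : A N (n + 2) => t.1) hab
  omega

/-- exponential growth -/
theorem growth (hG : Pro2 G) {d : ℕ} {g : Fin d → G} (hg : Sep g) {χ : Fin d → G → ZMod 2}
    (hχ : ∀ i, χ i ∈ Hm G) (hχg : ∀ i j, χ i (g j) = if i = j then 1 else 0)
    (hH : Module.Finite (ZMod 2) (H2f G)) (hd : 9 ≤ d) (hr : finrank (ZMod 2) (H2f G) ≤ 17)
    (x : ℕ → G) (hx : ∀ i, ∀ f ∈ W G (i + 3), R (x i) f = f) (n : ℕ) :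
    4 * finrank (ZMod 2) (A (NC x) n) ≤ finrank (ZMod 2) (A (NC x) (n + 1)) ∧
      3 * ∑ j ∈ Finset.range n, finrank (ZMod 2) (A (NC x) j) ≤ finrank (ZMod 2) (A (NC x) n) := by
  induction n with
  | zero =>
    have : A (NC x) 0 = ⊥ := by
      rw [eq_bot_iff]
      exact inf_le_left
    rw [this]
    simp
  | succ n ih =>
    obtain ⟨ih1, ih2⟩ := ih
    have h := recursion hG hg hχ hχg hH x hx n
    rw [Finset.sum_range_succ]
    set a := fun n => finrank (ZMod 2) (A (NC x) n) with ha
    have e1 : 9 * a (n + 1) ≤ d * a (n + 1) := Nat.mul_le_mul_right _ hd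
    have e2 : a n * finrank (ZMod 2) (H2f G) ≤ a n * 17 := Nat.mul_le_mul_left _ hr
    change 1 + d * a (n + 1) ≤ a (n + 2) + a n * finrank (ZMod 2) (H2f G) +
      ∑ j ∈ Finset.range n, a j at h
    change 4 * a n ≤ a (n + 1) at ih1
    change 3 * ∑ j ∈ Finset.range n, a j ≤ a n at ih2
    change 4 * a (n + 1) ≤ a (n + 2) ∧ 3 * (∑ j ∈ Finset.range n, a j + a n) ≤ a (n + 1)
    constructor
    · omega
    · omega

/-- The quotient by the closed normal subgroup generated by a sequence of deep elements is
infinite. -/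
theorem infinite_quotient (hG : Pro2 G) (hfin : Module.Finite (ZMod 2) (Hm G))
    (hH : Module.Finite (ZMod 2) (H2f G)) (hd : 9 ≤ finrank (ZMod 2) (Hm G))
    (hr : finrank (ZMod 2) (H2f G) ≤ 17)
    (x : ℕ → G) (hx : ∀ i, ∀ f ∈ W G (i + 3), R (x i) f = f) : Infinite (G ⧸ NC x) := by
  classical
  obtain ⟨g, χ, hg, hχ, hχg⟩ := exists_sep hfin
  have hfinW := fun n => fin_W hG hg n
  have hgr := growth hG hg hχ hχg hH hd hr x hx
  set N := NC x with hNdef
  have hfinA : ∀ n, Module.Finite (ZMod 2) (A N n) := fun n =>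
    Submodule.finiteDimensional_of_le (inf_le_left : A N n ≤ W G n)
  have h1 : 1 ≤ finrank (ZMod 2) (A N 1) := by
    have hmem : (fun _ => 1 : G → ZMod 2) ∈ A N 1 := by
      refine ⟨mem_W_one.mpr ⟨1, rfl⟩, fun y _ => ?_⟩
      funext z; simp
    have : Nontrivial (A N 1) := by
      refine ⟨⟨⟨_, hmem⟩, 0, ?_⟩⟩
      intro h0
      have h1 := congrArg (fun t : A N 1 => (t.1 : G → ZMod 2) 1) h0
      exact one_ne_zero h1
    exact finrank_pos
  have h2 : ∀ n, n + 1 ≤ finrank (ZMod 2) (A N (n + 1)) := by
    intro n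
    induction n with
    | zero => exact h1
    | succ n ih =>
      have := (hgr (n + 1)).1
      omega
  by_contra hinf
  rw [not_infinite_iff_finite] at hinf
  have : Fintype (G ⧸ N) := Fintype.ofFinite _
  let c := Fintype.card (G ⧸ N)
  have h3 : finrank (ZMod 2) (A N (c + 1)) ≤ c := by
    let F : A N (c + 1) →ₗ[ZMod 2] ((G ⧸ N) → ZMod 2) :=
      { toFun := fun f q => f.1 q.out
        map_add' := fun _ _ => rfl
        map_smul' := fun _ _ => rfl }
    have hF : Function.Injective F := by
      intro f f' hff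
      apply Subtype.ext
      have key : ∀ (f : A N (c + 1)) (y : G), f.1 y = f.1 (QuotientGroup.mk y : G ⧸ N).out := by
        intro f y
        obtain ⟨v, hv⟩ := QuotientGroup.mk_out_eq_mul N y
        rw [hv]
        exact (congrFun (f.2.2 v v.2) y).symm
      funext y
      rw [key f y, key f' y]
      exact congrFun hff _
    have := LinearMap.finrank_le_finrank_of_injective hF
    rw [finrank_fintype_fun_eq_card] at this
    exact this
  have := h2 c
  omega

end

end Pool.Agent.H718R3
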