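import Mathlib
import Pool.Agent.H718R3.Growth

/-!
# Selection of deep independent elements

Written by helper718.
-/

set_option autoImplicit false

namespace Pool.Agent.H718R3

open Module Topology

/-- dependent recursion along `ℕ` -/
noncomputable def seqF {D : Type*} [Nonempty D] (P : (n : ℕ) → (Fin n → D) → D → Prop)
    (n : ℕ) : D :=
  haveI := Classical.propDecidable
  if h : ∃ y, P n (fun i : Fin n => seqF P i) y then h.choose else Classical.arbitrary D
termination_by n
decreasing_by all_goals exact i.2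

theorem exists_seq {D : Type*} [Nonempty D] (P : (n : ℕ) → (Fin n → D) → D → Prop)
    (H : ∀ (n : ℕ) (s : ℕ → D), (∀ i, i < n → P i (fun j => s j) (s i)) →
      ∃ y, P n (fun j => s j) y) :
    ∃ f : ℕ → D, ∀ n, P n (fun j => f j) (f n) := by
  classical
  refine ⟨seqF P, fun n => ?_⟩
  induction n using Nat.strong_induction_on with
  | _ n ih =>
    have h : ∃ y, P n (fun i : Fin n => seqF P i) y := H n (seqF P) ih
    have e : seqF P n = h.choose := by
      rw [seqF]
      exact dif_pos h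
    rw [e]
    exact h.choose_spec

variable {G : Type*} [Group G] [TopologicalSpace G]

/-- open normal subgroups form a basis at `1` -/
def Basis1 (G : Type*) [Group G] [TopologicalSpace G] : Prop :=
  ∀ U ∈ 𝓝 (1 : G), ∃ V : Subgroup G, ON V ∧ (V : Set G) ⊆ U

theorem exists_deep (hG : Pro2 G) {d : ℕ} {g : Fin d → G} (hg : Sep g) (n : ℕ) :
    ∃ O : Subgroup G, ON O ∧ ∀ x ∈ O, ∀ f ∈ W G n, R x f = f := by
  have := finite_W hG hg n
  choose V hV hV' using fun f : W G n => W_le_LC n f.2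
  refine ⟨⨅ f, V f, ON_iInf V hV, fun x hx f hf => ?_⟩
  funext y
  exact hV' ⟨f, hf⟩ y x (Subgroup.mem_iInf.mp hx _)

/-- `x` is central of order two modulo the open normal subgroup `T` -/
structure Cen (x : G) (T : Subgroup G) : Prop where
  on : ON T
  notMem : x ∉ T
  comm : ∀ g, x * g * x⁻¹ * g⁻¹ ∈ T
  sq : x * x ∈ T

variable [IsTopologicalGroup G]

theorem ON_of_le {T T' : Subgroup G} (h : ON T) (hle : T ≤ T') (hn : T'.Normal) : ON T' :=
  ⟨hn, Subgroup.isOpen_mono hle h.2⟩

/-- a nontrivial element of a pro-2 group becomes central of order two in some finite quotient -/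
theorem exists_cen (hG : Pro2 G) {x : G} {T₀ : Subgroup G} (hT₀ : ON T₀) (hx : x ∉ T₀) :
    ∃ T, T₀ ≤ T ∧ Cen x T := by
  classical
  let S : Set ℕ := {n | ∃ T : Subgroup G, T₀ ≤ T ∧ T.Normal ∧ x ∉ T ∧ Nat.card (G ⧸ T) = n}
  have hS : ∃ n, n ∈ S := ⟨_, T₀, le_rfl, hT₀.1, hx, rfl⟩
  obtain ⟨T, hT0, hTn, hxT, hcard⟩ := Nat.find_spec hS
  have hTon : ON T := ON_of_le hT₀ hT0 hTn
  obtain ⟨k, hk⟩ := hG T hTon
  have hfin : Finite (G ⧸ T) := Nat.finite_of_card_ne_zero (by rw [hk]; positivity)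
  have hP : IsPGroup 2 (G ⧸ T) := IsPGroup.of_card hk
  -- maximality
  have hmax : ∀ T' : Subgroup G, T < T' → T'.Normal → x ∈ T' := by
    intro T' hlt hn
    by_contra hxT'
    have h1 : Nat.card (G ⧸ T') ∈ S := ⟨T', hT0.trans hlt.le, hn, hxT', rfl⟩
    have h2 := Nat.find_min' hS h1
    have hcard' : Nat.card (G ⧸ T) = Nat.find hS := hcard
    rw [← hcard'] at h2
    have h3 : T.index = T.relIndex T' * T'.index := (Subgroup.relIndex_mul_index hlt.le).symm
    have h4 : T.index ≤ T'.index := h2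
    have h5 : T.index ≠ 0 := by
      change Nat.card (G ⧸ T) ≠ 0
      rw [hk]; positivity
    have h6 : T.relIndex T' ≠ 1 := by
      rw [Ne, Subgroup.relIndex_eq_one]
      exact not_le_of_gt hlt
    have h7 : T.relIndex T' ≠ 0 := by
      intro h0
      rw [h0, zero_mul] at h3
      exact h5 h3
    have h8 : T'.index ≠ 0 := by
      intro h0
      rw [h0, mul_zero] at h3
      exact h5 h3
    have h9 : 2 ≤ T.relIndex T' := by omega
    have h10 : 2 * T'.index ≤ T.index := by
      rw [h3]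
      exact Nat.mul_le_mul_right _ h9
    omega
  have hnontriv : Nontrivial (G ⧸ T) := by
    refine ⟨⟨QuotientGroup.mk x, 1, ?_⟩⟩
    rw [Ne, QuotientGroup.eq_one_iff]
    exact hxT
  -- `x` lies in the preimage of every nontrivial central cyclic subgroup
  have hcen : ∀ c ∈ Subgroup.center (G ⧸ T), c ≠ 1 →
      (QuotientGroup.mk x : G ⧸ T) ∈ Subgroup.zpowers c := by
    intro c hc hc1
    have hcn : (Subgroup.zpowers c).Normal := by
      refine ⟨fun n hn y => ?_⟩
      obtain ⟨m, rfl⟩ := Subgroup.mem_zpowers_iff.mp hn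
      have h1 : c ^ m ∈ Subgroup.center (G ⧸ T) := Subgroup.zpow_mem _ hc m
      have h2 : y * c ^ m * y⁻¹ = c ^ m := by
        rw [Subgroup.mem_center_iff.mp h1 y]
        group
      rw [h2]
      exact hn
    let T' := (Subgroup.zpowers c).comap (QuotientGroup.mk' T)
    have hlt : T < T' := by
      obtain ⟨y, hy⟩ := QuotientGroup.mk_surjective c
      refine lt_of_le_of_ne ?_ ?_
      · intro t ht
        change QuotientGroup.mk t ∈ Subgroup.zpowers c
        rw [(QuotientGroup.eq_one_iff t).mpr ht]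
        exact one_mem _
      · intro h
        have h1 : y ∈ T' := by
          change QuotientGroup.mk y ∈ Subgroup.zpowers c
          rw [hy]
          exact Subgroup.mem_zpowers c
        rw [← h] at h1
        apply hc1
        rw [← hy]
        exact (QuotientGroup.eq_one_iff y).mpr h1
    exact hmax T' hlt (hcn.comap _)
  have hxc : (QuotientGroup.mk x : G ⧸ T) ∈ Subgroup.center (G ⧸ T) := by
    have := hP.center_nontrivial
    obtain ⟨⟨c, hc⟩, hc1⟩ := exists_ne (1 : Subgroup.center (G ⧸ T))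
    have hc1' : c ≠ 1 := fun h => hc1 (Subtype.ext h)
    obtain ⟨m, hm⟩ := Subgroup.mem_zpowers_iff.mp (hcen c hc hc1')
    rw [← hm]
    exact Subgroup.zpow_mem _ hc m
  have hx1 : (QuotientGroup.mk x : G ⧸ T) ≠ 1 := by
    rw [Ne, QuotientGroup.eq_one_iff]
    exact hxT
  refine ⟨T, hT0, hTon, hxT, fun g => ?_, ?_⟩
  · rw [← QuotientGroup.eq_one_iff]
    have h1 := Subgroup.mem_center_iff.mp hxc (QuotientGroup.mk g)
    change (QuotientGroup.mk x : G ⧸ T) * QuotientGroup.mk g * (QuotientGroup.mk x)⁻¹ *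
      (QuotientGroup.mk g)⁻¹ = 1
    rw [← h1]
    group
  · rw [← QuotientGroup.eq_one_iff]
    by_contra hne
    change ¬ (QuotientGroup.mk x : G ⧸ T) * QuotientGroup.mk x = 1 at hne
    have h1 := hcen _ (mul_mem hxc hxc) hne
    obtain ⟨m, hm⟩ := Subgroup.mem_zpowers_iff.mp h1
    set q : G ⧸ T := QuotientGroup.mk x with hq
    have h2 : q ^ (2 * m - 1) = 1 := by
      have : q ^ (2 * m) = q := by
        rw [zpow_mul, zpow_two]
        exact hm
      rw [zpow_sub, this, zpow_one, mul_inv_cancel]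
    obtain ⟨j, hj⟩ := hP q
    have h3 : (orderOf q : ℤ) ∣ 2 * m - 1 := orderOf_dvd_iff_zpow_eq_one.mpr h2
    have h4 : orderOf q ∣ 2 ^ j := orderOf_dvd_of_pow_eq_one hj
    obtain ⟨i, -, hi⟩ := (Nat.dvd_prime_pow Nat.prime_two).mp h4
    rcases Nat.eq_zero_or_pos i with rfl | hi0
    · rw [pow_zero, orderOf_eq_one_iff] at hi
      exact hx1 hi
    · rw [hi] at h3
      have h5 : (2 : ℤ) ∣ 2 * m - 1 := by
        refine dvd_trans ?_ h3
        push_cast
        exact dvd_pow_self 2 hi0.ne'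
      omega

/-- separation of a point from a closed normal subgroup by an open normal subgroup -/
theorem exists_on_of_closed (hB : Basis1 G) {N : Subgroup G} (hN : N.Normal)
    (hNc : IsClosed (N : Set G)) {x : G} (hx : x ∉ N) :
    ∃ T : Subgroup G, ON T ∧ N ≤ T ∧ x ∉ T := by
  have h1 : (fun v => x * v) ⁻¹' (N : Set G)ᶜ ∈ 𝓝 (1 : G) := by
    apply (hNc.isOpen_compl.preimage (continuous_const_mul x)).mem_nhds
    simpa using hx
  obtain ⟨V, hV, hVU⟩ := hB _ h1
  have hVn := hV.1
  refine ⟨N ⊔ V, ON_of_le hV le_sup_right inferInstance, le_sup_left, ?_⟩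
  intro hmem
  rw [Subgroup.mem_sup_of_normal_right] at hmem
  obtain ⟨n, hn, v, hv, hnv⟩ := hmem
  have h2 := hVU (V.inv_mem hv)
  apply h2
  change x * v⁻¹ ∈ N
  rw [← hnv]
  simpa using hn

/-- The sequence of deep independent elements. -/
theorem exists_sequence (hB : Basis1 G) (hG : Pro2 G) (hfin : Module.Finite (ZMod 2) (Hm G))
    (hH : Module.Finite (ZMod 2) (H2f G)) (hd : 9 ≤ finrank (ZMod 2) (Hm G))
    (hr : finrank (ZMod 2) (H2f G) ≤ 17) :
    ∃ (x : ℕ → G) (T : ℕ → Subgroup G), (∀ i, ∀ f ∈ W G (i + 3), R (x i) f = f) ∧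
      (∀ i, Cen (x i) (T i)) ∧ ∀ i j, i ≠ j → x j ∈ T i := by
  classical
  obtain ⟨g, χ, hg, hχ, hχg⟩ := exists_sep hfin
  let D := G × Subgroup G
  let P : (n : ℕ) → (Fin n → D) → D → Prop := fun n s y =>
    (∀ f ∈ W G (n + 3), R y.1 f = f) ∧ Cen y.1 y.2 ∧ ∀ j, y.1 ∈ (s j).2 ∧ (s j).1 ∈ y.2
  have key : ∀ (n : ℕ) (s : ℕ → D), (∀ i, i < n → P i (fun j => s j) (s i)) →
      ∃ y, P n (fun j => s j) y := by
    intro n s hs
    let x' : ℕ → G := fun i => if i < n then (s i).1 else 1
    have hx' : ∀ i, ∀ f ∈ W G (i + 3), R (x' i) f = f := by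
      intro i f hf
      by_cases hi : i < n
      · simp only [x', hi, if_true]
        exact (hs i hi).1 f hf
      · simp only [x', hi, if_false]
        exact R_one f
    have hinf := infinite_quotient hG hfin hH hd hr x' hx'
    obtain ⟨O, hO, hO'⟩ := exists_deep hG hg (n + 3)
    let O' : Subgroup G := O ⊓ ⨅ j : Fin n, (s j).2
    have hO'on : ON O' := hO.inf (ON_iInf _ fun j => (hs j j.2).2.1.on)
    have hnle : ¬ O' ≤ NC x' := by
      intro hle
      obtain ⟨k, hk⟩ := hG O' hO'on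
      have h1 : (NC x').index ≠ 0 := by
        have h2 : O'.index ≠ 0 := by
          change Nat.card (G ⧸ O') ≠ 0
          rw [hk]; positivity
        exact fun h0 => h2 (by
          have := Subgroup.index_dvd_of_le hle
          rw [h0] at this
          exact Nat.eq_zero_of_zero_dvd this)
      have : Finite (G ⧸ NC x') := Nat.finite_of_card_ne_zero h1
      exact not_finite (G ⧸ NC x')
    obtain ⟨y, hyO, hyN⟩ := SetLike.not_le_iff_exists.mp hnle
    obtain ⟨T₀, hT₀, hNT₀, hyT₀⟩ := exists_on_of_closed hB (NC_normal x')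
      (Subgroup.isClosed_topologicalClosure _) hyN
    obtain ⟨T, hT0T, hT⟩ := exists_cen hG hT₀ hyT₀
    refine ⟨(y, T), fun f hf => hO' y hyO.1 f hf, hT, fun j => ⟨?_, ?_⟩⟩
    · exact Subgroup.mem_iInf.mp hyO.2 j
    · apply hT0T
      apply hNT₀
      have := mem_NC x' j
      simp only [x', j.2, if_true] at this
      exact this
  obtain ⟨f, hf⟩ := exists_seq P key
  refine ⟨fun n => (f n).1, fun n => (f n).2, fun i => (hf i).1, fun i => (hf i).2.1, ?_⟩
  intro i j hij
  rcases lt_or_gt_of_ne hij with h | h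
  · exact ((hf j).2.2 ⟨i, h⟩).1
  · exact ((hf i).2.2 ⟨j, h⟩).2

end Pool.Agent.H718R3
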