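import Mathlib
import Pool.Agent.H718R3.Select

/-!
# The quotient has infinite second cohomology on every open subgroup

Written by helper718.
-/

set_option autoImplicit false

namespace Pool.Agent.H718R3

open Module Topology

section general

theorem LC_comp {A B : Type*} [Group A] [TopologicalSpace A] [Group B] [TopologicalSpace B]
    (ρ : A →* B) (hρ : Continuous ρ) {f : B → ZMod 2} (hf : f ∈ LC B) :
    (fun a => f (ρ a)) ∈ LC A := by
  obtain ⟨V, hV, hfV⟩ := hf
  refine ⟨V.comap ρ, ⟨hV.1.comap ρ, hV.2.preimage hρ⟩, fun g v hv => ?_⟩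
  change f (ρ (g * v)) = f (ρ g)
  rw [map_mul]
  exact hfV _ _ hv

end general

variable {G : Type*} [Group G] [TopologicalSpace G]

section finite

variable [IsTopologicalGroup G]

/-- Open subgroups have finitely many locally constant homomorphisms to `F_2`. -/
theorem finite_Hm_open (hB : Basis1 G) (hG : Pro2 G) {d : ℕ} {g : Fin d → G} (hg : Sep g)
    (H : Subgroup G) (hH : IsOpen (H : Set G)) : Finite (Hm H) := by
  classical
  let Γ : Subgroup G := Subgroup.closure (Set.range g)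
  have hΓ : Group.FG Γ := Group.closure_finite_fg (Set.range g)
  obtain ⟨V₀, hV₀, hV₀H⟩ := hB (H : Set G) (hH.mem_nhds H.one_mem)
  have hidx : H.index ≠ 0 := by
    obtain ⟨k, hk⟩ := hG V₀ hV₀
    intro h0
    have h1 := Subgroup.index_dvd_of_le (show V₀ ≤ H from hV₀H)
    rw [h0] at h1
    have h2 : V₀.index = 2 ^ k := hk
    have h3 := Nat.eq_zero_of_zero_dvd h1
    rw [h2] at h3
    exact absurd h3 (by positivity)
  have hidx2 : (H.subgroupOf Γ).FiniteIndex :=
    ⟨fun h0 => hidx (Subgroup.index_eq_zero_of_relIndex_eq_zero h0)⟩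
  have hfg : Group.FG (H.subgroupOf Γ) := Subgroup.fg_of_index_ne_zero _
  obtain ⟨S, hS⟩ := hfg.out
  let F : Hm H → (S → ZMod 2) := fun f s => f.1 ⟨s.1.1.1, s.1.2⟩
  refine Finite.of_injective F ?_
  intro f f' hff
  -- the difference vanishes on `H ∩ Γ`
  have h1 : ∀ γ : H.subgroupOf Γ, f.1 ⟨γ.1.1, γ.2⟩ = f'.1 ⟨γ.1.1, γ.2⟩ := by
    let K : Subgroup (H.subgroupOf Γ) :=
      { carrier := {γ | f.1 ⟨γ.1.1, γ.2⟩ = f'.1 ⟨γ.1.1, γ.2⟩}
        mul_mem' := by
          intro a b ha hb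
          have e1 := f.2.2 ⟨a.1.1, a.2⟩ ⟨b.1.1, b.2⟩
          have e2 := f'.2.2 ⟨a.1.1, a.2⟩ ⟨b.1.1, b.2⟩
          change f.1 (⟨a.1.1, a.2⟩ * ⟨b.1.1, b.2⟩) = f'.1 (⟨a.1.1, a.2⟩ * ⟨b.1.1, b.2⟩)
          rw [e1, e2]
          exact congrArg₂ (· + ·) ha hb
        one_mem' := by
          change f.1 1 = f'.1 1
          rw [Hm_one f.2, Hm_one f'.2]
        inv_mem' := by
          intro a ha
          have e1 := f.2.2 ⟨a.1.1, a.2⟩ ⟨a.1.1, a.2⟩⁻¹
          have e2 := f'.2.2 ⟨a.1.1, a.2⟩ ⟨a.1.1, a.2⟩⁻¹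
          rw [mul_inv_cancel, Hm_one f.2] at e1
          rw [mul_inv_cancel, Hm_one f'.2] at e2
          have ha' : f.1 ⟨a.1.1, a.2⟩ = f'.1 ⟨a.1.1, a.2⟩ := ha
          change f.1 (⟨a.1.1, a.2⟩)⁻¹ = f'.1 (⟨a.1.1, a.2⟩)⁻¹
          rw [ha'] at e1
          exact add_left_cancel (e1.symm.trans e2) }
    have hK : (⊤ : Subgroup (H.subgroupOf Γ)) ≤ K := by
      rw [← hS, Subgroup.closure_le]
      intro s hs
      exact congrFun hff ⟨s, hs⟩
    intro γ
    exact hK trivial
  have hD : f.1 - f'.1 ∈ LC H := sub_mem f.2.1 f'.2.1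
  obtain ⟨V', hV', hDV'⟩ := hD
  have hopen : IsOpen ((fun u : H => (u : G)) '' (V' : Set H)) :=
    hH.isOpenMap_subtype_val _ hV'.2
  obtain ⟨V'', hV'', hV''V'⟩ := hB _ (hopen.mem_nhds ⟨1, V'.one_mem, rfl⟩)
  have hV''n := hV''.1
  have htop : Γ ⊔ V'' = ⊤ := eq_top_of_open hG hg (Γ ⊔ V'') V'' hV'' le_sup_right
    (fun i => (le_sup_left : Γ ≤ Γ ⊔ V'') (Subgroup.subset_closure ⟨i, rfl⟩))
  apply Subtype.ext
  funext u
  have hu : (u : G) ∈ Γ ⊔ V'' := by rw [htop]; trivial
  rw [Subgroup.mem_sup_of_normal_right] at hu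
  obtain ⟨γ, hγ, v, hv, hγv⟩ := hu
  obtain ⟨v', hv', hv'v⟩ := hV''V' hv
  have hv'v' : (v' : G) = v := hv'v
  have hγH : γ ∈ H := by
    have : γ = (u : G) * (v' : G)⁻¹ := by rw [hv'v', ← hγv]; group
    rw [this]
    exact H.mul_mem u.2 (H.inv_mem v'.2)
  have hu2 : u = ⟨γ, hγH⟩ * v' := by
    apply Subtype.ext
    rw [Subgroup.coe_mul, hv'v', hγv]
  have h2 := hDV' ⟨γ, hγH⟩ v' hv'
  rw [← hu2] at h2
  have h3 := h1 ⟨⟨γ, hγ⟩, hγH⟩
  simp only [Pi.sub_apply] at h2
  have h4 : f.1 ⟨γ, hγH⟩ - f'.1 ⟨γ, hγH⟩ = 0 := sub_eq_zero.mpr h3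
  rw [h4] at h2
  exact sub_eq_zero.mp h2

end finite

section phi

omit [TopologicalSpace G] in

/-- coboundary -/
def dphi (φ : G → ZMod 2) (g h : G) : ZMod 2 := φ g + φ h - φ (g * h)

/-- the subgroup `T ∪ xT` -/
def MM (x : G) (T : Subgroup G) : Set G := {n | n ∈ T ∨ x⁻¹ * n ∈ T}

theorem exists_phi {x : G} {T : Subgroup G} (h : Cen x T) :
    ∃ φ : G → ZMod 2, Inv T φ ∧ ∀ y, φ (y * x) = φ y + 1 := by
  classical
  have hTn := h.on.1
  let C := G ⧸ T
  let c : C := QuotientGroup.mk x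
  have hc1 : c ≠ 1 := by
    rw [Ne, QuotientGroup.eq_one_iff]
    exact h.notMem
  have hc2 : c * c = 1 := by
    change (QuotientGroup.mk (x * x) : G ⧸ T) = 1
    rw [QuotientGroup.eq_one_iff]
    exact h.sq
  let rep : C → C := fun q => (QuotientGroup.mk q : C ⧸ Subgroup.zpowers c).out
  have hrep : ∀ q, rep (q * c) = rep q := by
    intro q
    change (QuotientGroup.mk (q * c) : C ⧸ Subgroup.zpowers c).out = _
    congr 1
    rw [QuotientGroup.eq]
    have : (q * c)⁻¹ * q = c⁻¹ := by group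
    rw [this]
    exact inv_mem (Subgroup.mem_zpowers c)
  have hz : ∀ m ∈ Subgroup.zpowers c, m = 1 ∨ m = c := by
    intro m hm
    obtain ⟨k, rfl⟩ := Subgroup.mem_zpowers_iff.mp hm
    have hc2' : c ^ (2 : ℤ) = 1 := by rw [zpow_two, hc2]
    rcases Int.even_or_odd' k with ⟨l, hl | hl⟩
    · left; rw [hl, zpow_mul, hc2', one_zpow]
    · right; rw [hl, zpow_add, zpow_mul, hc2', one_zpow, one_mul, zpow_one]
  have hrep2 : ∀ q, rep q = q ∨ rep q = q * c := by
    intro q
    obtain ⟨⟨m, hm⟩, hm'⟩ := QuotientGroup.mk_out_eq_mul (Subgroup.zpowers c) q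
    have hm'' : rep q = q * m := hm'
    rcases hz m hm with rfl | rfl
    · left; rw [hm'', mul_one]
    · right; exact hm''
  let φ0 : C → ZMod 2 := fun q => if rep q = q then 0 else 1
  have h11 : (1 : ZMod 2) + 1 = 0 := by decide
  have hφ0 : ∀ q, φ0 (q * c) = φ0 q + 1 := by
    intro q
    have hne : q * c ≠ q := by
      intro h0
      exact hc1 (mul_eq_left.mp h0)
    simp only [φ0, hrep]
    rcases hrep2 q with h0 | h0
    · rw [h0, if_neg (Ne.symm hne), if_pos rfl, zero_add]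
    · rw [h0, if_pos rfl, if_neg hne, h11]
  refine ⟨fun y => φ0 (QuotientGroup.mk y), fun y t ht => ?_, fun y => ?_⟩
  · change φ0 (QuotientGroup.mk (y * t)) = φ0 (QuotientGroup.mk y)
    congr 1
    rw [QuotientGroup.eq]
    have : (y * t)⁻¹ * y = t⁻¹ := by group
    rw [this]
    exact inv_mem ht
  · exact hφ0 (QuotientGroup.mk y)

variable {x : G} {T : Subgroup G} {φ : G → ZMod 2}

omit [TopologicalSpace G] in
theorem phi_right (hφ : Inv T φ) (hφx : ∀ y, φ (y * x) = φ y + 1) {n : G} (hn : n ∈ MM x T)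
    (y : G) : φ (y * n) = φ y + (φ n - φ 1) := by
  rcases hn with hn | hn
  · have h1 := hφ 1 n hn
    rw [one_mul] at h1
    rw [hφ y n hn, h1]; ring
  · have h1 : φ n = φ 1 + 1 := by
      have e : n = 1 * x * (x⁻¹ * n) := by group
      conv_lhs => rw [e]
      rw [hφ _ _ hn, hφx]
    have h2 : φ (y * n) = φ y + 1 := by
      have e : y * n = y * x * (x⁻¹ * n) := by group
      conv_lhs => rw [e]
      rw [hφ _ _ hn, hφx]
    rw [h1, h2]; ring

theorem MM_conj (h : Cen x T) {n : G} (hn : n ∈ MM x T) (y : G) :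
    y⁻¹ * n * y ∈ MM x T := by
  have hTn := h.on.1
  rcases hn with hn | hn
  · left
    have := hTn.conj_mem n hn y⁻¹
    simpa using this
  · right
    have h1 := hTn.conj_mem _ hn y⁻¹
    have h2 := h.comm y⁻¹
    have h3 := hTn.conj_mem _ h2 x⁻¹
    have h4 : x⁻¹ * (y⁻¹ * n * y) = (x⁻¹ * (x * y⁻¹ * x⁻¹ * y⁻¹⁻¹) * x⁻¹⁻¹)⁻¹ *
        ((x⁻¹ * (x * y⁻¹ * x⁻¹ * y⁻¹⁻¹) * x⁻¹⁻¹)) * (x⁻¹ * y⁻¹ * n * y) := by group
    have h5 : x⁻¹ * y⁻¹ * n * y = (x⁻¹ * y⁻¹ * x * y) * (y⁻¹ * (x⁻¹ * n) * y) := by group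
    have h6 : x⁻¹ * y⁻¹ * x * y ∈ T := by
      have h7 := h.comm y⁻¹
      -- `x y⁻¹ x⁻¹ y ∈ T`
      have h8 := hTn.conj_mem _ (inv_mem h7) x⁻¹
      have h9 : x⁻¹ * (x * y⁻¹ * x⁻¹ * y⁻¹⁻¹)⁻¹ * x⁻¹⁻¹ = x⁻¹ * y⁻¹ * x * y := by group
      rwa [h9] at h8
    have h10 : x⁻¹ * (y⁻¹ * n * y) = x⁻¹ * y⁻¹ * n * y := by group
    rw [h10, h5]
    refine T.mul_mem h6 ?_
    simpa using h1

theorem phi_conj (h : Cen x T) (hφ : Inv T φ) (hφx : ∀ y, φ (y * x) = φ y + 1) {n : G}
    (hn : n ∈ MM x T) (y : G) : φ (y⁻¹ * n * y) = φ n := by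
  have hTn := h.on.1
  rcases hn with hn | hn
  · have h1 : y⁻¹ * n * y ∈ T := by
      have := hTn.conj_mem n hn y⁻¹
      simpa using this
    have e1 := hφ 1 _ h1
    have e2 := hφ 1 _ hn
    rw [one_mul] at e1 e2
    rw [e1, e2]
  · have h1 : x⁻¹ * (y⁻¹ * n * y) ∈ T := by
      rcases MM_conj h (Or.inr hn) y with h2 | h2
      · exfalso
        -- then `n ∈ T`, so `x ∈ T`
        apply h.notMem
        have h3 : n ∈ T := by
          have := hTn.conj_mem _ h2 y
          have e : y * (y⁻¹ * n * y) * y⁻¹ = n := by group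
          rwa [e] at this
        have h4 := T.mul_mem h3 (inv_mem hn)
        have e : n * (x⁻¹ * n)⁻¹ = x := by group
        rwa [e] at h4
      · exact h2
    have e1 : φ n = φ 1 + 1 := by
      have e : n = 1 * x * (x⁻¹ * n) := by group
      conv_lhs => rw [e]
      rw [hφ _ _ hn, hφx]
    have e2 : φ (y⁻¹ * n * y) = φ 1 + 1 := by
      have e : y⁻¹ * n * y = 1 * x * (x⁻¹ * (y⁻¹ * n * y)) := by group
      conv_lhs => rw [e]
      rw [hφ _ _ h1, hφx]
    rw [e1, e2]

theorem dphi_inv (h : Cen x T) (hφ : Inv T φ) (hφx : ∀ y, φ (y * x) = φ y + 1) {n m : G}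
    (hn : n ∈ MM x T) (hm : m ∈ MM x T) (a b : G) :
    dphi φ (a * n) (b * m) = dphi φ a b := by
  have e1 := phi_right hφ hφx hn a
  have e2 := phi_right hφ hφx hm b
  have e3 : a * n * (b * m) = a * b * (b⁻¹ * n * b) * m := by group
  have e4 := phi_right hφ hφx hm (a * b * (b⁻¹ * n * b))
  have e5 := phi_right hφ hφx (MM_conj h hn b) (a * b)
  have e6 := phi_conj h hφ hφx hn b
  unfold dphi
  rw [e3, e4, e5, e1, e2, e6]
  ring

omit [TopologicalSpace G] in
theorem dphi_cocycle (φ : G → ZMod 2) (g h l : G) :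
    dphi φ g h + dphi φ (g * h) l = dphi φ h l + dphi φ g (h * l) := by
  unfold dphi
  rw [mul_assoc]
  ring

end phi

section main

variable [IsTopologicalGroup G]

theorem NC_le_MM {x : ℕ → G} {T : ℕ → Subgroup G} (hC : ∀ i, Cen (x i) (T i))
    (hxT : ∀ i j, i ≠ j → x j ∈ T i) (i : ℕ) {n : G} (hn : n ∈ NC x) : n ∈ MM (x i) (T i) := by
  have hTn := (hC i).on.1
  let M : Subgroup G :=
    { carrier := MM (x i) (T i)
      one_mem' := Or.inl (T i).one_mem
      mul_mem' := by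
        rintro a b (ha | ha) (hb | hb)
        · exact Or.inl ((T i).mul_mem ha hb)
        · right
          have h1 := hTn.conj_mem _ ha (x i)⁻¹
          have e : (x i)⁻¹ * (a * b) = ((x i)⁻¹ * a * (x i)⁻¹⁻¹) * ((x i)⁻¹ * b) := by group
          rw [e]
          exact (T i).mul_mem h1 hb
        · right
          rw [← mul_assoc]
          exact (T i).mul_mem ha hb
        · left
          -- `a = x a'`, `b = x b'`
          have h1 := hTn.conj_mem _ hb (x i)⁻¹
          have h2 := hTn.conj_mem _ ha (x i)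
          have e : a * b = (x i * ((x i)⁻¹ * a) * (x i)⁻¹) * (x i * x i) * ((x i)⁻¹ * b) := by
            group
          rw [e]
          exact (T i).mul_mem ((T i).mul_mem h2 (hC i).sq) hb
      inv_mem' := by
        rintro a (ha | ha)
        · exact Or.inl ((T i).inv_mem ha)
        · right
          have h1 := (T i).inv_mem ha
          have h2 := (T i).inv_mem (hC i).sq
          have h3 := hTn.conj_mem _ h1 (x i)⁻¹
          have e : (x i)⁻¹ * a⁻¹ = ((x i)⁻¹ * ((x i)⁻¹ * a)⁻¹ * (x i)⁻¹⁻¹) * (x i * x i)⁻¹ := by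
            group
          rw [e]
          exact (T i).mul_mem h3 h2 }
  have hTM : T i ≤ M := fun t ht => Or.inl ht
  have hMn : M.Normal := by
    refine ⟨fun m hm y => ?_⟩
    have := MM_conj (hC i) hm y⁻¹
    rw [inv_inv] at this
    exact this
  have hMo : IsOpen (M : Set G) := Subgroup.isOpen_mono hTM (hC i).on.2
  have hMc : IsClosed (M : Set G) := Subgroup.isClosed_of_isOpen M hMo
  have h1 : Subgroup.normalClosure (Set.range x) ≤ M := by
    apply Subgroup.normalClosure_le_normal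
    rintro _ ⟨j, rfl⟩
    by_cases hij : i = j
    · subst hij
      right
      rw [inv_mul_cancel]
      exact (T i).one_mem
    · exact Or.inl (hxT i j hij)
  exact Subgroup.topologicalClosure_minimal _ h1 hMc hn

/-- The quotient by the closed normal subgroup generated by independent elements has infinite
`H²` on each of its open subgroups. -/
theorem infinite_H2 (hB : Basis1 G) (hG : Pro2 G) (hfin : Module.Finite (ZMod 2) (Hm G))
    {x : ℕ → G} {T : ℕ → Subgroup G} (hC : ∀ i, Cen (x i) (T i))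
    (hxT : ∀ i j, i ≠ j → x j ∈ T i) {Q : Type*} [Group Q] [TopologicalSpace Q]
    (π : G →* Q) (hπ : Continuous π) (hπo : IsOpenMap π) (hsurj : Function.Surjective π)
    (hker : π.ker = NC x) (U : Subgroup Q) (hU : IsOpen (U : Set Q)) :
    ¬ Module.Finite (ZMod 2) (H2f U) := by
  classical
  intro hfinite
  obtain ⟨g, χ, hg, -, -⟩ := exists_sep hfin
  choose φ hφ hφx using fun i => exists_phi (hC i)
  choose σ hσ using hsurj
  have hMM : ∀ i, ∀ n ∈ π.ker, n ∈ MM (x i) (T i) := fun i n hn =>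
    NC_le_MM hC hxT i (by rw [← hker]; exact hn)
  -- descent
  let cQ : ℕ → Q → Q → ZMod 2 := fun i a b => dphi (φ i) (σ a) (σ b)
  have hcQ : ∀ i (a b : G), cQ i (π a) (π b) = dphi (φ i) a b := by
    intro i a b
    have ha : σ (π a) = a * (a⁻¹ * σ (π a)) := by group
    have hb : σ (π b) = b * (b⁻¹ * σ (π b)) := by group
    have ha' : a⁻¹ * σ (π a) ∈ π.ker := by
      rw [MonoidHom.mem_ker, map_mul, hσ, map_inv, inv_mul_cancel]
    have hb' : b⁻¹ * σ (π b) ∈ π.ker := by
      rw [MonoidHom.mem_ker, map_mul, hσ, map_inv, inv_mul_cancel]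
    change dphi (φ i) (σ (π a)) (σ (π b)) = _
    rw [ha, hb]
    exact dphi_inv (hC i) (hφ i) (hφx i) (hMM i _ ha') (hMM i _ hb') a b
  have hcmem : ∀ i, (fun a b : U => cQ i a b) ∈ Z2f U := by
    intro i
    refine ⟨⟨((T i).map π).subgroupOf U, ⟨?_, ?_⟩, ?_⟩, ?_⟩
    · have : ((T i).map π).Normal := (hC i).on.1.map π (fun q => ⟨σ q, hσ q⟩)
      infer_instance
    · have h1 : IsOpen (((T i).map π : Subgroup Q) : Set Q) := by
        rw [Subgroup.coe_map]
        exact hπo _ (hC i).on.2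
      exact h1.preimage continuous_subtype_val
    · rintro a b v ⟨t, ht, htv⟩ w ⟨t', ht', htw⟩
      have hv : (v : Q) = π t := htv.symm
      have hw : (w : Q) = π t' := htw.symm
      have ha : (a : Q) = π (σ a) := (hσ _).symm
      have hb : (b : Q) = π (σ b) := (hσ _).symm
      change cQ i ((a : Q) * v) ((b : Q) * w) = cQ i a b
      rw [hv, hw, ha, hb, ← map_mul, ← map_mul, hcQ, hcQ]
      exact dphi_inv (hC i) (hφ i) (hφx i) (Or.inl ht) (Or.inl ht') _ _
    · intro a b c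
      have ha : (a : Q) = π (σ a) := (hσ _).symm
      have hb : (b : Q) = π (σ b) := (hσ _).symm
      have hc : (c : Q) = π (σ c) := (hσ _).symm
      change cQ i a b + cQ i (a * b : Q) c = cQ i b c + cQ i a (b * c : Q)
      rw [ha, hb, hc, ← map_mul, ← map_mul, hcQ, hcQ, hcQ, hcQ]
      exact dphi_cocycle _ _ _ _
  let Λ : (ℕ →₀ ZMod 2) →ₗ[ZMod 2] H2f U :=
    Finsupp.linearCombination (ZMod 2) (fun i => Submodule.Quotient.mk ⟨_, hcmem i⟩)
  -- elements of the kernel
  have hkerΛ : ∀ ε ∈ LinearMap.ker Λ, ∃ u ∈ LC U, ∀ a b : U,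
      (ε.sum fun i e => e * cQ i a b) = u a + u b - u (a * b) := by
    intro ε hε
    rw [LinearMap.mem_ker] at hε
    have h1 : Λ ε = Submodule.Quotient.mk (ε.sum fun i e => e • (⟨_, hcmem i⟩ : Z2f U)) := by
      rw [← Submodule.mkQ_apply, map_finsuppSum]
      simp only [map_smul, Submodule.mkQ_apply]
      rfl
    rw [h1, Submodule.Quotient.mk_eq_zero] at hε
    obtain ⟨u, hu, hu'⟩ := hε
    refine ⟨u, hu, fun a b => ?_⟩
    rw [← hu' a b]
    simp only [Finsupp.sum, Submodule.subtype_apply, Submodule.coe_sum, Submodule.coe_smul,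
      Finset.sum_apply, Pi.smul_apply, smul_eq_mul]
  choose u hu hu' using hkerΛ
  -- the open subgroup upstairs
  let Ũ : Subgroup G := U.comap π
  have hŨ : IsOpen (Ũ : Set G) := hU.preimage hπ
  have hfinU : Finite (Hm Ũ) := finite_Hm_open hB hG hg Ũ hŨ
  let πU : Ũ →* U := (π.comp Ũ.subtype).codRestrict U (fun a => a.2)
  have hπU : Continuous πU := (hπ.comp continuous_subtype_val).subtype_mk _
  let ψ : LinearMap.ker Λ → (Ũ → ZMod 2) := fun ε a =>
    (ε.1.sum fun i e => e * φ i a) - u ε.1 ε.2 (πU a)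
  have hψ : ∀ ε, ψ ε ∈ Hm Ũ := by
    intro ε
    refine ⟨?_, ?_⟩
    · have h1 : (fun a : Ũ => ε.1.sum fun i e => e * φ i a) =
          ∑ i ∈ ε.1.support, ε.1 i • (fun a : Ũ => φ i a) := by
        funext a
        simp [Finsupp.sum]
      have h2 : (fun a : Ũ => ε.1.sum fun i e => e * φ i a) ∈ LC Ũ := by
        rw [h1]
        refine sum_mem fun i _ => Submodule.smul_mem _ _ ?_
        exact LC_comp Ũ.subtype continuous_subtype_val ⟨T i, (hC i).on, hφ i⟩
      exact sub_mem h2 (LC_comp πU hπU (hu ε.1 ε.2))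
    · intro a b
      have h1 := hu' ε.1 ε.2 (πU a) (πU b)
      have h2 : ∀ i, cQ i (πU a) (πU b) = φ i a + φ i b - φ i (a * b : G) := fun i =>
        hcQ i a b
      simp only [h2] at h1
      simp only [ψ]
      rw [map_mul πU]
      have h3 : (ε.1.sum fun i e => e * (φ i a + φ i b - φ i (a * b : G))) =
          (ε.1.sum fun i e => e * φ i a) + (ε.1.sum fun i e => e * φ i b) -
            (ε.1.sum fun i e => e * φ i (a * b : G)) := by
        simp only [Finsupp.sum]
        rw [← Finset.sum_add_distrib, ← Finset.sum_sub_distrib]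
        exact Finset.sum_congr rfl fun i _ => by ring
      rw [h3] at h1
      change (ε.1.sum fun i e => e * φ i (a * b : G)) - _ = _
      linear_combination -h1
  have hψx : ∀ (ε : LinearMap.ker Λ) (j : ℕ) (hj : x j ∈ Ũ), ψ ε ⟨x j, hj⟩ = ε.1 j := by
    intro ε j hj
    have h0 := Hm_one (hψ ε)
    have hxj : πU ⟨x j, hj⟩ = 1 := by
      apply Subtype.ext
      change π (x j) = 1
      rw [← MonoidHom.mem_ker, hker]
      exact mem_NC x j
    simp only [ψ] at h0 ⊢
    rw [map_one] at h0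
    rw [hxj]
    have h1 : ∀ i, φ i (x j) = φ i 1 + if i = j then 1 else 0 := by
      intro i
      split_ifs with hij
      · subst hij
        have := hφx i 1
        rwa [one_mul] at this
      · have := hφ i 1 (x j) (hxT i j hij)
        rw [one_mul] at this
        rw [this, add_zero]
    have h2 : (ε.1.sum fun i e => e * φ i (x j)) =
        (ε.1.sum fun i e => e * φ i ((1 : Ũ) : G)) + ε.1 j := by
      simp only [h1, Finsupp.sum, mul_add, Finset.sum_add_distrib, OneMemClass.coe_one]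
      congr 1
      simp only [mul_ite, mul_one, mul_zero, Finset.sum_ite_eq', Finsupp.mem_support_iff]
      split_ifs with h
      · rfl
      · push Not at h
        exact h.symm
    change (ε.1.sum fun i e => e * φ i (x j)) - _ = _
    rw [h2]
    linear_combination h0
  have hinj : Function.Injective (fun ε : LinearMap.ker Λ => (⟨ψ ε, hψ ε⟩ : Hm Ũ)) := by
    intro ε ε' h
    apply Subtype.ext
    ext j
    have hj : x j ∈ Ũ := by
      change π (x j) ∈ U
      have : π (x j) = 1 := by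
        rw [← MonoidHom.mem_ker, hker]
        exact mem_NC x j
      rw [this]
      exact U.one_mem
    rw [← hψx ε j hj, ← hψx ε' j hj]
    exact congrFun (congrArg Subtype.val h) _
  have hkerfin : Finite (LinearMap.ker Λ) := Finite.of_injective _ hinj
  have hH2fin : Finite (H2f U) := Module.finite_of_finite (ZMod 2)
  have hrfin : Finite (LinearMap.range Λ) := inferInstance
  have hqfin : Finite ((ℕ →₀ ZMod 2) ⧸ LinearMap.ker Λ) :=
    Finite.of_equiv _ Λ.quotKerEquivRange.symm.toEquiv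
  have hall : Finite (ℕ →₀ ZMod 2) := by
    have h1 : Module.Finite (ZMod 2) (LinearMap.ker Λ) := inferInstance
    have h2 : Module.Finite (ZMod 2) ((ℕ →₀ ZMod 2) ⧸ LinearMap.ker Λ) := inferInstance
    have h3 : Module.Finite (ZMod 2) (ℕ →₀ ZMod 2) :=
      Module.Finite.of_submodule_quotient (LinearMap.ker Λ)
    exact Module.finite_of_finite (ZMod 2)
  exact not_finite (ℕ →₀ ZMod 2)

end main

end Pool.Agent.H718R3
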