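import Mathlib
import Pool.Agent.H718R3.Infinite

/-! Locally constant functions on compact groups. -/

set_option autoImplicit false

namespace Pool.Agent.H718R3

open Topology

variable {G : Type*} [Group G] [TopologicalSpace G] [IsTopologicalGroup G]

/-- on a compact group with a basis of open normal subgroups, locally constant functions are
exactly the functions invariant under an open normal subgroup -/
theorem mem_LC_iff [CompactSpace G] (hB : Basis1 G) (f : G → ZMod 2) :
    f ∈ LC G ↔ IsLocallyConstant f := by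
  constructor
  · rintro ⟨V, hV, hf⟩
    rw [IsLocallyConstant.iff_exists_open]
    intro g
    refine ⟨{y | g⁻¹ * y ∈ V}, ?_, ?_, ?_⟩
    · exact hV.2.preimage (continuous_const.mul continuous_id)
    · simp [V.one_mem]
    · intro y hy
      have := hf g _ hy
      rwa [mul_inv_cancel_left] at this
  · intro hf
    have h1 : ∀ g : G, ∃ V : Subgroup G, ON V ∧ ∀ v ∈ V, f (g * v) = f g := by
      intro g
      have h2 : {v : G | f (g * v) = f g} ∈ 𝓝 (1 : G) := by
        have h3 : ∀ᶠ y in 𝓝 g, f y = f g := IsLocallyConstant.eventually_eq hf g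
        have h4 : Filter.Tendsto (fun v : G => g * v) (𝓝 1) (𝓝 g) := by
          have : Continuous fun v : G => g * v := continuous_const.mul continuous_id
          have h5 := this.tendsto 1
          rwa [mul_one] at h5
        exact h4 h3
      obtain ⟨V, hV, hVs⟩ := hB _ h2
      exact ⟨V, hV, fun v hv => hVs hv⟩
    choose V hV hVf using h1
    obtain ⟨t, ht⟩ := isCompact_univ.elim_nhds_subcover (fun g : G => {y | g⁻¹ * y ∈ V g}) (by
      intro g _
      apply IsOpen.mem_nhds
      · exact (hV g).2.preimage (continuous_const.mul continuous_id)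
      · simp [(V g).one_mem])
    refine ⟨⨅ g : t, V g, ON_iInf _ fun g => hV g, ?_⟩
    intro y v hv
    have hy : y ∈ ⋃ g ∈ t, {y | g⁻¹ * y ∈ V g} := ht.2 (Set.mem_univ y)
    rw [Set.mem_iUnion₂] at hy
    obtain ⟨g, hg, hgy⟩ := hy
    have hvg : v ∈ V g := by
      have := (Subgroup.mem_iInf.mp hv) ⟨g, hg⟩
      exact this
    have e1 := hVf g _ hgy
    have e2 := hVf g _ ((V g).mul_mem hgy hvg)
    rw [mul_inv_cancel_left] at e1
    rw [← mul_assoc, mul_inv_cancel_left] at e2
    rw [e1, e2]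

omit [IsTopologicalGroup G] in
theorem Basis1.prod (hB : Basis1 G) : Basis1 (G × G) := by
  intro U hU
  rw [Prod.one_eq_mk, nhds_prod_eq, Filter.mem_prod_iff] at hU
  obtain ⟨U1, h1, U2, h2, h3⟩ := hU
  obtain ⟨V1, hV1, hV1'⟩ := hB U1 h1
  obtain ⟨V2, hV2, hV2'⟩ := hB U2 h2
  have := hV1.1
  have := hV2.1
  refine ⟨V1.prod V2, ⟨Subgroup.prod_normal V1 V2, ?_⟩, ?_⟩
  · rw [Subgroup.coe_prod]
    exact hV1.2.prod hV2.2
  · rw [Subgroup.coe_prod]
    exact (Set.prod_mono hV1' hV2').trans h3

omit [IsTopologicalGroup G] in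
theorem Basis1.sub (hB : Basis1 G) (U : Subgroup G) : Basis1 U := by
  intro S hS
  rw [nhds_subtype_eq_comap, Filter.mem_comap] at hS
  obtain ⟨T, hT, hTS⟩ := hS
  obtain ⟨V, hV, hVT⟩ := hB T hT
  have := hV.1
  refine ⟨V.subgroupOf U, ⟨inferInstance, hV.2.preimage continuous_subtype_val⟩, ?_⟩
  intro x hx
  exact hTS (hVT hx)

/-- two variables -/
theorem inv_two_iff [CompactSpace G] (hB : Basis1 G) (c : G → G → ZMod 2) :
    (∃ V : Subgroup G, ON V ∧ ∀ g h, ∀ v ∈ V, ∀ w ∈ V, c (g * v) (h * w) = c g h) ↔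
      IsLocallyConstant (fun x : G × G => c x.1 x.2) := by
  rw [← mem_LC_iff hB.prod]
  constructor
  · rintro ⟨V, hV, hc⟩
    have := hV.1
    refine ⟨V.prod V, ⟨Subgroup.prod_normal V V, ?_⟩, ?_⟩
    · rw [Subgroup.coe_prod]
      exact hV.2.prod hV.2
    · rintro ⟨g, h⟩ ⟨v, w⟩ ⟨hv, hw⟩
      exact hc g h v hv w hw
  · rintro ⟨V, hV, hc⟩
    have hn := hV.1
    refine ⟨V.comap (MonoidHom.inl G G) ⊓ V.comap (MonoidHom.inr G G), ON.inf
      ⟨inferInstance, hV.2.preimage (continuous_id.prodMk continuous_const)⟩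
      ⟨inferInstance, hV.2.preimage (continuous_const.prodMk continuous_id)⟩, ?_⟩
    rintro g h v ⟨hv, -⟩ w ⟨-, hw⟩
    have h1 : (v, w) ∈ V := by
      have := V.mul_mem hv hw
      simpa using this
    exact hc (g, h) (v, w) h1

end Pool.Agent.H718R3
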