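import Mathlib
import Pool.Agent.TeamU.TowerFinal
import Pool.Agent.H718R3.Base3

/-! Good subfields of an algebraic closure, the square root step and a maximal tower. -/

set_option autoImplicit false

open NumberField IsDedekindDomain Module IntermediateField

namespace Pool.Agent.H718R3.NT

open Pool.Agent.TeamU

/-- transport of `Good` along an isomorphism over `k` -/
theorem good_of_equiv {k L L' : Type} [Field k] [NumberField k] [Field L] [NumberField L]
    [Field L'] [NumberField L'] [Algebra k L] [Algebra k L'] (e : L ≃ₐ[k] L') (h : Good k L) :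
    Good k L' := by
  let _ : Algebra L' L := (e.symm : L' →+* L).toAlgebra
  have : IsScalarTower k L' L := by
    apply IsScalarTower.of_algebraMap_eq
    intro x
    exact (e.symm.commutes x).symm
  have := h.galois
  refine ⟨IsGalois.of_algEquiv e, ?_, totallyReal_desc L' L h.real, twoSplit_desc L' L h.split2,
    unr_desc_bot k L' L h.unr⟩
  obtain ⟨m, hm⟩ := h.pow
  exact ⟨m, by rw [← hm, e.toLinearEquiv.finrank_eq]⟩

/-- transfer of `Even1` to a larger good field -/
theorem even1_transfer (k L L1 : Type) [Field k] [NumberField k] [Field L] [NumberField L]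
    [Field L1] [NumberField L1] [Algebra k L] [Algebra k L1] [Algebra L L1] [IsScalarTower k L L1]
    (h1 : ∀ P : HeightOneSpectrum (𝓞 L1), Unr k P) (g : L) (he : Even1 L g) :
    Even1 L1 (algebraMap L L1 g) := by
  have hu := unr_desc_top k L L1 h1
  refine ⟨?_, ?_, ?_, ?_⟩
  · simpa using he.ne
  · intro P
    obtain ⟨v, hv⟩ := TeamU.exists_under L L1 P
    obtain ⟨y, hy⟩ := he.even v
    exact ⟨algebraMap L L1 y, by rw [hu P v hv, hu P v hv, hy]⟩
  · intro P hP
    obtain ⟨v, hv⟩ := TeamU.exists_under L L1 P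
    have hv2 : (2 : 𝓞 L) ∈ v.asIdeal := by
      rw [← hv, Ideal.mem_comap, map_ofNat]
      exact hP
    obtain ⟨y, u, h1, h2, h3⟩ := he.loc v hv2
    refine ⟨algebraMap L L1 y, algebraMap L L1 u, ?_, ?_, ?_⟩
    · rw [h1, map_mul, map_pow]
    · simpa using h2
    · rcases h3 with ⟨h4, -⟩ | h4
      · exact absurd hv2 h4
      · right
        rw [← map_one (algebraMap L L1), ← map_sub, hu P v hv]
        exact h4
  · intro φ
    exact he.pos (φ.comp (algebraMap L L1))

theorem invSq_transfer (k L L1 : Type) [Field k] [Field L] [Field L1] [Algebra k L] [Algebra k L1]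
    [Algebra L L1] [IsScalarTower k L L1] [Normal k L] (g : L) (hi : InvSq k g) :
    InvSq k (algebraMap L L1 g) := by
  intro σ
  obtain ⟨y, hy⟩ := hi (σ.restrictNormal L)
  refine ⟨algebraMap L L1 y, ?_⟩
  rw [← AlgEquiv.restrictNormal_commutes, hy, map_mul, map_pow]

section

variable {k F : Type} [Field k] [NumberField k] [Field F] [Algebra k F]

/-- an intermediate field which is good -/
def GoodF (L : IntermediateField k F) : Prop := ∃ _ : NumberField L, Good k L

theorem GoodF.fin {L : IntermediateField k F} (h : GoodF L) : FiniteDimensional k L := by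
  obtain ⟨h1, h2⟩ := h
  exact Module.Finite.of_restrictScalars_finite ℚ k L

theorem nf_of_fin (L : IntermediateField k F) [FiniteDimensional k L] : NumberField L := by
  have : CharZero L := charZero_of_injective_algebraMap (algebraMap k L).injective
  have : FiniteDimensional ℚ L := FiniteDimensional.trans ℚ k L
  constructor

theorem goodF_range {L' : Type} [Field L'] [NumberField L'] [Algebra k L'] (h : Good k L')
    (f : L' →ₐ[k] F) : GoodF f.fieldRange := by
  have e : L' ≃ₐ[k] f.fieldRange := AlgEquiv.ofInjectiveField f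
  have : NumberField f.fieldRange := NumberField.of_ringEquiv _ _ e.toRingEquiv
  exact ⟨this, good_of_equiv e h⟩

theorem GoodF.of_equiv {F' : Type} [Field F'] [Algebra k F'] {L : IntermediateField k F}
    {L' : IntermediateField k F'} (e : L ≃ₐ[k] L') (h : GoodF L) : GoodF L' := by
  obtain ⟨h1, h2⟩ := h
  have : NumberField L' := NumberField.of_ringEquiv _ _ e.toRingEquiv
  exact ⟨this, good_of_equiv e h2⟩

/-- the square root step -/
theorem step_good [IsAlgClosed F] (L : IntermediateField k F) [NumberField L] (hL : Good k L)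
    (g : L) (he : Even1 L g) (hi : InvSq k g) (r : F) (hr : r ^ 2 = (g : F)) :
    GoodF (L ⊔ k⟮r⟯) := by
  by_cases hsq : IsSquare g
  · obtain ⟨t, ht⟩ := hsq
    have hrL : r ∈ L := by
      have h1 : r ^ 2 = (t : F) ^ 2 := by
        rw [hr, ht, sq]
        rfl
      rcases sq_eq_sq_iff_eq_or_eq_neg.mp h1 with h2 | h2
      · rw [h2]; exact t.2
      · rw [h2]; exact neg_mem t.2
    have h3 : L ⊔ k⟮r⟯ = L := by
      rw [sup_eq_left, adjoin_simple_le_iff]
      exact hrL
    rw [h3]
    exact ⟨inferInstance, hL⟩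
  · obtain ⟨L', i1, i2, i3, i4, hst, hgood, h2, z, hz⟩ := kummer_step k L hL g hsq he hi
    have hfin : FiniteDimensional k L := Module.Finite.of_restrictScalars_finite ℚ k L
    have hfin' : FiniteDimensional k L' := Module.Finite.of_restrictScalars_finite ℚ k L'
    have hfinL : FiniteDimensional L L' := Module.Finite.of_restrictScalars_finite k L L'
    let f : L' →ₐ[L] F := IsAlgClosed.lift
    let f' : L' →ₐ[k] F := f.restrictScalars k
    have hle1 : L ≤ f'.fieldRange := by
      intro x hx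
      refine ⟨algebraMap L L' ⟨x, hx⟩, ?_⟩
      change f (algebraMap L L' ⟨x, hx⟩) = x
      rw [f.commutes]
      rfl
    have hr1 : r ∈ f'.fieldRange := by
      have h3 : r ^ 2 = (f z) ^ 2 := by
        rw [← map_pow, hz, f.commutes, hr]
        rfl
      rcases sq_eq_sq_iff_eq_or_eq_neg.mp h3 with h4 | h4
      · rw [h4]; exact ⟨z, rfl⟩
      · rw [h4]; exact ⟨-z, map_neg f z⟩
    have hle : L ⊔ k⟮r⟯ ≤ f'.fieldRange := by
      refine sup_le hle1 ?_
      rw [adjoin_simple_le_iff]
      exact hr1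
    have hrL : r ∉ L := by
      intro hrL
      apply hsq
      refine ⟨⟨r, hrL⟩, ?_⟩
      apply Subtype.ext
      change (g : F) = r * r
      rw [← hr, sq]
    have hfr : finrank k f'.fieldRange = 2 * finrank k L := by
      have h5 : finrank k L' = finrank k f'.fieldRange :=
        (AlgEquiv.ofInjectiveField f').toLinearEquiv.finrank_eq
      rw [← h5, ← finrank_mul_finrank k L L', h2, mul_comm]
    have hfinR : FiniteDimensional k f'.fieldRange :=
      Module.Finite.equiv (AlgEquiv.ofInjectiveField f' : L' ≃ₐ[k] f'.fieldRange).toLinearEquiv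
    have heq : L ⊔ k⟮r⟯ = f'.fieldRange := by
      apply eq_of_le_of_finrank_le hle
      obtain ⟨m, hm⟩ := finrank_dvd_of_le_right (le_sup_left : L ≤ L ⊔ k⟮r⟯)
      have hpos : 0 < finrank k L := finrank_pos
      have hfinS : FiniteDimensional k (L ⊔ k⟮r⟯ : IntermediateField k F) :=
        Module.Finite.of_injective (IntermediateField.inclusion hle).toLinearMap
          (IntermediateField.inclusion hle).injective
      have hpos2 : 0 < finrank k (L ⊔ k⟮r⟯ : IntermediateField k F) := finrank_pos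
      have hm1 : m ≠ 1 := by
        rintro rfl
        have h5 : L = L ⊔ k⟮r⟯ := eq_of_le_of_finrank_eq le_sup_left (by rw [hm, mul_one])
        apply hrL
        rw [h5]
        exact (le_sup_right : k⟮r⟯ ≤ L ⊔ k⟮r⟯) (mem_adjoin_simple_self k r)
      have hm0 : m ≠ 0 := by
        rintro rfl
        omega
      rw [hfr, hm, mul_comm]
      exact Nat.mul_le_mul_left _ (by omega)
    rw [heq]
    exact goodF_range hgood f'

omit [NumberField k] in
theorem isCompact_of_fin (K' : IntermediateField k F) [FiniteDimensional k K'] :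
    IsCompactElement K' := by
  have h : K'.toSubalgebra.FG := by
    have h1 : (⊤ : Subalgebra k K').FG := Subalgebra.fg_of_noetherian ⊤
    have h2 : Algebra.FiniteType k K'.toSubalgebra := ⟨h1⟩
    exact K'.toSubalgebra.fg_iff_finiteType.mpr h2
  obtain ⟨t, ht⟩ := fg_of_fg_toSubalgebra K' h
  rw [← ht]
  exact adjoin_finset_isCompactElement t

omit [NumberField k] in
theorem le_of_directed (K' : IntermediateField k F) [FiniteDimensional k K']
    (S : Set (IntermediateField k F)) (hS : S.Nonempty) (hd : DirectedOn (· ≤ ·) S)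
    (h : K' ≤ sSup S) : ∃ E ∈ S, K' ≤ E := by
  have h1 := isCompact_of_fin K'
  rw [CompleteLattice.isCompactElement_iff_le_of_directed_sSup_le] at h1
  exact h1 S hS hd h

/-- every finite subextension is contained in a good one -/
def PM (M : IntermediateField k F) : Prop :=
  ∀ K' : IntermediateField k F, FiniteDimensional k K' → K' ≤ M →
    ∃ L : IntermediateField k F, GoodF L ∧ K' ≤ L ∧ L ≤ M

theorem PM_sup [IsAlgClosed F] [Algebra.IsAlgebraic k F] (M : IntermediateField k F) (hM : PM M) (L : IntermediateField k F)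
    [NumberField L] (hL : Good k L) (hLM : L ≤ M) (g : L) (he : Even1 L g) (hi : InvSq k g) (r : F)
    (hr : r ^ 2 = (g : F)) : PM (M ⊔ k⟮r⟯) := by
  have hLG : GoodF L := ⟨inferInstance, hL⟩
  have hLfin := hLG.fin
  have step : ∀ L1 : IntermediateField k F, GoodF L1 → L ≤ L1 → GoodF (L1 ⊔ k⟮r⟯) := by
    rintro L1 ⟨i1, h1⟩ hle
    let _ : Algebra L L1 := (IntermediateField.inclusion hle).toRingHom.toAlgebra
    have : IsScalarTower k L L1 := IsScalarTower.of_algebraMap_eq fun x => rfl
    have := hL.galois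
    refine step_good L1 h1 (algebraMap L L1 g) (even1_transfer k L L1 h1.unr g he)
      (invSq_transfer k L L1 g hi) r ?_
    rw [hr]
    rfl
  let S : Set (IntermediateField k F) := {E | ∃ L1, GoodF L1 ∧ L ≤ L1 ∧ L1 ≤ M ∧ E = L1 ⊔ k⟮r⟯}
  have hSne : S.Nonempty := ⟨_, L, hLG, le_rfl, hLM, rfl⟩
  have hSd : DirectedOn (· ≤ ·) S := by
    rintro _ ⟨L1, h1, h1', h1'', rfl⟩ _ ⟨L2, h2, h2', h2'', rfl⟩
    have := h1.fin
    have := h2.fin
    obtain ⟨L3, h3, h4, h5⟩ := hM (L1 ⊔ L2) inferInstance (sup_le h1'' h2'')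
    exact ⟨_, ⟨L3, h3, h1'.trans (le_sup_left.trans h4), h5, rfl⟩,
      sup_le_sup_right (le_sup_left.trans h4) _, sup_le_sup_right (le_sup_right.trans h4) _⟩
  have hle : M ⊔ k⟮r⟯ ≤ sSup S := by
    refine sup_le ?_ ?_
    · intro x hx
      have : FiniteDimensional k k⟮x⟯ :=
        adjoin.finiteDimensional (Algebra.IsIntegral.isIntegral (R := k) x)
      obtain ⟨L1, h1, h2, h3⟩ := hM (L ⊔ k⟮x⟯) inferInstance
        (sup_le hLM (by rw [adjoin_simple_le_iff]; exact hx))
      have h4 : L1 ⊔ k⟮r⟯ ≤ sSup S := le_sSup ⟨L1, h1, le_sup_left.trans h2, h3, rfl⟩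
      refine h4 ((le_sup_left : L1 ≤ L1 ⊔ k⟮r⟯) (h2 ?_))
      exact (le_sup_right : k⟮x⟯ ≤ L ⊔ k⟮x⟯) (mem_adjoin_simple_self k x)
    · exact le_trans (le_sup_right : k⟮r⟯ ≤ L ⊔ k⟮r⟯) (le_sSup ⟨L, hLG, le_rfl, hLM, rfl⟩)
  intro K' hK' hK'M
  obtain ⟨E, ⟨L1, h1, h2, h3, rfl⟩, h4⟩ := le_of_directed K' S hSne hSd (hK'M.trans hle)
  exact ⟨_, step L1 h1 h2, h4, sup_le_sup_right h3 _⟩

/-- a maximal tower -/
theorem exists_maximal [IsAlgClosed F] [Algebra.IsAlgebraic k F] (L0 : IntermediateField k F)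
    (h0 : GoodF L0) :
    ∃ M : IntermediateField k F, L0 ≤ M ∧ PM M ∧
      ∀ (L : IntermediateField k F) (_ : NumberField L), Good k L → L ≤ M → ∀ g : L, Even1 L g →
        InvSq k g → ∀ r : F, r ^ 2 = (g : F) → r ∈ M := by
  obtain ⟨M, hM1, hM2⟩ := zorn_le_nonempty₀ {M : IntermediateField k F | L0 ≤ M ∧ PM M} (by
    intro c hc hchain y hy
    refine ⟨sSup c, ⟨(hc hy).1.trans (le_sSup hy), ?_⟩, fun z hz => le_sSup hz⟩
    intro K' hK' hle
    obtain ⟨E, hE, hKE⟩ := le_of_directed K' c ⟨y, hy⟩ hchain.directedOn hle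
    obtain ⟨L, h1, h2, h3⟩ := (hc hE).2 K' hK' hKE
    exact ⟨L, h1, h2, h3.trans (le_sSup hE)⟩) L0
    ⟨le_rfl, fun K' _ hle => ⟨L0, h0, hle, le_rfl⟩⟩
  refine ⟨M, hM1, hM2.1.2, ?_⟩
  intro L _ hL hLM g he hi r hr
  have h1 := PM_sup M hM2.1.2 L hL hLM g he hi r hr
  have h2 : M ⊔ k⟮r⟯ ≤ M := hM2.2 ⟨hM1.trans le_sup_left, h1⟩ le_sup_left
  exact h2 ((le_sup_right : k⟮r⟯ ≤ M ⊔ k⟮r⟯) (mem_adjoin_simple_self k r))

end

end Pool.Agent.H718R3.NT
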