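import Mathlib
import Pool.Agent.H718R3.Tower1

/-! A maximal tower as a field of its own. -/

set_option autoImplicit false

open NumberField IsDedekindDomain Module IntermediateField

namespace Pool.Agent.H718R3.NT

open Pool.Agent.TeamU

/-- `F` is an algebraic extension of `k` which is a union of good fields and closed under the
square root step. -/
structure Tow (k F : Type) [Field k] [NumberField k] [Field F] [Algebra k F] : Prop where
  alg : Algebra.IsAlgebraic k F
  cover : ∀ K' : IntermediateField k F, FiniteDimensional k K' →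
    ∃ L : IntermediateField k F, GoodF L ∧ K' ≤ L
  closed : ∀ (L : IntermediateField k F) (_ : NumberField L), Good k L → ∀ g : L, Even1 L g →
    InvSq k g → ∃ r : F, r ^ 2 = (g : F)

variable (k : Type) [Field k] [NumberField k]

theorem exists_tow (hr : IsTotallyReal k) (h2 : TwoSplit k) (s : k)
    (hs : s ^ 2 = ((qt.prod : ℕ) : k)) :
    ∃ M : IntermediateField k (AlgebraicClosure k), Tow k M ∧ ∀ q ∈ qt, ∃ z : M, z ^ 2 = (q : M) := by
  obtain ⟨L, i1, i2, i3, hgood, hq⟩ := exists_L0t k hr h2 s hs
  have hfin : FiniteDimensional k L := Module.Finite.of_restrictScalars_finite ℚ k L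
  let f : L →ₐ[k] AlgebraicClosure k := IsAlgClosed.lift
  have h0 : GoodF f.fieldRange := goodF_range hgood f
  obtain ⟨M, hM1, hM2, hM3⟩ := exists_maximal f.fieldRange h0
  refine ⟨M, ⟨inferInstance, ?_, ?_⟩, ?_⟩
  · intro K' hK'
    have : FiniteDimensional k (lift K') := Module.Finite.equiv (liftAlgEquiv K').toLinearEquiv
    obtain ⟨L1, h1, h2, h3⟩ := hM2 (lift K') this (lift_le K')
    refine ⟨restrict h3, GoodF.of_equiv (restrictAlgEquiv h3) h1, ?_⟩
    intro x hx
    rw [mem_restrict]
    exact h2 ((mem_lift x).mpr hx)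
  · intro L1 _ h1 g he hi
    let e := liftAlgEquiv L1
    have : NumberField (lift L1) := NumberField.of_ringEquiv _ _ e.toRingEquiv
    have h1' : Good k (lift L1) := good_of_equiv e h1
    let _ : Algebra L1 (lift L1) := (e : L1 →+* lift L1).toAlgebra
    have : IsScalarTower k L1 (lift L1) := IsScalarTower.of_algebraMap_eq fun x => by
      exact (e.commutes x).symm
    have := h1.galois
    obtain ⟨r, hr⟩ := IsAlgClosed.exists_pow_nat_eq ((g : M) : AlgebraicClosure k)
      (n := 2) (by norm_num)
    have h5 := hM3 (lift L1) inferInstance h1' (lift_le L1) (algebraMap L1 (lift L1) g)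
      (even1_transfer k L1 (lift L1) h1'.unr g he)
      (invSq_transfer k L1 (lift L1) g hi) r hr
    refine ⟨⟨r, h5⟩, ?_⟩
    apply Subtype.ext
    exact hr
  · intro q hq'
    obtain ⟨z, hz⟩ := hq q hq'
    refine ⟨⟨f z, hM1 ⟨z, rfl⟩⟩, ?_⟩
    apply Subtype.ext
    change (f z) ^ 2 = ((q : M) : AlgebraicClosure k)
    rw [← map_pow, hz, map_natCast]
    rfl

variable {k} {F : Type} [Field F] [Algebra k F]

/-- the good subfields of a tower are stable -/
theorem Tow.normal (h : Tow k F) : IsGalois k F := by
  have := h.alg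
  have hN : Normal k F := by
    refine ⟨fun x => ?_⟩
    have : FiniteDimensional k k⟮x⟯ :=
      adjoin.finiteDimensional (Algebra.IsIntegral.isIntegral (R := k) x)
    obtain ⟨L, ⟨i1, h1⟩, h2⟩ := h.cover k⟮x⟯ this
    have := h1.galois
    have hx : x ∈ L := h2 (mem_adjoin_simple_self k x)
    have h3 := (inferInstance : Normal k L).splits' ⟨x, hx⟩
    rw [← minpoly.algebraMap_eq (algebraMap L F).injective] at h3
    have h4 := h3.map (algebraMap L F)
    rw [Polynomial.map_map, ← IsScalarTower.algebraMap_eq] at h4
    exact h4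
  constructor

end Pool.Agent.H718R3.NT
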