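import Mathlib
import Pool.Agent.H718R3.Tower2
import Pool.Agent.H718R3.Infinite

/-! The Galois group of a maximal tower: basic properties, `H¹`. -/

set_option autoImplicit false

open NumberField IsDedekindDomain Module IntermediateField

namespace Pool.Agent.H718R3.NT

open Pool.Agent.TeamU

variable {k F : Type} [Field k] [NumberField k] [Field F] [Algebra k F]

omit [NumberField k] in
theorem fix_ON [IsGalois k F] (L : IntermediateField k F) [FiniteDimensional k L] [IsGalois k L] :
    ON L.fixingSubgroup := by
  refine ⟨?_, L.fixingSubgroup_isOpen⟩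
  rw [← restrictNormalHom_ker]
  infer_instance

omit [NumberField k] in
theorem basis1 [IsGalois k F] : Basis1 (Gal(F/k)) := by
  intro U hU
  rw [InfiniteGalois.krullTopology_mem_nhds_one_iff_of_isGalois] at hU
  obtain ⟨L, hL⟩ := hU
  exact ⟨L.fixingSubgroup, fix_ON L.toIntermediateField, hL⟩

omit [NumberField k] in
theorem fix_fixed [IsGalois k F] (V : Subgroup Gal(F/k)) (hV : IsClosed (V : Set Gal(F/k))) :
    (fixedField V).fixingSubgroup = V :=
  InfiniteGalois.fixingSubgroup_fixedField ⟨V, hV⟩

omit [NumberField k] in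
theorem fin_fixed [IsGalois k F] (V : Subgroup Gal(F/k)) (hV : IsOpen (V : Set Gal(F/k))) :
    FiniteDimensional k (fixedField V) := by
  rw [← InfiniteGalois.isOpen_iff_finite]
  change IsOpen ((fixedField V).fixingSubgroup : Set Gal(F/k))
  rw [fix_fixed V (Subgroup.isClosed_of_isOpen V hV)]
  exact hV

theorem Tow.fix_good (h : Tow k F) [IsGalois k F] (V : Subgroup Gal(F/k))
    (hV : IsOpen (V : Set Gal(F/k))) :
    ∃ L : IntermediateField k F, GoodF L ∧ L.fixingSubgroup ≤ V := by
  obtain ⟨L, h1, h2⟩ := h.cover (fixedField V) (fin_fixed V hV)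
  refine ⟨L, h1, ?_⟩
  have h3 := fixingSubgroup_le h2
  rwa [fix_fixed V (Subgroup.isClosed_of_isOpen V hV)] at h3

theorem Tow.pro2 (h : Tow k F) [IsGalois k F] : Pro2 (Gal(F/k)) := by
  intro V hV
  obtain ⟨L, ⟨i1, h1⟩, h2⟩ := h.fix_good V hV.2
  obtain ⟨m, hm⟩ := h1.pow
  have h3 : V.index ∣ 2 ^ m := by
    rw [← hm, finrank_eq_fixingSubgroup_index]
    exact Subgroup.index_dvd_of_le h2
  obtain ⟨j, -, hj⟩ := (Nat.dvd_prime_pow Nat.prime_two).mp h3
  exact ⟨j, hj⟩

theorem Tow.unr (h : Tow k F) (E : IntermediateField k F) [NumberField E] :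
    ∀ P : HeightOneSpectrum (𝓞 E), Unr k P := by
  have hfin : FiniteDimensional k E := Module.Finite.of_restrictScalars_finite ℚ k E
  obtain ⟨L, ⟨i1, h1⟩, h2⟩ := h.cover E hfin
  let _ : Algebra E L := (IntermediateField.inclusion h2).toRingHom.toAlgebra
  have : IsScalarTower k E L := IsScalarTower.of_algebraMap_eq fun x => rfl
  exact unr_desc_bot k E L h1.unr

theorem Tow.discr (h : Tow k F) (E : IntermediateField k F) [NumberField E] :
    (discr E).natAbs = (discr k).natAbs ^ finrank k E :=
  discr_unr k E (h.unr E)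

/-- the kernel of a homomorphism -/
def kerH {G : Type*} [Group G] [TopologicalSpace G] (f : Hm G) : Subgroup G where
  carrier := {g | f.1 g = 0}
  mul_mem' := by
    intro a b ha hb
    have := f.2.2 a b
    change f.1 a = 0 at ha
    change f.1 b = 0 at hb
    change f.1 (a * b) = 0
    rw [this, ha, hb, add_zero]
  one_mem' := Hm_one f.2
  inv_mem' := by
    intro a ha
    have h1 := f.2.2 a a⁻¹
    rw [mul_inv_cancel, Hm_one f.2] at h1
    change f.1 a = 0 at ha
    change f.1 a⁻¹ = 0
    rw [ha, zero_add] at h1
    exact h1.symm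

theorem kerH_inj {G : Type*} [Group G] [TopologicalSpace G] {f f' : Hm G} (h : kerH f = kerH f') :
    f = f' := by
  apply Subtype.ext
  funext g
  have h1 : f.1 g = 0 ↔ f'.1 g = 0 := by
    have : g ∈ kerH f ↔ g ∈ kerH f' := by rw [h]
    exact this
  generalize f.1 g = a at h1
  generalize f'.1 g = b at h1
  revert a b
  decide

theorem kerH_open {G : Type*} [Group G] [TopologicalSpace G] [IsTopologicalGroup G] (f : Hm G) :
    IsOpen (kerH f : Set G) := by
  obtain ⟨V, hV, hf⟩ := f.2.1
  apply Subgroup.isOpen_mono (H₁ := V) _ hV.2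
  intro v hv
  have := hf 1 v hv
  change f.1 v = 0
  rw [one_mul, Hm_one f.2] at this
  exact this

theorem kerH_index {G : Type*} [Group G] [TopologicalSpace G] (f : Hm G) :
    (kerH f).index ≤ 2 := by
  let F : G ⧸ kerH f → ZMod 2 := Quotient.lift (s := QuotientGroup.leftRel (kerH f)) f.1 (by
    intro a b hab
    have h1 : a⁻¹ * b ∈ kerH f := QuotientGroup.leftRel_apply.mp hab
    change f.1 (a⁻¹ * b) = 0 at h1
    have h2 : f.1 b = f.1 a + f.1 (a⁻¹ * b) := by
      rw [← f.2.2]; congr 1; group
    rw [h2, h1, add_zero])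
  have hF : Function.Injective F := by
    intro a b
    induction a using QuotientGroup.induction_on with | H a => ?_
    induction b using QuotientGroup.induction_on with | H b => ?_
    intro hab
    change f.1 a = f.1 b at hab
    rw [QuotientGroup.eq]
    change f.1 (a⁻¹ * b) = 0
    have h2 : f.1 b = f.1 a + f.1 (a⁻¹ * b) := by
      rw [← f.2.2]; congr 1; group
    rw [hab] at h2
    simpa using h2.symm
  have h1 := Nat.card_le_card_of_injective F hF
  rw [Nat.card_zmod] at h1
  exact h1

theorem Tow.finite_Hm (h : Tow k F) [IsGalois k F] : Module.Finite (ZMod 2) (Hm (Gal(F/k))) := by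
  have hc : CharZero F := charZero_of_injective_algebraMap (algebraMap k F).injective
  have hfin : Finite (Hm (Gal(F/k))) := by
    have hherm := NumberField.finite_of_discr_bdd F ((NumberField.discr k).natAbs ^ 2)
    have := hherm.to_subtype
    have hE : ∀ f : Hm (Gal(F/k)), FiniteDimensional k (fixedField (kerH f)) := fun f =>
      fin_fixed _ (kerH_open f)
    have hEn : ∀ f : Hm (Gal(F/k)), NumberField (fixedField (kerH f)) := fun f => by
      have := hE f
      exact nf_of_fin _
    have hEQ : ∀ f : Hm (Gal(F/k)),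
        FiniteDimensional ℚ ((fixedField (kerH f)).restrictScalars ℚ) := by
      intro f
      exact (hEn f).to_finiteDimensional
    let Φ : Hm (Gal(F/k)) → _ := fun f =>
      (⟨⟨(fixedField (kerH f)).restrictScalars ℚ, hEQ f⟩, by
        have i1 := hEn f
        have h1 := h.discr (fixedField (kerH f))
        have h2 : finrank k (fixedField (kerH f)) ≤ 2 := by
          rw [finrank_eq_fixingSubgroup_index,
            fix_fixed _ (Subgroup.isClosed_of_isOpen _ (kerH_open f))]
          exact kerH_index f
        have h3 : (NumberField.discr (fixedField (kerH f))).natAbs ≤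
            (NumberField.discr k).natAbs ^ 2 := by
          rw [h1]
          exact Nat.pow_le_pow_right (Int.natAbs_pos.mpr (NumberField.discr_ne_zero k)) h2
        have h4 : |NumberField.discr (fixedField (kerH f))| ≤
            (((NumberField.discr k).natAbs ^ 2 : ℕ) : ℤ) := by
          rw [Int.abs_eq_natAbs]
          exact_mod_cast h3
        exact h4⟩ : {K : { F' : IntermediateField ℚ F // FiniteDimensional ℚ F'} |
      haveI :  NumberField K := @NumberField.mk _ _ inferInstance K.prop
      |NumberField.discr K| ≤ (((NumberField.discr k).natAbs ^ 2 : ℕ) : ℤ) })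
    apply Finite.of_injective Φ
    intro f f' hff
    have h1 : (fixedField (kerH f)).restrictScalars ℚ = (fixedField (kerH f')).restrictScalars ℚ :=
      congrArg (fun z => z.1.1) hff
    have h2 : fixedField (kerH f) = fixedField (kerH f') := by
      apply IntermediateField.restrictScalars_injective ℚ
      exact h1
    apply kerH_inj
    rw [← fix_fixed _ (Subgroup.isClosed_of_isOpen _ (kerH_open f)), h2,
      fix_fixed _ (Subgroup.isClosed_of_isOpen _ (kerH_open f'))]
  exact Module.Finite.of_finite

end Pool.Agent.H718R3.NT
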