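import Mathlib
import Pool.Agent.H718R3.Tower3

/-! The Galois group of a maximal tower has rank at least nine.  Adapted by helper718 from
`Pool/Agent/TeamU/F3b.lean`. -/

set_option autoImplicit false

open NumberField IsDedekindDomain Module IntermediateField

namespace Pool.Agent.H718R3.NT

open Pool.Agent.TeamU

variable {k F : Type} [Field k] [NumberField k] [Field F] [Algebra k F]

/-- a good field containing a given element, and the subgroup fixing it -/
theorem Tow.fix_elt (h : Tow k F) [IsGalois k F] (z : F) :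
    ∃ V : Subgroup Gal(F/k), ON V ∧ ∀ v ∈ V, v z = z := by
  have := h.alg
  have : FiniteDimensional k k⟮z⟯ :=
    adjoin.finiteDimensional (Algebra.IsIntegral.isIntegral (R := k) z)
  obtain ⟨L, hL, h2⟩ := h.cover k⟮z⟯ this
  have hfin := hL.fin
  obtain ⟨i1, h1⟩ := hL
  have := h1.galois
  refine ⟨L.fixingSubgroup, fix_ON L, ?_⟩
  intro v hv
  exact (mem_fixingSubgroup_iff L v).mp hv z (h2 (mem_adjoin_simple_self k z))

theorem Tow.nine_le (h : Tow k F) [IsGalois k F] (hk : finrank ℚ k = 2) (s : k)
    (hs : s ^ 2 = ((qt.prod : ℕ) : k)) (hq : ∀ q ∈ qt, ∃ z : F, z ^ 2 = (q : F)) :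
    9 ≤ finrank (ZMod 2) (Hm (Gal(F/k))) := by
  classical
  have hc : CharZero F := charZero_of_injective_algebraMap (algebraMap k F).injective
  have hfinm := h.finite_Hm
  choose z hz using fun i : Fin 10 => hq (qf i) (qf_mem i)
  let v : Fin 9 → Hm (Gal(F/k)) := fun i =>
    ⟨F3.chi (z i.castSucc), by
      refine ⟨?_, F3.chi_mem _ _ (qf_prime i.castSucc).ne_zero (hz i.castSucc)⟩
      obtain ⟨V, hV, hVz⟩ := h.fix_elt (z i.castSucc)
      refine ⟨V, hV, fun g v hv => ?_⟩
      unfold F3.chi
      rw [AlgEquiv.mul_apply, hVz v hv]⟩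
  have hli : LinearIndependent (ZMod 2) v := by
    rw [Fintype.linearIndependent_iff]
    intro g hg
    by_contra hcon
    push Not at hcon
    obtain ⟨i₀, hi₀⟩ := hcon
    let S : Finset (Fin 9) := Finset.univ.filter fun i => g i ≠ 0
    have hS : S.Nonempty := ⟨i₀, by simp [S, hi₀]⟩
    have hsum : ∀ σ : Gal(F/k), ∑ i ∈ S, F3.chi (z i.castSucc) σ = 0 := by
      intro σ
      have h1 := congrArg (fun u : Hm (Gal(F/k)) => u.1 σ) hg
      simp only [Submodule.coe_sum, Submodule.coe_smul, Finset.sum_apply, Pi.smul_apply,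
        smul_eq_mul, ZeroMemClass.coe_zero, Pi.zero_apply] at h1
      rw [← h1, Finset.sum_filter]
      apply Finset.sum_congr rfl
      intro i _
      rcases F3.zmod2 (g i) with h2 | h2
      · simp [h2]
      · simp [h2, v]
    let Z : F := ∏ i ∈ S, z i.castSucc
    have hfix : ∀ σ : Gal(F/k), σ Z = Z := by
      intro σ
      have h1 : σ Z = ∏ i ∈ S, F3.sgn F (F3.chi (z i.castSucc) σ) * z i.castSucc := by
        rw [map_prod]
        apply Finset.prod_congr rfl
        intro i _
        exact F3.chi_spec _ _ (hz i.castSucc) σ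
      rw [h1, Finset.prod_mul_distrib, ← F3.sgn_sum, hsum σ, F3.sgn_zero, one_mul]
    obtain ⟨y, hy⟩ : ∃ y : k, algebraMap k F y = Z :=
      (InfiniteGalois.mem_range_algebraMap_iff_fixed (k := k) Z).mpr hfix
    apply key k hk s hs S hS y
    apply (algebraMap k F).injective
    rw [map_pow, hy, map_natCast]
    simp only [Z]
    rw [← Finset.prod_pow]
    push_cast
    exact Finset.prod_congr rfl fun i _ => hz i.castSucc
  have h8 := hli.fintype_card_le_finrank
  simpa using h8

end Pool.Agent.H718R3.NT
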