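import Mathlib
import Pool.Agent.H718R3.Tower4

/-! The second cohomology of the Galois group of a maximal tower.  The algebra is adapted by
helper718 from `Pool/Agent/TeamU/D2.lean`. -/

set_option autoImplicit false

open NumberField IsDedekindDomain Module IntermediateField

namespace Pool.Agent.H718R3.NT

open Pool.Agent.TeamU

variable {k F : Type} [Field k] [NumberField k] [Field F] [Algebra k F]

/-- splitting data for a cocycle -/
structure Spl (L : IntermediateField k F) (c : Gal(F/k) → Gal(F/k) → ZMod 2) (b : Gal(F/k) → F)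
    (x : Lˣ) : Prop where
  b_ne : ∀ g, b g ≠ 0
  b_inv : ∀ g, ∀ v ∈ L.fixingSubgroup, b (g * v) = b g
  hb : ∀ g h, sgn F (c g h) = b g * g (b h) / b (g * h)
  hx : ∀ g : Gal(F/k), g ((x : L) : F) = (b g) ^ 2 * ((x : L) : F)
  inv : InvSq k (x : L)

theorem exists_spl (L : IntermediateField k F) [NumberField L] (hL : Good k L) [IsGalois k F]
    (c : Gal(F/k) → Gal(F/k) → ZMod 2)
    (hc : ∀ g h, ∀ v ∈ L.fixingSubgroup, ∀ w ∈ L.fixingSubgroup, c (g * v) (h * w) = c g h)
    (hcc : ∀ g h l, c g h + c (g * h) l = c h l + c g (h * l)) :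
    ∃ b x, Spl L c b x := by
  have := hL.galois
  let res : Gal(F/k) →* Gal(L/k) := AlgEquiv.restrictNormalHom L
  have hsurj : Function.Surjective res := AlgEquiv.restrictNormalHom_surjective F
  have hker : res.ker = L.fixingSubgroup := restrictNormalHom_ker L
  have hres : ∀ (g : Gal(F/k)) (y : L), ((res g y : L) : F) = g (y : F) := by
    intro g y
    exact AlgEquiv.restrictNormal_commutes g L y
  let lft : Gal(L/k) → Gal(F/k) := Function.surjInv hsurj
  have hlft : ∀ a, res (lft a) = a := Function.surjInv_eq hsurj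
  let c' : Gal(L/k) → Gal(L/k) → ZMod 2 := fun a b => c (lft a) (lft b)
  have hc' : ∀ g h, c' (res g) (res h) = c g h := by
    intro g h
    have h1 : ∀ g, g⁻¹ * lft (res g) ∈ L.fixingSubgroup := by
      intro g
      rw [← hker, MonoidHom.mem_ker, map_mul, hlft, map_inv, inv_mul_cancel]
    have h2 := hc g h _ (h1 g) _ (h1 h)
    rw [mul_inv_cancel_left, mul_inv_cancel_left] at h2
    exact h2
  have hz : c' ∈ Z2 (L ≃ₐ[k] L) := by
    intro a b l
    obtain ⟨a, rfl⟩ := hsurj a
    obtain ⟨b, rfl⟩ := hsurj b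
    obtain ⟨l, rfl⟩ := hsurj l
    rw [← map_mul, ← map_mul, hc', hc', hc', hc']
    exact hcc a b l
  obtain ⟨b', hb'⟩ := cocycle_splits k L hL ⟨c', hz⟩
  obtain ⟨x, hx⟩ := exists_x ⟨c', hz⟩ b' hb'
  refine ⟨fun g => ((b' (res g) : L) : F), x, ?_, ?_, ?_, ?_, ?_⟩
  · intro g h0
    have : (b' (res g) : L) = 0 := Subtype.ext h0
    exact (b' (res g)).ne_zero this
  · intro g v hv
    rw [← hker, MonoidHom.mem_ker] at hv
    change ((b' (res (g * v)) : L) : F) = _
    rw [map_mul, hv, mul_one]
  · intro g h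
    have h1 := congrArg (fun z : L => (z : F)) (hb' (res g) (res h))
    change (((-1 : L) ^ (c' (res g) (res h)).val : L) : F) = _ at h1
    rw [hc'] at h1
    have h2 : (((-1 : L) ^ (c g h).val : L) : F) = sgn F (c g h) := by
      simp [sgn]
    rw [← h2, h1]
    change _ = ((b' (res g) : L) : F) * g ((b' (res h) : L) : F) / ((b' (res (g * h)) : L) : F)
    rw [map_mul, ← hres]
    rfl
  · intro g
    rw [← hres, hx]
    rfl
  · intro σ
    exact ⟨_, hx σ⟩

/-- if the elements attached to `c` and `c'` differ by an element of `k^* F^{*2}` then `c' - c` is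
a coboundary -/
theorem sub_mem_B2f (h : Tow k F) [IsGalois k F] (L : IntermediateField k F) (hLG : GoodF L)
    (c c' : Gal(F/k) → Gal(F/k) → ZMod 2) (b b' : Gal(F/k) → F) (x x' : Lˣ)
    (hs : Spl L c b x) (hs' : Spl L c' b' x')
    (y : k) (w : F) (hw : w ≠ 0)
    (hxx : ((x' : L) : F) = ((x : L) : F) * (algebraMap k F y * w ^ 2)) :
    c' - c ∈ B2f (Gal(F/k)) := by
  have hchar : CharZero F := charZero_of_injective_algebraMap (algebraMap k F).injective
  have hx0 : ((x : L) : F) ≠ 0 := by
    intro h0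
    exact x.ne_zero (Subtype.ext h0)
  have hx0' : ((x' : L) : F) ≠ 0 := by
    intro h0
    exact x'.ne_zero (Subtype.ext h0)
  have hy : algebraMap k F y ≠ 0 := by
    intro h0
    rw [h0] at hxx
    simp at hxx
  have h1 : ∀ g : Gal(F/k), (b' g * w) ^ 2 = (b g * g w) ^ 2 := by
    intro g
    have e1 := hs'.hx g
    rw [hxx, map_mul, map_mul, map_pow, AlgEquiv.commutes, hs.hx g] at e1
    have : ((x : L) : F) * algebraMap k F y ≠ 0 := mul_ne_zero hx0 hy
    apply mul_left_cancel₀ this
    linear_combination -e1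
  choose u hu using fun g => exists_sgn (h1 g)
  refine ⟨u, ?_, fun g h => ?_⟩
  · obtain ⟨V, hV, hVw⟩ := h.fix_elt w
    have hfin := hLG.fin
    obtain ⟨i1, hL⟩ := hLG
    have := hL.galois
    refine ⟨V ⊓ L.fixingSubgroup, hV.inf (fix_ON L), fun g v hv => ?_⟩
    apply sgn_inj F
    have hgw : g w ≠ 0 := (map_ne_zero g).mpr hw
    have hne : b g * g w ≠ 0 := mul_ne_zero (hs.b_ne g) hgw
    apply mul_right_cancel₀ hne
    have h2 := hu (g * v)
    rw [hs.b_inv g v hv.2, hs'.b_inv g v hv.2, AlgEquiv.mul_apply, hVw v hv.1, hu g] at h2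
    exact h2.symm
  · apply sgn_inj F
    have e1 := hs.hb g h
    have e2 := hs'.hb g h
    have hgw : g w ≠ 0 := (map_ne_zero g).mpr hw
    have hghw : (g * h) w ≠ 0 := (map_ne_zero (g * h)).mpr hw
    have f1 : b' g = sgn F (u g) * (b g * g w) / w := by
      rw [← hu g]; field_simp
    have f2 : b' h = sgn F (u h) * (b h * h w) / w := by
      rw [← hu h]; field_simp
    have f3 : b' (g * h) = sgn F (u (g * h)) * (b (g * h) * (g * h) w) / w := by
      rw [← hu (g * h)]; field_simp
    have hsg : ∀ a : ZMod 2, g (sgn F a) = sgn F a := by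
      intro a
      simp [sgn]
    have f4 : g (b' h) = sgn F (u h) * (g (b h) * (g * h) w) / g w := by
      rw [f2, map_div₀, map_mul, map_mul, hsg]
      rfl
    have hs3 : sgn F (u (g * h)) ≠ 0 := by
      intro h0
      have := sgn_sq F (u (g * h))
      rw [h0] at this
      simp at this
    have hbgh : b (g * h) ≠ 0 := hs.b_ne _
    rw [Pi.sub_apply, Pi.sub_apply, sgn_sub, sgn_sub, sgn_add, e1, e2, f1, f3, f4]
    have k1 := sgn_sq F (u (g * h))
    have k2 := sgn_sq F (c g h)
    rw [e1] at k2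
    field_simp at k2 ⊢
    linear_combination (sgn F (u g)) * (sgn F (u h)) * k2 - (sgn F (u g)) * (sgn F (u h)) * (b (g*h))^2 * k1

end Pool.Agent.H718R3.NT
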