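import Mathlib
import Pool.Agent.H718R3.Tower5

/-! The bound for the second cohomology of the Galois group of a maximal tower. -/

set_option autoImplicit false

open NumberField IsDedekindDomain Module IntermediateField

namespace Pool.Agent.H718R3.NT

open Pool.Agent.TeamU

variable {k F : Type} [Field k] [NumberField k] [Field F] [Algebra k F]

theorem Tow.card_finset_le (h : Tow k F) [IsGalois k F] (hk : finrank ℚ k = 2) (N : ℕ)
    (hN : (powMonoidHom 2 : ClassGroup (𝓞 k) →* _).range.index * 2 ^ 6 ≤ 2 ^ N)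
    (S : Finset (H2f (Gal(F/k)))) : S.card ≤ 2 ^ N := by
  classical
  -- common good field
  choose V hV hVi using fun q : S => (q.1.out).2.1
  obtain ⟨L, hLG, hLV⟩ := h.fix_good (⨅ q : S, V q) (ON_iInf V hV).2
  have hLG' := hLG
  obtain ⟨i1, hL⟩ := hLG
  choose b x hbx using fun q : S => exists_spl L hL (q.1.out).1 (by
    intro g h v hv w hw
    have h1 : (⨅ q : S, V q) ≤ V q := iInf_le _ q
    exact hVi q g h v (h1 (hLV hv)) w (h1 (hLV hw))) (q.1.out).2.2
  obtain ⟨X, hX⟩ := exists_X k L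
  let Z : Subgroup Fˣ := (Units.map (algebraMap k F : k →* F)).range ⊔
    (powMonoidHom 2 : Fˣ →* Fˣ).range
  let Y : Subgroup Lˣ := X ⊓ Z.comap (Units.map (algebraMap L F : L →* F))
  have hxX : ∀ q, x q ∈ X := fun q => (hX _).mpr (hbx q).inv
  obtain ⟨hne, hle⟩ := obstructionBound k L hL hk X Y hX inf_le_left (by
    rintro _ ⟨a, rfl⟩
    refine ⟨(hX _).mpr (invSq_algebraMap (a : k)), ?_⟩
    refine (le_sup_left : _ ≤ Z) ⟨a, ?_⟩
    ext
    rfl) (by
    intro g hg he
    refine ⟨hg, ?_⟩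
    obtain ⟨r, hr⟩ := h.closed L i1 hL g he ((hX g).mp hg)
    have hr0 : r ≠ 0 := by
      rintro rfl
      apply g.ne_zero
      apply Subtype.ext
      rw [← hr]
      simp
    refine (le_sup_right : _ ≤ Z) ⟨Units.mk0 r hr0, ?_⟩
    ext
    exact hr)
  let Φ : S → (X ⧸ Y.subgroupOf X) := fun q => QuotientGroup.mk ⟨x q, hxX q⟩
  have hΦ : Function.Injective Φ := by
    intro q q' hqq
    have h1 := QuotientGroup.eq.mp hqq
    rw [Subgroup.mem_subgroupOf] at h1
    have h1' : Units.map (algebraMap L F : L →* F) ((x q)⁻¹ * x q') ∈ Z := h1.2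
    obtain ⟨y, ⟨y0, rfl⟩, w, ⟨w0, rfl⟩, hyw⟩ := Subgroup.mem_sup.mp h1'
    have h2 : ((x q' : L) : F) = ((x q : L) : F) * (algebraMap k F (y0 : k) * (w0 : F) ^ 2) := by
      have h3 : Units.map (algebraMap L F : L →* F) (x q') =
          Units.map (algebraMap L F : L →* F) (x q) * (Units.map (algebraMap k F : k →* F) y0 *
          (powMonoidHom 2 : Fˣ →* Fˣ) w0) := by
        rw [hyw, ← map_mul]
        congr 1
        simp
      exact congrArg Units.val h3
    have h5 := sub_mem_B2f h L hLG' _ _ _ _ _ _ (hbx q) (hbx q') (y0 : k) (w0 : F)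
      (Units.ne_zero w0) h2
    have h6 : q'.1.out - q.1.out ∈ (B2f (Gal(F/k))).submoduleOf (Z2f (Gal(F/k))) := h5
    rw [← Submodule.Quotient.eq] at h6
    have e1 : Submodule.Quotient.mk (p := (B2f (Gal(F/k))).submoduleOf (Z2f (Gal(F/k)))) q.1.out =
      q.1 := Quotient.out_eq q.1
    have e2 : Submodule.Quotient.mk (p := (B2f (Gal(F/k))).submoduleOf (Z2f (Gal(F/k)))) q'.1.out =
      q'.1 := Quotient.out_eq q'.1
    rw [e1, e2] at h6
    exact Subtype.ext h6.symm
  have hfin : Finite (X ⧸ Y.subgroupOf X) := Nat.finite_of_card_ne_zero hne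
  have hcard := Nat.card_le_card_of_injective Φ hΦ
  rw [Nat.card_eq_fintype_card, Fintype.card_coe] at hcard
  exact hcard.trans (hle.trans hN)

theorem Tow.H2_le (h : Tow k F) [IsGalois k F] (hk : finrank ℚ k = 2) (N : ℕ)
    (hN : (powMonoidHom 2 : ClassGroup (𝓞 k) →* _).range.index * 2 ^ 6 ≤ 2 ^ N) :
    Module.Finite (ZMod 2) (H2f (Gal(F/k))) ∧ finrank (ZMod 2) (H2f (Gal(F/k))) ≤ N := by
  have hfin : Finite (H2f (Gal(F/k))) := by
    by_contra hinf
    rw [not_finite_iff_infinite] at hinf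
    obtain ⟨S, hS⟩ := Infinite.exists_subset_card_eq (H2f (Gal(F/k))) (2 ^ N + 1)
    have := h.card_finset_le hk N hN S
    omega
  have hmf : Module.Finite (ZMod 2) (H2f (Gal(F/k))) := Module.Finite.of_finite
  refine ⟨hmf, ?_⟩
  have := Fintype.ofFinite (H2f (Gal(F/k)))
  have h1 := h.card_finset_le hk N hN Finset.univ
  rw [Finset.card_univ, ← Nat.card_eq_fintype_card,
    Module.natCard_eq_pow_finrank (K := ZMod 2)] at h1
  simp only [Nat.card_zmod] at h1
  exact (Nat.pow_le_pow_iff_right (by norm_num)).mp h1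

/-- the index bound from genus theory -/
theorem index_le (hk : finrank ℚ k = 2) (s : k) (hs : s ^ 2 = ((qt.prod : ℕ) : k)) :
    (powMonoidHom 2 : ClassGroup (𝓞 k) →* _).range.index * 2 ^ 6 ≤ 2 ^ 17 := by
  have hgen : (powMonoidHom 2 : ClassGroup (𝓞 k) →* _).range.index ≤ 2 ^ (10 + 1) := by
    refine genus k hk 10 (by norm_num) (fun i => qt.get i) ?_ ?_ ?_ s ?_
    · intro i
      have h : ∀ q ∈ qt, q.Prime := by intro q hq; fin_cases hq <;> norm_num
      exact h _ (List.get_mem _ _)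
    · exact (List.nodup_iff_injective_get.mp (by decide : qt.Nodup))
    · intro i
      have h : ∀ q ∈ qt, q % 8 = 1 := by decide
      exact h _ (List.get_mem _ _)
    · rw [hs]
      congr 1
  calc _ ≤ 2 ^ (10 + 1) * 2 ^ 6 := Nat.mul_le_mul_right _ hgen
    _ = 2 ^ 17 := by norm_num

end Pool.Agent.H718R3.NT
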