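import Mathlib
import Pool.Agent.H718R3.Main1
import Pool.Agent.H718R3.Tower6

/-! The extension: a Galois subextension of a maximal tower. -/

set_option autoImplicit false

open Module IntermediateField Topology

namespace Pool.Agent.H718R3

section

variable {G Q : Type*} [Group G] [TopologicalSpace G] [IsTopologicalGroup G] [Group Q]
  [TopologicalSpace Q] [IsTopologicalGroup Q]

omit [IsTopologicalGroup G] [IsTopologicalGroup Q] in
theorem Pro2.map (hG : Pro2 G) (π : G →* Q) (hπ : Continuous π) (hs : Function.Surjective π) :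
    Pro2 Q := by
  intro V hV
  have := hV.1
  obtain ⟨j, hj⟩ := hG (V.comap π) ⟨inferInstance, hV.2.preimage hπ⟩
  refine ⟨j, ?_⟩
  rw [← hj]
  exact (Subgroup.index_comap_of_surjective V hs).symm

omit [IsTopologicalGroup G] [IsTopologicalGroup Q] in
theorem finite_Hm_map (hfin : Module.Finite (ZMod 2) (Hm G)) (π : G →* Q) (hπ : Continuous π)
    (hs : Function.Surjective π) : Module.Finite (ZMod 2) (Hm Q) := by
  let Φ : Hm Q →ₗ[ZMod 2] Hm G :=
    { toFun := fun f => ⟨fun a => f.1 (π a), LC_comp π hπ f.2.1, fun g h => by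
        change f.1 (π (g * h)) = f.1 (π g) + f.1 (π h)
        rw [map_mul]; exact f.2.2 _ _⟩
      map_add' := fun f f' => rfl
      map_smul' := fun c f => rfl }
  apply Module.Finite.of_injective Φ
  intro f f' hff
  apply Subtype.ext
  funext y
  obtain ⟨a, rfl⟩ := hs y
  exact congrArg (fun t : Hm G => t.1 a) hff

end

namespace NT

/-- a homomorphism of Galois groups compatible with an embedding of fields is continuous -/
theorem continuous_of_compat {k A B : Type} [Field k] [Field A] [Field B] [Algebra k A]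
    [Algebra k B] (j : B →ₐ[k] A) (π : Gal(A/k) →* Gal(B/k))
    (h : ∀ (g : Gal(A/k)) (x : B), j (π g x) = g (j x)) : Continuous π := by
  apply continuous_of_continuousAt_one _ (continuousAt_def.mpr _)
  intro N hN
  rw [map_one, krullTopology_mem_nhds_one_iff] at hN
  obtain ⟨E, hE, hO⟩ := hN
  have : FiniteDimensional k (E.map j) :=
    Module.Finite.equiv (E.equivMap j).toLinearEquiv
  rw [mem_nhds_iff]
  refine ⟨(E.map j).fixingSubgroup, ?_, (E.map j).fixingSubgroup_isOpen, one_mem _⟩
  intro g hg
  apply hO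
  rw [SetLike.mem_coe, IntermediateField.mem_fixingSubgroup_iff]
  intro x hx
  have h1 : j (π g x) = j x := by
    rw [h]
    exact (IntermediateField.mem_fixingSubgroup_iff (E.map j) g).mp hg (j x) ⟨x, hx, rfl⟩
  exact (RingHom.injective (j : B →+* A)) h1

theorem isOpenMap_of_surj {G Q : Type} [Group G] [TopologicalSpace G] [IsTopologicalGroup G]
    [CompactSpace G] [Group Q] [TopologicalSpace Q] [IsTopologicalGroup Q] [T2Space Q]
    (π : G →* Q) (hπ : Continuous π) (hs : Function.Surjective π) : IsOpenMap π := by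
  have h1 : IsClosedMap π := hπ.isClosedMap
  have h2 : IsQuotientMap π := h1.isQuotientMap hπ hs
  exact (MonoidHom.isOpenQuotientMap_of_isQuotientMap h2).isOpenMap

/-- The extension, given a maximal tower whose Galois group has many generators and few
relations. -/
theorem exists_ext (k : Type) [Field k] [NumberField k] (M : IntermediateField k (AlgebraicClosure k))
    (hM : Tow k M) (hd : 9 ≤ finrank (ZMod 2) (Hm (Gal(M/k))))
    (hH : Module.Finite (ZMod 2) (H2f (Gal(M/k))))
    (hr : finrank (ZMod 2) (H2f (Gal(M/k))) ≤ 17) :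
    ∃ L : IntermediateField k (AlgebraicClosure k), L ≤ M ∧ IsGalois k L ∧ Infinite (Gal(L/k)) ∧
      Pro2 (Gal(L/k)) ∧ ∀ U : Subgroup (Gal(L/k)), IsOpen (U : Set (Gal(L/k))) →
        Finite (Hm U) ∧ ¬ Module.Finite (ZMod 2) (H2f U) := by
  have hgal : IsGalois k M := hM.normal
  have hB : Basis1 (Gal(M/k)) := basis1
  have hG : Pro2 (Gal(M/k)) := hM.pro2
  have hfin := hM.finite_Hm
  obtain ⟨x, T, hx, hC, hxT⟩ := exists_sequence hB hG hfin hH hd hr
  have hinf := infinite_quotient hG hfin hH hd hr x hx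
  have hNn : (NC x).Normal := NC_normal x
  have hNc : IsClosed (NC x : Set (Gal(M/k))) := Subgroup.isClosed_topologicalClosure _
  let Lf : IntermediateField k M := fixedField (NC x)
  have hLf : IsGalois k Lf := inferInstance
  let e : Lf ≃ₐ[k] lift Lf := liftAlgEquiv Lf
  have hLg : IsGalois k (lift Lf) := IsGalois.of_algEquiv e
  let j : lift Lf →ₐ[k] M := Lf.val.comp (e.symm : lift Lf →ₐ[k] Lf)
  let π : Gal(M/k) →* Gal((lift Lf)/k) :=
    (AlgEquiv.autCongr e : Gal(Lf/k) →* Gal((lift Lf)/k)).comp (AlgEquiv.restrictNormalHom Lf)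
  have hcompat : ∀ (g : Gal(M/k)) (y : lift Lf), j (π g y) = g (j y) := by
    intro g y
    have h1 := AlgEquiv.restrictNormal_commutes g Lf (e.symm y)
    change Lf.val (e.symm (e ((AlgEquiv.restrictNormalHom Lf g) (e.symm y)))) = _
    rw [AlgEquiv.symm_apply_apply]
    exact h1
  have hπ : Continuous π := continuous_of_compat j π hcompat
  have hs : Function.Surjective π :=
    (AlgEquiv.autCongr e).surjective.comp (AlgEquiv.restrictNormalHom_surjective M)
  have hker : π.ker = NC x := by
    have h1 : (AlgEquiv.restrictNormalHom Lf : Gal(M/k) →* Gal(Lf/k)).ker = NC x := by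
      rw [restrictNormalHom_ker]
      exact fix_fixed (NC x) hNc
    rw [← h1]
    ext g
    rw [MonoidHom.mem_ker, MonoidHom.mem_ker]
    change (AlgEquiv.autCongr e) (AlgEquiv.restrictNormalHom Lf g) = 1 ↔ _
    rw [EmbeddingLike.map_eq_one_iff]
  have hT2 : T2Space (Gal((lift Lf)/k)) := krullTopology_t2
  have hπo : IsOpenMap π := isOpenMap_of_surj π hπ hs
  refine ⟨lift Lf, lift_le Lf, hLg, ?_, hG.map π hπ hs, ?_⟩
  · have h1 : (Gal(M/k) ⧸ π.ker) ≃ Gal((lift Lf)/k) :=
      (QuotientGroup.quotientKerEquivOfSurjective π hs).toEquiv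
    rw [hker] at h1
    exact Infinite.of_injective h1 h1.injective
  · intro U hU
    refine ⟨?_, infinite_H2 hB hG hfin hC hxT π hπ hπo hs hker U hU⟩
    have hfinQ := finite_Hm_map hfin π hπ hs
    obtain ⟨g, χ, hg, -, -⟩ := exists_sep hfinQ
    exact finite_Hm_open basis1 (hG.map π hπ hs) hg U hU

end NT

end Pool.Agent.H718R3
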