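import Mathlib
import Pool.Agent.H718R3.Main2

/-! Ramification in subfields of a maximal tower. -/

set_option autoImplicit false

open Module IntermediateField NumberField IsDedekindDomain

namespace Pool.Agent.H718R3.NT

open Pool.Agent.TeamU

variable {k : Type} [Field k] [NumberField k]

theorem unr_sub {F : Type} [Field F] [Algebra k F] (M : IntermediateField k F)
    (hM : Tow k M) (L : IntermediateField k F) (hL : L ≤ M)
    (E : IntermediateField k L) [NumberField E] : ∀ P : HeightOneSpectrum (𝓞 E), Unr k P := by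
  let E' : IntermediateField k M := E.map (IntermediateField.inclusion hL)
  let e : E ≃ₐ[k] E' := E.equivMap (IntermediateField.inclusion hL)
  have : NumberField E' := NumberField.of_ringEquiv _ _ e.toRingEquiv
  let _ : Algebra E E' := (e : E →+* E').toAlgebra
  have : IsScalarTower k E E' := IsScalarTower.of_algebraMap_eq fun x => (e.commutes x).symm
  exact unr_desc_bot k E E' (hM.unr E')

theorem real_sub {F : Type} [Field F] [Algebra k F] [Algebra.IsAlgebraic k F]
    (M : IntermediateField k F)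
    (hM : Tow k M) (L : IntermediateField k F) (hL : L ≤ M) (φ : L →+* ℂ) (x : L) :
    (φ x).im = 0 := by
  have : FiniteDimensional k k⟮x⟯ :=
    adjoin.finiteDimensional (Algebra.IsIntegral.isIntegral (R := k) x)
  have : NumberField k⟮x⟯ := nf_of_fin _
  let E' : IntermediateField k M := k⟮x⟯.map (IntermediateField.inclusion hL)
  let e : k⟮x⟯ ≃ₐ[k] E' := k⟮x⟯.equivMap (IntermediateField.inclusion hL)
  have : NumberField E' := NumberField.of_ringEquiv _ _ e.toRingEquiv
  have : FiniteDimensional k E' := Module.Finite.equiv e.toLinearEquiv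
  obtain ⟨L1, ⟨i1, h1⟩, h2⟩ := hM.cover E' this
  let _ : Algebra E' L1 := (IntermediateField.inclusion h2).toRingHom.toAlgebra
  have hr : IsTotallyReal E' := totallyReal_desc E' L1 h1.real
  let _ : Algebra k⟮x⟯ E' := (e : k⟮x⟯ →+* E').toAlgebra
  have hr2 : IsTotallyReal k⟮x⟯ := totallyReal_desc k⟮x⟯ E' hr
  let ψ : k⟮x⟯ →+* ℂ := φ.comp (algebraMap k⟮x⟯ L)
  have h3 : (InfinitePlace.mk ψ).IsReal := hr2.isReal _
  rw [InfinitePlace.isReal_mk_iff] at h3
  have h4 := RingHom.congr_fun h3 (AdjoinSimple.gen k x)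
  have h5 : ψ (AdjoinSimple.gen k x) = φ x := rfl
  rw [ComplexEmbedding.conjugate_coe_eq, h5] at h4
  exact Complex.conj_eq_iff_im.mp h4

/-- ramification in the usual sense is excluded by the valuation condition -/
theorem not_ram {E : Type} [Field E] [NumberField E] [Algebra k E] (P : Ideal (𝓞 E))
    (hP : P.IsPrime) (hP0 : P ≠ ⊥)
    (v : HeightOneSpectrum (𝓞 k)) (hv : P.comap (algebraMap (𝓞 k) (𝓞 E)) = v.asIdeal)
    (hu : ∀ P : HeightOneSpectrum (𝓞 E), Unr k P)
    (hram : v.asIdeal.map (algebraMap (𝓞 k) (𝓞 E)) ≤ P ^ 2) : False := by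
  let P' : HeightOneSpectrum (𝓞 E) := ⟨P, hP, hP0⟩
  obtain ⟨π, hπ⟩ := v.intValuation_exists_uniformizer
  have h1 := hu P' v hv (algebraMap (𝓞 k) k π)
  rw [HeightOneSpectrum.valuation_of_algebraMap, hπ, ← IsScalarTower.algebraMap_apply,
    IsScalarTower.algebraMap_apply (𝓞 k) (𝓞 E) E, HeightOneSpectrum.valuation_of_algebraMap] at h1
  have h2 : π ∈ v.asIdeal := by
    rw [← HeightOneSpectrum.intValuation_lt_one_iff_mem, hπ]
    rw [← WithZero.exp_zero, WithZero.exp_lt_exp]
    norm_num
  have h3 : algebraMap (𝓞 k) (𝓞 E) π ∈ P'.asIdeal ^ 2 := hram (Ideal.mem_map_of_mem _ h2)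
  rw [← HeightOneSpectrum.intValuation_le_pow_iff_mem, h1, WithZero.exp_le_exp] at h3
  norm_num at h3

end Pool.Agent.H718R3.NT
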